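import Mathlib

/-!
# Packed Bernstein positivity checker (kernel-fast), two variables

A polynomial with nonnegative integer Bernstein coefficients is packed into one natural number
(Kronecker substitution); the positive and the negative part are kept separately.  Bisection,
conversion to the Bernstein basis and comparison are a few `land`, `mul`, `add`, `shiftRight`
operations on big naturals, all of them evaluated by GMP inside the kernel.

See `PBernMain.lean` for the user interface.
-/

set_option linter.unusedVariables false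

namespace AF06.PB

/-! ### Homogeneous evaluation of lists over a commutative semiring -/

section generic
variable {α : Type} {R : Type} [CommSemiring R]

/-- homogeneous evaluation `∑ φ(l_i) u^(n-1-i) v^i` -/
def hev (φ : α → R) : List α → R → R → R
  | [], _, _ => 0
  | a :: l, u, v => φ a * u ^ l.length + v * hev φ l u v

/-- one step of the Taylor shift -/
def stp (add : α → α → α) : α → List α → List α
  | a, [] => [a]
  | a, b :: q => add a b :: stp add b q

/-- Taylor shift -/
def tsh (add : α → α → α) : List α → List α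
  | [] => []
  | a :: l => stp add a (tsh add l)

/-- scaling by powers of two -/
def scl (mul : ℕ → α → α) : ℕ → List α → List α
  | _, [] => []
  | k, a :: l => mul k a :: scl mul (2 * k) l

/-- right half -/
def rgt (add : α → α → α) (mul : ℕ → α → α) (l : List α) : List α :=
  scl mul 1 (tsh add l)

/-- left half -/
def lft (add : α → α → α) (mul : ℕ → α → α) (l : List α) : List α :=
  (scl mul 1 (tsh add l.reverse)).reverse

/-- conversion of a power basis list to the Bernstein basis -/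
def toB (add : α → α → α) (l : List α) : List α :=
  (tsh add l.reverse).reverse

variable (φ : α → R) (G : α → Prop) (add : α → α → α) (mul : ℕ → α → α)

theorem stp_length (a : α) (q : List α) : (stp add a q).length = q.length + 1 := by
  induction q generalizing a with
  | nil => simp [stp]
  | cons b q ih => simp [stp, ih]

theorem tsh_length (l : List α) : (tsh add l).length = l.length := by
  induction l with
  | nil => simp [tsh]
  | cons a l ih => simp [tsh, stp_length, ih]

theorem scl_length (k : ℕ) (l : List α) : (scl mul k l).length = l.length := by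
  induction l generalizing k with
  | nil => simp [scl]
  | cons a l ih => simp [scl, ih]

theorem stp_good (hadd : ∀ a b, G a → G b → G (add a b)) (a : α) (q : List α) (ha : G a)
    (hq : ∀ b ∈ q, G b) : ∀ b ∈ stp add a q, G b := by
  induction q generalizing a with
  | nil => simpa [stp] using ha
  | cons b q ih =>
    intro c hc
    simp only [stp, List.mem_cons] at hc
    rcases hc with rfl | hc
    · exact hadd a b ha (hq b (by simp))
    · exact ih b (hq b (by simp)) (fun d hd => hq d (by simp [hd])) c hc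

theorem tsh_good (hadd : ∀ a b, G a → G b → G (add a b)) (l : List α)
    (hl : ∀ b ∈ l, G b) : ∀ b ∈ tsh add l, G b := by
  induction l with
  | nil => simp [tsh]
  | cons a l ih =>
    simp only [tsh]
    exact stp_good G add hadd a _ (hl a (by simp)) (ih fun b hb => hl b (by simp [hb]))

theorem scl_good (hmul : ∀ k a, G a → G (mul k a)) (k : ℕ) (l : List α)
    (hl : ∀ b ∈ l, G b) : ∀ b ∈ scl mul k l, G b := by
  induction l generalizing k with
  | nil => simp [scl]
  | cons a l ih =>
    intro c hc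
    simp only [scl, List.mem_cons] at hc
    rcases hc with rfl | hc
    · exact hmul k a (hl a (by simp))
    · exact ih (2 * k) (fun b hb => hl b (by simp [hb])) c hc

theorem hev_stp (hadd : ∀ a b, G a → G b → G (add a b))
    (hφ : ∀ a b, G a → G b → φ (add a b) = φ a + φ b) (a : α) (q : List α) (ha : G a)
    (hq : ∀ b ∈ q, G b) (u v : R) :
    hev φ (stp add a q) u v = φ a * u ^ q.length + (u + v) * hev φ q u v := by
  induction q generalizing a with
  | nil => simp [stp, hev]
  | cons b q ih =>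
    have hb : G b := hq b (by simp)
    have h := ih b hb (fun d hd => hq d (by simp [hd]))
    simp only [stp, hev, stp_length, List.length_cons]
    rw [h, hφ a b ha hb]
    ring

theorem hev_tsh (hadd : ∀ a b, G a → G b → G (add a b))
    (hφ : ∀ a b, G a → G b → φ (add a b) = φ a + φ b) (l : List α)
    (hl : ∀ b ∈ l, G b) (u v : R) :
    hev φ (tsh add l) u v = hev φ l u (u + v) := by
  induction l with
  | nil => simp [tsh, hev]
  | cons a l ih =>
    have hl' : ∀ b ∈ l, G b := fun b hb => hl b (by simp [hb])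
    simp only [tsh, hev]
    rw [hev_stp φ G add hadd hφ a _ (hl a (by simp)) (tsh_good G add hadd l hl'), ih hl',
      tsh_length]

theorem hev_scl (hφ : ∀ k a, G a → φ (mul k a) = k * φ a) (k : ℕ) (l : List α)
    (hl : ∀ b ∈ l, G b) (u v : R) :
    hev φ (scl mul k l) u v = k * hev φ l u (2 * v) := by
  induction l generalizing k with
  | nil => simp [scl, hev]
  | cons a l ih =>
    have h := ih (2 * k) (fun b hb => hl b (by simp [hb]))
    simp only [scl, hev, scl_length]
    rw [h, hφ k a (hl a (by simp))]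
    push_cast
    ring

theorem hev_append (l m : List α) (u v : R) :
    hev φ (l ++ m) u v = u ^ m.length * hev φ l u v + v ^ l.length * hev φ m u v := by
  induction l with
  | nil => simp [hev]
  | cons a l ih =>
    simp only [List.cons_append, hev, ih, List.length_append, List.length_cons]
    ring

theorem hev_reverse (l : List α) (u v : R) : hev φ l.reverse u v = hev φ l v u := by
  induction l with
  | nil => simp [hev]
  | cons a l ih =>
    simp only [List.reverse_cons, hev_append, hev, ih, List.length_reverse, List.length_nil,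
      List.length_cons]
    ring

theorem hev_rgt (hadd : ∀ a b, G a → G b → G (add a b))
    (hφ : ∀ a b, G a → G b → φ (add a b) = φ a + φ b)
    (hφm : ∀ k a, G a → φ (mul k a) = k * φ a) (l : List α)
    (hl : ∀ b ∈ l, G b) (u v : R) :
    hev φ (rgt add mul l) u v = hev φ l u (u + 2 * v) := by
  unfold rgt
  rw [hev_scl φ G mul hφm 1 _ (tsh_good G add hadd l hl), hev_tsh φ G add hadd hφ l hl]
  simp

theorem hev_lft (hadd : ∀ a b, G a → G b → G (add a b))
    (hφ : ∀ a b, G a → G b → φ (add a b) = φ a + φ b)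
    (hφm : ∀ k a, G a → φ (mul k a) = k * φ a) (l : List α)
    (hl : ∀ b ∈ l, G b) (u v : R) :
    hev φ (lft add mul l) u v = hev φ l (v + 2 * u) v := by
  unfold lft
  have hl' : ∀ b ∈ l.reverse, G b := fun b hb => hl b (by simpa using hb)
  rw [hev_reverse, hev_scl φ G mul hφm 1 _ (tsh_good G add hadd _ hl'),
    hev_tsh φ G add hadd hφ _ hl', hev_reverse]
  simp

theorem hev_toB (hadd : ∀ a b, G a → G b → G (add a b))
    (hφ : ∀ a b, G a → G b → φ (add a b) = φ a + φ b) (l : List α)
    (hl : ∀ b ∈ l, G b) (u v : R) :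
    hev φ (toB add l) u v = hev φ l (v + u) v := by
  unfold toB
  have hl' : ∀ b ∈ l.reverse, G b := fun b hb => hl b (by simpa using hb)
  rw [hev_reverse, hev_tsh φ G add hadd hφ _ hl', hev_reverse]

theorem rgt_good (hadd : ∀ a b, G a → G b → G (add a b)) (hmul : ∀ k a, G a → G (mul k a))
    (l : List α) (hl : ∀ b ∈ l, G b) : ∀ b ∈ rgt add mul l, G b :=
  scl_good G mul hmul 1 _ (tsh_good G add hadd l hl)

theorem lft_good (hadd : ∀ a b, G a → G b → G (add a b)) (hmul : ∀ k a, G a → G (mul k a))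
    (l : List α) (hl : ∀ b ∈ l, G b) : ∀ b ∈ lft add mul l, G b := by
  intro b hb
  have hl' : ∀ b ∈ l.reverse, G b := fun b hb => hl b (by simpa using hb)
  exact scl_good G mul hmul 1 _ (tsh_good G add hadd _ hl') b (by simpa [lft] using hb)

theorem toB_good (hadd : ∀ a b, G a → G b → G (add a b))
    (l : List α) (hl : ∀ b ∈ l, G b) : ∀ b ∈ toB add l, G b := by
  intro b hb
  have hl' : ∀ b ∈ l.reverse, G b := fun b hb => hl b (by simpa using hb)
  exact tsh_good G add hadd _ hl' b (by simpa [toB] using hb)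

theorem rgt_length (l : List α) : (rgt add mul l).length = l.length := by
  simp [rgt, scl_length, tsh_length]

theorem lft_length (l : List α) : (lft add mul l).length = l.length := by
  simp [lft, scl_length, tsh_length]

theorem toB_length (l : List α) : (toB add l).length = l.length := by
  simp [toB, tsh_length]

end generic

/-! ### Rows of naturals -/

/-- row addition (equal lengths) -/
def radd : List ℕ → List ℕ → List ℕ
  | [], _ => []
  | _, [] => []
  | a :: l, b :: m => (a + b) :: radd l m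

/-- row scaling -/
def rmul (k : ℕ) : List ℕ → List ℕ
  | [] => []
  | a :: l => (k * a) :: rmul k l

theorem radd_length (l m : List ℕ) (h : l.length = m.length) : (radd l m).length = l.length := by
  induction l generalizing m with
  | nil => simp [radd]
  | cons a l ih =>
    cases m with
    | nil => simp at h
    | cons b m => simp only [radd, List.length_cons] at h ⊢; rw [ih m (by omega)]

theorem rmul_length (k : ℕ) (l : List ℕ) : (rmul k l).length = l.length := by
  induction l with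
  | nil => simp [rmul]
  | cons a l ih => simp [rmul, ih]

section R
variable {R : Type} [CommSemiring R]

/-- row evaluation -/
abbrev hr (u v : R) (r : List ℕ) : R := hev (fun a : ℕ => (a : R)) r u v

theorem hr_radd (l m : List ℕ) (h : l.length = m.length) (u v : R) :
    hr u v (radd l m) = hr u v l + hr u v m := by
  induction l generalizing m with
  | nil =>
    cases m with
    | nil => simp [hr, radd, hev]
    | cons b m => simp at h
  | cons a l ih =>
    cases m with
    | nil => simp at h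
    | cons b m =>
      have h' : l.length = m.length := by simpa using h
      have := ih m h'
      simp only [hr] at this
      simp only [hr, radd, hev, radd_length l m h', this, h']
      push_cast
      ring

theorem hr_rmul (k : ℕ) (l : List ℕ) (u v : R) : hr u v (rmul k l) = k * hr u v l := by
  induction l with
  | nil => simp [hr, rmul, hev]
  | cons a l ih =>
    simp only [hr] at ih
    simp only [hr, rmul, hev, rmul_length, ih]
    push_cast
    ring

/-- two-variable homogeneous evaluation -/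
def hev2 (L : List (List ℕ)) (u v w z : R) : R := hev (hr u v) L w z

end R

/-- all rows have the length `n` -/
def Rect (n : ℕ) (L : List (List ℕ)) : Prop := ∀ r ∈ L, r.length = n

def yL (L : List (List ℕ)) : List (List ℕ) := lft radd rmul L
def yR (L : List (List ℕ)) : List (List ℕ) := rgt radd rmul L
def xL (L : List (List ℕ)) : List (List ℕ) := L.map (lft (· + ·) (· * ·))
def xR (L : List (List ℕ)) : List (List ℕ) := L.map (rgt (· + ·) (· * ·))
def xB (L : List (List ℕ)) : List (List ℕ) := L.map (toB (· + ·))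
def yB (L : List (List ℕ)) : List (List ℕ) := toB radd L

section R
variable {R : Type} [CommSemiring R]

theorem hevmap (f : List ℕ → List ℕ) (L : List (List ℕ)) (u v u' v' w z : R)
    (h : ∀ r ∈ L, hr u v (f r) = hr u' v' r) :
    hev2 (L.map f) u v w z = hev2 L u' v' w z := by
  unfold hev2
  induction L with
  | nil => simp [hev]
  | cons r L ih =>
    simp only [List.map_cons, hev, List.length_map]
    rw [h r (by simp), ih fun r hr => h r (by simp [hr])]

theorem hr_lft (r : List ℕ) (u v : R) :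
    hr u v (lft (· + ·) (· * ·) r) = hr (v + 2 * u) v r :=
  hev_lft (fun a : ℕ => (a : R)) (fun _ => True) (· + ·) (· * ·) (by simp) (by simp) (by simp)
    r (by simp) u v

theorem hr_rgt (r : List ℕ) (u v : R) :
    hr u v (rgt (· + ·) (· * ·) r) = hr u (u + 2 * v) r :=
  hev_rgt (fun a : ℕ => (a : R)) (fun _ => True) (· + ·) (· * ·) (by simp) (by simp) (by simp)
    r (by simp) u v

theorem hr_toB (r : List ℕ) (u v : R) :
    hr u v (toB (· + ·) r) = hr (v + u) v r :=
  hev_toB (fun a : ℕ => (a : R)) (fun _ => True) (· + ·) (by simp) (by simp)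
    r (by simp) u v

theorem hev2_xL (L : List (List ℕ)) (u v w z : R) :
    hev2 (xL L) u v w z = hev2 L (v + 2 * u) v w z :=
  hevmap _ L u v _ _ w z fun r _ => hr_lft r u v

theorem hev2_xR (L : List (List ℕ)) (u v w z : R) :
    hev2 (xR L) u v w z = hev2 L u (u + 2 * v) w z :=
  hevmap _ L u v _ _ w z fun r _ => hr_rgt r u v

theorem hev2_xB (L : List (List ℕ)) (u v w z : R) :
    hev2 (xB L) u v w z = hev2 L (v + u) v w z :=
  hevmap _ L u v _ _ w z fun r _ => hr_toB r u v

theorem good_add (n : ℕ) (a b : List ℕ) (ha : a.length = n) (hb : b.length = n) :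
    (radd a b).length = n := by rw [radd_length a b (by rw [ha, hb]), ha]

theorem good_mul (n : ℕ) (k : ℕ) (a : List ℕ) (ha : a.length = n) :
    (rmul k a).length = n := by rw [rmul_length, ha]

theorem hev2_yL (n : ℕ) (L : List (List ℕ)) (hL : Rect n L) (u v w z : R) :
    hev2 (yL L) u v w z = hev2 L u v (z + 2 * w) z :=
  hev_lft (hr u v) (fun r => r.length = n) radd rmul (good_add n)
    (fun a b ha hb => hr_radd a b (by rw [ha, hb]) u v) (fun k a _ => hr_rmul k a u v) L hL w z

theorem hev2_yR (n : ℕ) (L : List (List ℕ)) (hL : Rect n L) (u v w z : R) :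
    hev2 (yR L) u v w z = hev2 L u v w (w + 2 * z) :=
  hev_rgt (hr u v) (fun r => r.length = n) radd rmul (good_add n)
    (fun a b ha hb => hr_radd a b (by rw [ha, hb]) u v) (fun k a _ => hr_rmul k a u v) L hL w z

theorem hev2_yB (n : ℕ) (L : List (List ℕ)) (hL : Rect n L) (u v w z : R) :
    hev2 (yB L) u v w z = hev2 L u v (z + w) z :=
  hev_toB (hr u v) (fun r => r.length = n) radd (good_add n)
    (fun a b ha hb => hr_radd a b (by rw [ha, hb]) u v) L hL w z

end R

theorem rect_xL (n : ℕ) (L : List (List ℕ)) (hL : Rect n L) : Rect n (xL L) := by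
  intro r hr
  obtain ⟨s, hs, rfl⟩ := List.mem_map.1 hr
  rw [lft_length]; exact hL s hs

theorem rect_xR (n : ℕ) (L : List (List ℕ)) (hL : Rect n L) : Rect n (xR L) := by
  intro r hr
  obtain ⟨s, hs, rfl⟩ := List.mem_map.1 hr
  rw [rgt_length]; exact hL s hs

theorem rect_xB (n : ℕ) (L : List (List ℕ)) (hL : Rect n L) : Rect n (xB L) := by
  intro r hr
  obtain ⟨s, hs, rfl⟩ := List.mem_map.1 hr
  rw [toB_length]; exact hL s hs

theorem rect_yL (n : ℕ) (L : List (List ℕ)) (hL : Rect n L) : Rect n (yL L) :=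
  lft_good (fun r : List ℕ => r.length = n) radd rmul (good_add n)
    (fun k a ha => good_mul n k a ha) L hL

theorem rect_yR (n : ℕ) (L : List (List ℕ)) (hL : Rect n L) : Rect n (yR L) :=
  rgt_good (fun r : List ℕ => r.length = n) radd rmul (good_add n)
    (fun k a ha => good_mul n k a ha) L hL

theorem rect_yB (n : ℕ) (L : List (List ℕ)) (hL : Rect n L) : Rect n (yB L) :=
  toB_good (fun r : List ℕ => r.length = n) radd (good_add n) L hL

theorem len_xL (L : List (List ℕ)) : (xL L).length = L.length := by simp [xL]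
theorem len_xR (L : List (List ℕ)) : (xR L).length = L.length := by simp [xR]
theorem len_xB (L : List (List ℕ)) : (xB L).length = L.length := by simp [xB]
theorem len_yL (L : List (List ℕ)) : (yL L).length = L.length := lft_length _ _ _
theorem len_yR (L : List (List ℕ)) : (yR L).length = L.length := rgt_length _ _ _
theorem len_yB (L : List (List ℕ)) : (yB L).length = L.length := toB_length _ _

/-! ### Digit extraction -/

theorem land_add (t a b c d : ℕ) (ha : a < 2 ^ t) (hb : b < 2 ^ t) :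
    Nat.land (a + 2 ^ t * c) (b + 2 ^ t * d) = Nat.land a b + 2 ^ t * Nat.land c d := by
  have hab : Nat.land a b < 2 ^ t := Nat.and_lt_two_pow a hb
  apply Nat.eq_of_testBit_eq
  intro i
  have h1 : ∀ x y : ℕ, (Nat.land x y).testBit i = (x.testBit i && y.testBit i) := fun x y =>
    Nat.testBit_land x y i
  rw [h1, add_comm a, add_comm b, add_comm (Nat.land a b), Nat.testBit_two_pow_mul_add _ ha,
    Nat.testBit_two_pow_mul_add _ hb, Nat.testBit_two_pow_mul_add _ hab]
  split
  · exact (Nat.testBit_land a b i).symm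
  · exact (Nat.testBit_land c d (i - t)).symm

theorem land_mask (k a : ℕ) (ha : a < 2 ^ k) : Nat.land a (2 ^ k - 1) = a := by
  have : a &&& (2 ^ k - 1) = a % 2 ^ k := Nat.and_two_pow_sub_one_eq_mod a k
  rw [Nat.mod_eq_of_lt ha] at this
  exact this

theorem land_zero' (a : ℕ) : Nat.land a 0 = 0 := Nat.and_zero a

/-! ### Kernel-side operations -/

/-- `∑ land(P, mask_i) * weight_i` over a table of pairs `(mask_i, weight_i)` -/
noncomputable def lin (P : ℕ) (tb : List (ℕ × ℕ)) : ℕ :=
  List.rec (motive := fun _ => ℕ) 0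
    (fun a _ ih => Nat.add (Nat.mul (Nat.land P a.1) a.2) ih) tb

theorem lin_nil (P : ℕ) : lin P [] = 0 := rfl

theorem lin_cons (P : ℕ) (a : ℕ × ℕ) (tb : List (ℕ × ℕ)) :
    lin P (a :: tb) = Nat.land P a.1 * a.2 + lin P tb := rfl

/-- the table of the masks `g (2^t - 1) 2^(t j)` and the weights `W j`, `i ≤ j < i + c` -/
noncomputable def tab (g t : ℕ) (W : ℕ → ℕ) (c : ℕ) : ℕ → List (ℕ × ℕ) :=
  Nat.rec (motive := fun _ => ℕ → List (ℕ × ℕ)) (fun _ => [])
    (fun _ ih i => (Nat.mul g (Nat.mul (Nat.sub (Nat.pow 2 t) 1) (Nat.pow 2 (Nat.mul t i))), W i) ::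
      ih (Nat.succ i)) c

theorem tab_zero (g t : ℕ) (W : ℕ → ℕ) (i : ℕ) : tab g t W 0 i = [] := rfl

theorem tab_succ (g t : ℕ) (W : ℕ → ℕ) (c i : ℕ) :
    tab g t W (c + 1) i = (g * ((2 ^ t - 1) * 2 ^ (t * i)), W i) :: tab g t W c (i + 1) := rfl

theorem lin_tab (P g t : ℕ) (W : ℕ → ℕ) (c i : ℕ) :
    lin P (tab g t W c i) =
      ∑ j ∈ Finset.range c, Nat.land P (g * ((2 ^ t - 1) * 2 ^ (t * (i + j)))) * W (i + j) := by
  induction c generalizing i with
  | zero => simp [tab_zero, lin_nil]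
  | succ c ih =>
    rw [tab_succ, lin_cons, ih, Finset.sum_range_succ']
    simp only [add_zero]
    rw [add_comm]
    congr 1
    refine Finset.sum_congr rfl fun j _ => ?_
    rw [show i + 1 + j = i + (j + 1) by ring]

/-- geometric sum `1 + Y + ... + Y^(m-1)` -/
noncomputable def gs (Y m : ℕ) : ℕ :=
  Nat.rec (motive := fun _ => ℕ) 0 (fun _ ih => Nat.add 1 (Nat.mul Y ih)) m

theorem gs_zero (Y : ℕ) : gs Y 0 = 0 := rfl
theorem gs_succ (Y m : ℕ) : gs Y (m + 1) = 1 + Y * gs Y m := rfl

/-! ### One-dimensional extraction -/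

theorem hr_nil {R : Type} [CommSemiring R] (u v : R) : hr u v [] = 0 := rfl

theorem hr_cons {R : Type} [CommSemiring R] (u v : R) (a : ℕ) (l : List ℕ) :
    hr u v (a :: l) = a * u ^ l.length + v * hr u v l := rfl

theorem hr_lt (t : ℕ) (l : List ℕ) (hl : ∀ a ∈ l, a < 2 ^ t) :
    hr (1 : ℕ) (2 ^ t) l < 2 ^ (t * l.length) := by
  induction l with
  | nil => simp [hr_nil]
  | cons a l ih =>
    have h1 := ih fun b hb => hl b (by simp [hb])
    have h2 := hl a (by simp)
    rw [hr_cons, List.length_cons, Nat.mul_succ, pow_add, one_pow, mul_one, Nat.cast_id]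
    have h3 : 2 ^ t * (hr (1 : ℕ) (2 ^ t) l + 1) ≤ 2 ^ t * 2 ^ (t * l.length) :=
      Nat.mul_le_mul_left _ h1
    nlinarith

theorem extract (t : ℕ) (l : List ℕ) (hl : ∀ a ∈ l, a < 2 ^ t) (i : ℕ) :
    Nat.land (hr (1 : ℕ) (2 ^ t) l) ((2 ^ t - 1) * 2 ^ (t * i)) = 2 ^ (t * i) * l.getD i 0 := by
  have hp : 0 < 2 ^ t := by positivity
  induction l generalizing i with
  | nil => simp [hr_nil]
  | cons a l ih =>
    have h2 := hl a (by simp)
    rw [hr_cons, one_pow, mul_one, Nat.cast_id]
    cases i with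
    | zero =>
      have := land_add t a (2 ^ t - 1) (hr (1 : ℕ) (2 ^ t) l) 0 h2 (by omega)
      simp only [mul_zero, add_zero, pow_zero, mul_one, List.getD_cons_zero, one_mul] at this ⊢
      rw [this, land_mask t a h2, land_zero']
      simp
    | succ i =>
      have := land_add t a 0 (hr (1 : ℕ) (2 ^ t) l) ((2 ^ t - 1) * 2 ^ (t * i)) h2 hp
      rw [show (2 ^ t - 1) * 2 ^ (t * (i + 1)) = 0 + 2 ^ t * ((2 ^ t - 1) * 2 ^ (t * i)) by
        rw [Nat.mul_succ, pow_add]; ring, this, land_zero', ih (fun b hb => hl b (by simp [hb])),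
        List.getD_cons_succ, Nat.mul_succ, pow_add]
      ring

theorem hr_sum {R : Type} [CommSemiring R] (u v : R) (l : List ℕ) :
    hr u v l = ∑ i ∈ Finset.range l.length, (l.getD i 0 : ℕ) * (u ^ (l.length - 1 - i) * v ^ i) := by
  induction l with
  | nil => simp [hr_nil]
  | cons a l ih =>
    rw [hr_cons, List.length_cons, Finset.sum_range_succ', ih, Finset.mul_sum, add_comm]
    congr 1
    · refine Finset.sum_congr rfl fun i hi => ?_
      have hi' := Finset.mem_range.1 hi
      rw [List.getD_cons_succ, show l.length + 1 - 1 - (i + 1) = l.length - 1 - i by omega,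
        pow_succ]
      ring
    · simp

/-- weights for the right half -/
noncomputable def wR (t c : ℕ) (i : ℕ) : ℕ :=
  Nat.mul (Nat.pow (Nat.add 1 (Nat.mul 2 (Nat.pow 2 t))) i)
    (Nat.pow 2 (Nat.mul t (Nat.sub (Nat.sub c 1) i)))

/-- weights for the left half -/
noncomputable def wL (t c : ℕ) (i : ℕ) : ℕ :=
  Nat.pow (Nat.add 2 (Nat.pow 2 t)) (Nat.sub (Nat.sub c 1) i)

/-- weights for the conversion to the Bernstein basis -/
noncomputable def wB (t c : ℕ) (i : ℕ) : ℕ :=
  Nat.pow (Nat.add 1 (Nat.pow 2 t)) (Nat.sub (Nat.sub c 1) i)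

theorem wR_eq (t c i : ℕ) : wR t c i = (1 + 2 * 2 ^ t) ^ i * 2 ^ (t * (c - 1 - i)) := rfl
theorem wL_eq (t c i : ℕ) : wL t c i = (2 + 2 ^ t) ^ (c - 1 - i) := rfl
theorem wB_eq (t c i : ℕ) : wB t c i = (1 + 2 ^ t) ^ (c - 1 - i) := rfl

/-- one-dimensional `lin` -/
theorem lin1 (t : ℕ) (l : List ℕ) (hl : ∀ a ∈ l, a < 2 ^ t) (W : ℕ → ℕ) :
    lin (hr (1 : ℕ) (2 ^ t) l) (tab 1 t W l.length 0) =
      ∑ i ∈ Finset.range l.length, l.getD i 0 * (2 ^ (t * i) * W i) := by
  rw [lin_tab]
  refine Finset.sum_congr rfl fun i _ => ?_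
  rw [one_mul, zero_add, extract t l hl]
  ring

theorem lin1_R (t : ℕ) (l : List ℕ) (hl : ∀ a ∈ l, a < 2 ^ t) :
    lin (hr (1 : ℕ) (2 ^ t) l) (tab 1 t (wR t l.length) l.length 0) =
      2 ^ (t * (l.length - 1)) * hr (1 : ℕ) (1 + 2 * 2 ^ t) l := by
  rw [lin1 t l hl, hr_sum, Finset.mul_sum]
  refine Finset.sum_congr rfl fun i hi => ?_
  have hi' := Finset.mem_range.1 hi
  rw [wR_eq, one_pow, one_mul, Nat.cast_id]
  have : 2 ^ (t * (l.length - 1)) = 2 ^ (t * i) * 2 ^ (t * (l.length - 1 - i)) := by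
    rw [← pow_add, ← Nat.mul_add]
    congr 2
    omega
  rw [this]
  ring

theorem lin1_L (t : ℕ) (l : List ℕ) (hl : ∀ a ∈ l, a < 2 ^ t) :
    lin (hr (1 : ℕ) (2 ^ t) l) (tab 1 t (wL t l.length) l.length 0) =
      hr (2 ^ t + 2 : ℕ) (2 ^ t) l := by
  rw [lin1 t l hl, hr_sum]
  refine Finset.sum_congr rfl fun i hi => ?_
  rw [wL_eq, Nat.cast_id, pow_mul, add_comm (2 ^ t) 2]
  ring

theorem lin1_B (t : ℕ) (l : List ℕ) (hl : ∀ a ∈ l, a < 2 ^ t) :
    lin (hr (1 : ℕ) (2 ^ t) l) (tab 1 t (wB t l.length) l.length 0) =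
      hr (2 ^ t + 1 : ℕ) (2 ^ t) l := by
  rw [lin1 t l hl, hr_sum]
  refine Finset.sum_congr rfl fun i hi => ?_
  rw [wB_eq, Nat.cast_id, pow_mul, add_comm (2 ^ t) 1]
  ring

/-! ### Two-dimensional extraction -/

theorem hev2_nil {R : Type} [CommSemiring R] (u v w z : R) : hev2 [] u v w z = 0 := rfl

theorem hev2_cons {R : Type} [CommSemiring R] (u v w z : R) (r : List ℕ) (L : List (List ℕ)) :
    hev2 (r :: L) u v w z = hr u v r * w ^ L.length + z * hev2 L u v w z := rfl

/-- digits bound -/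
def Small (b : ℕ) (L : List (List ℕ)) : Prop := ∀ r ∈ L, ∀ a ∈ r, a < b

theorem linx (k n : ℕ) (W : ℕ → ℕ) (F : List ℕ → ℕ)
    (hF : ∀ r : List ℕ, r.length = n → (∀ a ∈ r, a < 2 ^ k) →
      lin (hr (1 : ℕ) (2 ^ k) r) (tab 1 k W n 0) = F r)
    (L : List (List ℕ)) (hL : Rect n L) (hs : Small (2 ^ k) L) :
    lin (hev2 L (1 : ℕ) (2 ^ k) 1 (2 ^ (k * n))) (tab (gs (2 ^ (k * n)) L.length) k W n 0) =
      hev F L (1 : ℕ) (2 ^ (k * n)) := by
  induction L with
  | nil =>
    rw [lin_tab, hev2_nil]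
    simp only [hev]
    refine Finset.sum_eq_zero fun i _ => ?_
    have : ∀ x, Nat.land 0 x = 0 := fun x => Nat.zero_and x
    rw [this, zero_mul]
  | cons r L ih =>
    have hr1 : r.length = n := hL r (by simp)
    have hr2 : ∀ a ∈ r, a < 2 ^ k := hs r (by simp)
    have ih' := ih (fun r' hr' => hL r' (by simp [hr'])) (fun r' hr' => hs r' (by simp [hr']))
    have h1 := hF r hr1 hr2
    rw [hev2_cons, one_pow, mul_one]
    simp only [hev, one_pow, mul_one]
    rw [← ih', ← h1]
    rw [lin_tab, lin_tab, lin_tab, Finset.mul_sum, ← Finset.sum_add_distrib]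
    refine Finset.sum_congr rfl fun i hi => ?_
    have hi' := Finset.mem_range.1 hi
    rw [zero_add, one_mul, List.length_cons, gs_succ]
    have e1 : (1 + 2 ^ (k * n) * gs (2 ^ (k * n)) L.length) * ((2 ^ k - 1) * 2 ^ (k * i)) =
      (2 ^ k - 1) * 2 ^ (k * i) +
        2 ^ (k * n) * (gs (2 ^ (k * n)) L.length * ((2 ^ k - 1) * 2 ^ (k * i))) := by ring
    have e2 : (2 ^ k - 1) * 2 ^ (k * i) < 2 ^ (k * n) := by
      have hk : 0 < 2 ^ k := by positivity
      have hki : 0 < 2 ^ (k * i) := by positivity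
      calc (2 ^ k - 1) * 2 ^ (k * i) < 2 ^ k * 2 ^ (k * i) :=
            Nat.mul_lt_mul_of_pos_right (by omega) hki
        _ = 2 ^ (k * (i + 1)) := by rw [Nat.mul_succ, pow_add]; ring
        _ ≤ 2 ^ (k * n) := Nat.pow_le_pow_right (by norm_num) (Nat.mul_le_mul_left _ hi')
    have e3 := hr_lt k r hr2
    rw [hr1] at e3
    rw [e1, land_add (k * n) _ _ _ _ e3 e2]
    ring

theorem hev_congr {α R : Type} [CommSemiring R] (φ ψ : α → R) (l : List α) (h : ∀ a ∈ l, φ a = ψ a)
    (u v : R) : hev φ l u v = hev ψ l u v := by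
  induction l with
  | nil => rfl
  | cons a l ih => simp only [hev]; rw [h a (by simp), ih fun b hb => h b (by simp [hb])]

theorem hev_mul {α R : Type} [CommSemiring R] (φ : α → R) (c : R) (l : List α)
    (u v : R) : hev (fun a => c * φ a) l u v = c * hev φ l u v := by
  induction l with
  | nil => simp [hev]
  | cons a l ih => simp only [hev]; rw [ih]; ring

theorem linx_R (k n : ℕ) (L : List (List ℕ)) (hL : Rect n L) (hs : Small (2 ^ k) L) :
    lin (hev2 L (1 : ℕ) (2 ^ k) 1 (2 ^ (k * n)))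
      (tab (gs (2 ^ (k * n)) L.length) k (wR k n) n 0) =
      2 ^ (k * (n - 1)) * hev2 L (1 : ℕ) (1 + 2 * 2 ^ k) 1 (2 ^ (k * n)) := by
  rw [linx k n _ (fun r => 2 ^ (k * (n - 1)) * hr (1 : ℕ) (1 + 2 * 2 ^ k) r) ?_ L hL hs,
    hev_mul]
  · rfl
  · intro r h1 h2
    have := lin1_R k r h2
    rw [h1] at this
    exact this

theorem linx_L (k n : ℕ) (L : List (List ℕ)) (hL : Rect n L) (hs : Small (2 ^ k) L) :
    lin (hev2 L (1 : ℕ) (2 ^ k) 1 (2 ^ (k * n)))
      (tab (gs (2 ^ (k * n)) L.length) k (wL k n) n 0) =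
      hev2 L (2 ^ k + 2 : ℕ) (2 ^ k) 1 (2 ^ (k * n)) := by
  rw [linx k n _ (fun r => hr (2 ^ k + 2 : ℕ) (2 ^ k) r) ?_ L hL hs]
  · rfl
  · intro r h1 h2
    have := lin1_L k r h2
    rw [h1] at this
    exact this

theorem linx_B (k n : ℕ) (L : List (List ℕ)) (hL : Rect n L) (hs : Small (2 ^ k) L) :
    lin (hev2 L (1 : ℕ) (2 ^ k) 1 (2 ^ (k * n)))
      (tab (gs (2 ^ (k * n)) L.length) k (wB k n) n 0) =
      hev2 L (2 ^ k + 1 : ℕ) (2 ^ k) 1 (2 ^ (k * n)) := by
  rw [linx k n _ (fun r => hr (2 ^ k + 1 : ℕ) (2 ^ k) r) ?_ L hL hs]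
  · rfl
  · intro r h1 h2
    have := lin1_B k r h2
    rw [h1] at this
    exact this

theorem hev2_map (L : List (List ℕ)) (b : ℕ) (w z : ℕ) :
    hr w z (L.map (hr (1 : ℕ) b)) = hev2 L (1 : ℕ) b w z := by
  induction L with
  | nil => rfl
  | cons r L ih =>
    rw [List.map_cons, hr_cons, hev2_cons, ih, List.length_map, Nat.cast_id]

theorem small_map (k n : ℕ) (L : List (List ℕ)) (hL : Rect n L) (hs : Small (2 ^ k) L) :
    ∀ a ∈ L.map (hr (1 : ℕ) (2 ^ k)), a < 2 ^ (k * n) := by
  intro a ha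
  obtain ⟨r, hr1, rfl⟩ := List.mem_map.1 ha
  have := hr_lt k r (hs r hr1)
  rwa [hL r hr1] at this

theorem liny_R (k n : ℕ) (L : List (List ℕ)) (hL : Rect n L) (hs : Small (2 ^ k) L) :
    lin (hev2 L (1 : ℕ) (2 ^ k) 1 (2 ^ (k * n)))
      (tab 1 (k * n) (wR (k * n) L.length) L.length 0) =
      2 ^ ((k * n) * (L.length - 1)) * hev2 L (1 : ℕ) (2 ^ k) 1 (1 + 2 * 2 ^ (k * n)) := by
  have h := lin1_R (k * n) (L.map (hr (1 : ℕ) (2 ^ k))) (small_map k n L hL hs)
  rw [List.length_map, hev2_map, hev2_map] at h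
  exact h

theorem liny_L (k n : ℕ) (L : List (List ℕ)) (hL : Rect n L) (hs : Small (2 ^ k) L) :
    lin (hev2 L (1 : ℕ) (2 ^ k) 1 (2 ^ (k * n)))
      (tab 1 (k * n) (wL (k * n) L.length) L.length 0) =
      hev2 L (1 : ℕ) (2 ^ k) (2 ^ (k * n) + 2) (2 ^ (k * n)) := by
  have h := lin1_L (k * n) (L.map (hr (1 : ℕ) (2 ^ k))) (small_map k n L hL hs)
  rw [List.length_map, hev2_map, hev2_map] at h
  exact h

theorem liny_B (k n : ℕ) (L : List (List ℕ)) (hL : Rect n L) (hs : Small (2 ^ k) L) :
    lin (hev2 L (1 : ℕ) (2 ^ k) 1 (2 ^ (k * n)))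
      (tab 1 (k * n) (wB (k * n) L.length) L.length 0) =
      hev2 L (1 : ℕ) (2 ^ k) (2 ^ (k * n) + 1) (2 ^ (k * n)) := by
  have h := lin1_B (k * n) (L.map (hr (1 : ℕ) (2 ^ k))) (small_map k n L hL hs)
  rw [List.length_map, hev2_map, hev2_map] at h
  exact h

/-! ### Size bounds -/

theorem hev_mono {α : Type} (φ ψ : α → ℕ) (c : ℕ) (l : List α) (h : ∀ a ∈ l, φ a ≤ c * ψ a)
    (u v : ℕ) : hev φ l u v ≤ c * hev ψ l u v := by
  induction l with
  | nil => simp [hev]
  | cons a l ih =>
    simp only [hev]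
    have h1 := h a (by simp)
    have h2 := ih fun b hb => h b (by simp [hb])
    calc φ a * u ^ l.length + v * hev φ l u v
        ≤ (c * ψ a) * u ^ l.length + v * (c * hev ψ l u v) :=
          Nat.add_le_add (Nat.mul_le_mul_right _ h1) (Nat.mul_le_mul_left _ h2)
      _ = c * (ψ a * u ^ l.length + v * hev ψ l u v) := by ring

theorem hev_grow {α : Type} (φ : α → ℕ) (l : List α) (c u v : ℕ) (hc : 1 ≤ c) (hu : u ≤ c)
    (hv : v ≤ c) : hev φ l u v ≤ c ^ (l.length - 1) * hev φ l 1 1 := by
  induction l with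
  | nil => simp [hev]
  | cons a l ih =>
    simp only [hev, one_pow, mul_one, one_mul, List.length_cons, Nat.add_sub_cancel]
    rcases eq_or_ne l [] with rfl | hl
    · simp [hev]
    · have hlen : 0 < l.length := List.length_pos_iff.2 hl
      have h1 : u ^ l.length ≤ c ^ l.length := Nat.pow_le_pow_left hu _
      have h2 : v * hev φ l u v ≤ c * (c ^ (l.length - 1) * hev φ l 1 1) := Nat.mul_le_mul hv ih
      have h3 : c * (c ^ (l.length - 1) * hev φ l 1 1) = c ^ l.length * hev φ l 1 1 := by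
        rw [← mul_assoc, ← pow_succ', Nat.sub_add_cancel hlen]
      rw [h3] at h2
      calc φ a * u ^ l.length + v * hev φ l u v
          ≤ φ a * c ^ l.length + c ^ l.length * hev φ l 1 1 :=
            Nat.add_le_add (Nat.mul_le_mul_left _ h1) h2
        _ = c ^ l.length * (φ a + hev φ l 1 1) := by ring

/-- total sum of the entries -/
abbrev tot (L : List (List ℕ)) : ℕ := hev2 L (1 : ℕ) 1 1 1

theorem entry_le_hr (r : List ℕ) (a : ℕ) (ha : a ∈ r) : a ≤ hr (1 : ℕ) 1 r := by
  induction r with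
  | nil => simp at ha
  | cons b r ih =>
    rw [hr_cons, one_pow, mul_one, one_mul, Nat.cast_id]
    rcases List.mem_cons.1 ha with rfl | h
    · exact Nat.le_add_right _ _
    · exact (ih h).trans (Nat.le_add_left _ _)

theorem entry_le_tot (L : List (List ℕ)) (r : List ℕ) (hr' : r ∈ L) (a : ℕ) (ha : a ∈ r) :
    a ≤ tot L := by
  induction L with
  | nil => simp at hr'
  | cons b L ih =>
    simp only [tot] at ih ⊢
    rw [hev2_cons, one_pow, mul_one, one_mul]
    rcases List.mem_cons.1 hr' with rfl | h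
    · exact (entry_le_hr _ a ha).trans (Nat.le_add_right _ _)
    · exact (ih h).trans (Nat.le_add_left _ _)

theorem small_of_tot (L : List (List ℕ)) (b : ℕ) (h : tot L < b) : Small b L := fun r hr a ha =>
  (entry_le_tot L r hr a ha).trans_lt h

theorem hev2_growx (n : ℕ) (L : List (List ℕ)) (hL : Rect n L) (c u v : ℕ) (hc : 1 ≤ c)
    (hu : u ≤ c) (hv : v ≤ c) : hev2 L u v 1 1 ≤ c ^ (n - 1) * tot L := by
  unfold tot hev2
  refine hev_mono _ _ _ L ?_ 1 1
  intro r hr'
  have := hev_grow (fun a : ℕ => (a : ℕ)) r c u v hc hu hv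
  rw [hL r hr'] at this
  exact this

theorem tot_xR (n : ℕ) (L : List (List ℕ)) (hL : Rect n L) : tot (xR L) ≤ 3 ^ (n - 1) * tot L := by
  rw [tot, hev2_xR]
  exact hev2_growx n L hL 3 _ _ (by norm_num) (by norm_num) (by norm_num)

theorem tot_xL (n : ℕ) (L : List (List ℕ)) (hL : Rect n L) : tot (xL L) ≤ 3 ^ (n - 1) * tot L := by
  rw [tot, hev2_xL]
  exact hev2_growx n L hL 3 _ _ (by norm_num) (by norm_num) (by norm_num)

theorem tot_xB (n : ℕ) (L : List (List ℕ)) (hL : Rect n L) : tot (xB L) ≤ 2 ^ (n - 1) * tot L := by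
  rw [tot, hev2_xB]
  exact hev2_growx n L hL 2 _ _ (by norm_num) (by norm_num) (by norm_num)

theorem tot_yR (n : ℕ) (L : List (List ℕ)) (hL : Rect n L) :
    tot (yR L) ≤ 3 ^ (L.length - 1) * tot L := by
  rw [tot, hev2_yR n L hL]
  exact hev_grow _ L 3 _ _ (by norm_num) (by norm_num) (by norm_num)

theorem tot_yL (n : ℕ) (L : List (List ℕ)) (hL : Rect n L) :
    tot (yL L) ≤ 3 ^ (L.length - 1) * tot L := by
  rw [tot, hev2_yL n L hL]
  exact hev_grow _ L 3 _ _ (by norm_num) (by norm_num) (by norm_num)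

theorem tot_yB (n : ℕ) (L : List (List ℕ)) (hL : Rect n L) :
    tot (yB L) ≤ 2 ^ (L.length - 1) * tot L := by
  rw [tot, hev2_yB n L hL]
  exact hev_grow _ L 2 _ _ (by norm_num) (by norm_num) (by norm_num)

/-! ### Packing -/

/-- `P` is the packed form of `L` -/
def Pk (k n m : ℕ) (L : List (List ℕ)) (P S : ℕ) : Prop :=
  Rect n L ∧ L.length = m ∧ P = hev2 L (1 : ℕ) (2 ^ k) 1 (2 ^ (k * n)) ∧ tot L ≤ S

noncomputable def opR (s : ℕ) (tb : List (ℕ × ℕ)) (P : ℕ) : ℕ := Nat.shiftRight (lin P tb) s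

theorem opR_eq (s : ℕ) (tb : List (ℕ × ℕ)) (P : ℕ) : opR s tb P = lin P tb / 2 ^ s :=
  Nat.shiftRight_eq_div_pow _ _

theorem pk_xR (k n m : ℕ) (L : List (List ℕ)) (P S : ℕ) (h : Pk k n m L P S) (hS : S < 2 ^ k) :
    Pk k n m (xR L) (opR (k * (n - 1)) (tab (gs (2 ^ (k * n)) m) k (wR k n) n 0) P)
      (3 ^ (n - 1) * S) := by
  obtain ⟨h1, h2, h3, h4⟩ := h
  refine ⟨rect_xR n L h1, (len_xR L).trans h2, ?_, (tot_xR n L h1).trans
    (Nat.mul_le_mul_left _ h4)⟩
  have hsm : Small (2 ^ k) L := small_of_tot L _ (h4.trans_lt hS)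
  have := linx_R k n L h1 hsm
  rw [h2] at this
  rw [opR_eq, h3, this, hev2_xR, Nat.mul_div_cancel_left _ (by positivity)]

theorem pk_xL (k n m : ℕ) (L : List (List ℕ)) (P S : ℕ) (h : Pk k n m L P S) (hS : S < 2 ^ k) :
    Pk k n m (xL L) (lin P (tab (gs (2 ^ (k * n)) m) k (wL k n) n 0))
      (3 ^ (n - 1) * S) := by
  obtain ⟨h1, h2, h3, h4⟩ := h
  refine ⟨rect_xL n L h1, (len_xL L).trans h2, ?_, (tot_xL n L h1).trans
    (Nat.mul_le_mul_left _ h4)⟩
  have hsm : Small (2 ^ k) L := small_of_tot L _ (h4.trans_lt hS)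
  have := linx_L k n L h1 hsm
  rw [h2] at this
  rw [h3, this, hev2_xL, mul_one]

theorem pk_xB (k n m : ℕ) (L : List (List ℕ)) (P S : ℕ) (h : Pk k n m L P S) (hS : S < 2 ^ k) :
    Pk k n m (xB L) (lin P (tab (gs (2 ^ (k * n)) m) k (wB k n) n 0))
      (2 ^ (n - 1) * S) := by
  obtain ⟨h1, h2, h3, h4⟩ := h
  refine ⟨rect_xB n L h1, (len_xB L).trans h2, ?_, (tot_xB n L h1).trans
    (Nat.mul_le_mul_left _ h4)⟩
  have hsm : Small (2 ^ k) L := small_of_tot L _ (h4.trans_lt hS)
  have := linx_B k n L h1 hsm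
  rw [h2] at this
  rw [h3, this, hev2_xB]

theorem pk_yR (k n m : ℕ) (L : List (List ℕ)) (P S : ℕ) (h : Pk k n m L P S) (hS : S < 2 ^ k) :
    Pk k n m (yR L) (opR ((k * n) * (m - 1)) (tab 1 (k * n) (wR (k * n) m) m 0) P)
      (3 ^ (m - 1) * S) := by
  obtain ⟨h1, h2, h3, h4⟩ := h
  refine ⟨rect_yR n L h1, (len_yR L).trans h2, ?_, ?_⟩
  · have hsm : Small (2 ^ k) L := small_of_tot L _ (h4.trans_lt hS)
    have := liny_R k n L h1 hsm
    rw [h2] at this
    rw [opR_eq, h3, this, hev2_yR n L h1, Nat.mul_div_cancel_left _ (by positivity)]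
  · have := tot_yR n L h1
    rw [h2] at this
    exact this.trans (Nat.mul_le_mul_left _ h4)

theorem pk_yL (k n m : ℕ) (L : List (List ℕ)) (P S : ℕ) (h : Pk k n m L P S) (hS : S < 2 ^ k) :
    Pk k n m (yL L) (lin P (tab 1 (k * n) (wL (k * n) m) m 0))
      (3 ^ (m - 1) * S) := by
  obtain ⟨h1, h2, h3, h4⟩ := h
  refine ⟨rect_yL n L h1, (len_yL L).trans h2, ?_, ?_⟩
  · have hsm : Small (2 ^ k) L := small_of_tot L _ (h4.trans_lt hS)
    have := liny_L k n L h1 hsm
    rw [h2] at this
    rw [h3, this, hev2_yL n L h1, mul_one]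
  · have := tot_yL n L h1
    rw [h2] at this
    exact this.trans (Nat.mul_le_mul_left _ h4)

theorem pk_yB (k n m : ℕ) (L : List (List ℕ)) (P S : ℕ) (h : Pk k n m L P S) (hS : S < 2 ^ k) :
    Pk k n m (yB L) (lin P (tab 1 (k * n) (wB (k * n) m) m 0))
      (2 ^ (m - 1) * S) := by
  obtain ⟨h1, h2, h3, h4⟩ := h
  refine ⟨rect_yB n L h1, (len_yB L).trans h2, ?_, ?_⟩
  · have hsm : Small (2 ^ k) L := small_of_tot L _ (h4.trans_lt hS)
    have := liny_B k n L h1 hsm
    rw [h2] at this
    rw [h3, this, hev2_yB n L h1]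
  · have := tot_yB n L h1
    rw [h2] at this
    exact this.trans (Nat.mul_le_mul_left _ h4)

/-! ### The leaf test -/

/-- strict / non-strict comparison of all digits -/
noncomputable def lt (hb U0 H P N S : ℕ) : Bool :=
  Bool.rec (motive := fun _ => Bool) false
    (Nat.beq (Nat.land (Nat.sub (Nat.add P H) (Nat.add N U0)) H) H) (Nat.blt S hb)

theorem lt_spec (hb U0 H P N S : ℕ) (h : lt hb U0 H P N S = true) :
    S < hb ∧ Nat.land (P + H - (N + U0)) H = H := by
  unfold lt at h
  rcases hb' : Nat.blt S hb with _ | _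
  · rw [hb'] at h; exact absurd h (by simp)
  · rw [hb'] at h
    refine ⟨by simpa [Nat.blt_eq] using hb', ?_⟩
    exact Nat.eq_of_beq_eq_true h

/-- flattened evaluation -/
theorem hr_append (b : ℕ) (l m : List ℕ) :
    hr (1 : ℕ) b (l ++ m) = hr (1 : ℕ) b l + b ^ l.length * hr (1 : ℕ) b m := by
  simp only [hr]
  rw [hev_append]
  simp

theorem hev2_flatten (b n : ℕ) (L : List (List ℕ)) (hL : Rect n L) :
    hr (1 : ℕ) b L.flatten = hev2 L (1 : ℕ) b 1 (b ^ n) := by
  induction L with
  | nil => rfl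
  | cons r L ih =>
    have h1 : r.length = n := hL r (by simp)
    rw [List.flatten_cons, hr_append, ih (fun r' hr' => hL r' (by simp [hr'])), hev2_cons, h1]
    simp

theorem leaf1 (k : ℕ) (e : ℕ) (he : e ≤ 1) (p n : List ℕ) (hlen : p.length = n.length)
    (hp : ∀ a ∈ p, a < 2 ^ k) (hn : ∀ a ∈ n, a < 2 ^ k) (Z : ℕ)
    (hZ : Z + (hr (1 : ℕ) (2 ^ (k + 1)) n + e * gs (2 ^ (k + 1)) p.length) =
      hr (1 : ℕ) (2 ^ (k + 1)) p + 2 ^ k * gs (2 ^ (k + 1)) p.length)
    (hland : Nat.land Z (2 ^ k * gs (2 ^ (k + 1)) p.length) =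
      2 ^ k * gs (2 ^ (k + 1)) p.length) :
    List.Forall₂ (fun b a => b + e ≤ a) n p := by
  induction p generalizing n Z with
  | nil =>
    cases n with
    | nil => exact List.Forall₂.nil
    | cons b n => simp at hlen
  | cons a p ih =>
    cases n with
    | nil => simp at hlen
    | cons b n =>
      have ha := hp a (by simp)
      have hb := hn b (by simp)
      have hlen' : p.length = n.length := by simpa using hlen
      rw [hr_cons, hr_cons, List.length_cons, gs_succ, one_pow, mul_one, one_pow, mul_one,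
        Nat.cast_id, Nat.cast_id] at hZ
      rw [List.length_cons, gs_succ] at hland
      -- existence of the higher part
      have key : ∀ (p n : List ℕ), p.length = n.length → (∀ a ∈ p, a < 2 ^ k) →
          (∀ a ∈ n, a < 2 ^ k) → hr (1 : ℕ) (2 ^ (k + 1)) n + e * gs (2 ^ (k + 1)) p.length ≤
            hr (1 : ℕ) (2 ^ (k + 1)) p + 2 ^ k * gs (2 ^ (k + 1)) p.length := by
        intro p
        induction p with
        | nil =>
          intro n hl _ _
          have : n = [] := List.length_eq_zero_iff.1 (by simpa using hl.symm)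
          subst this
          simp [hr_nil, gs_zero]
        | cons a p ihp =>
          intro n hl h1 h2
          cases n with
          | nil => simp at hl
          | cons b n =>
            have := ihp n (by simpa using hl) (fun c hc => h1 c (by simp [hc]))
              (fun c hc => h2 c (by simp [hc]))
            have hb := h2 b (by simp)
            rw [hr_cons, hr_cons, List.length_cons, gs_succ, one_pow, mul_one, one_pow, mul_one,
              Nat.cast_id, Nat.cast_id]
            have h3 := Nat.mul_le_mul_left (2 ^ (k + 1)) this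
            nlinarith
      obtain ⟨Z', hZ'⟩ := Nat.exists_eq_add_of_le (key p n hlen'
        (fun c hc => hp c (by simp [hc])) (fun c hc => hn c (by simp [hc])))
      -- the low digit
      have hz0 : b + e ≤ a + 2 ^ k := by omega
      obtain ⟨z0, hz0'⟩ := Nat.exists_eq_add_of_le hz0
      have hz0lt : z0 < 2 ^ (k + 1) := by rw [pow_succ]; omega
      have hk : 2 ^ k < 2 ^ (k + 1) := by rw [pow_succ]; have : 0 < 2 ^ k := by positivity
                                          omega
      have hZeq : Z = z0 + 2 ^ (k + 1) * Z' := by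
        have h5 : 2 ^ (k + 1) * (hr (1 : ℕ) (2 ^ (k + 1)) p + 2 ^ k * gs (2 ^ (k + 1)) p.length) =
          2 ^ (k + 1) * (hr (1 : ℕ) (2 ^ (k + 1)) n + e * gs (2 ^ (k + 1)) p.length + Z') := by
          rw [hZ']
        nlinarith
      rw [hZeq, show 2 ^ k * (1 + 2 ^ (k + 1) * gs (2 ^ (k + 1)) p.length) =
        2 ^ k + 2 ^ (k + 1) * (2 ^ k * gs (2 ^ (k + 1)) p.length) by ring,
        land_add _ _ _ _ _ hz0lt hk] at hland
      have hA : Nat.land z0 (2 ^ k) ≤ 2 ^ k := Nat.and_le_right
      have hA' : Nat.land z0 (2 ^ k) ≤ z0 := Nat.and_le_left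
      have hB : Nat.land z0 (2 ^ k) = 2 ^ k ∧
          Nat.land Z' (2 ^ k * gs (2 ^ (k + 1)) p.length) = 2 ^ k * gs (2 ^ (k + 1)) p.length := by
        have h6 : (Nat.land z0 (2 ^ k) + 2 ^ (k + 1) *
            Nat.land Z' (2 ^ k * gs (2 ^ (k + 1)) p.length)) % 2 ^ (k + 1) =
            (2 ^ k + 2 ^ (k + 1) * (2 ^ k * gs (2 ^ (k + 1)) p.length)) % 2 ^ (k + 1) := by
          rw [hland]
        rw [Nat.add_mul_mod_self_left, Nat.add_mul_mod_self_left, Nat.mod_eq_of_lt (by omega),
          Nat.mod_eq_of_lt hk] at h6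
        refine ⟨h6, ?_⟩
        rw [h6] at hland
        have h7 := Nat.add_left_cancel hland
        exact Nat.eq_of_mul_eq_mul_left (by positivity) h7
      have hge : 2 ^ k ≤ z0 := by rw [hB.1] at hA'; exact hA'
      refine List.Forall₂.cons (by omega) (ih n hlen' (fun c hc => hp c (by simp [hc]))
        (fun c hc => hn c (by simp [hc])) Z' ?_ hB.2)
      rw [hZ']; ring

theorem forall₂_split (n : ℕ) (Rl : ℕ → ℕ → Prop) (A C : List (List ℕ)) (hA : Rect n A)
    (hC : Rect n C) (hlen : A.length = C.length) (h : List.Forall₂ Rl A.flatten C.flatten) :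
    List.Forall₂ (List.Forall₂ Rl) A C := by
  induction A generalizing C with
  | nil =>
    have : C = [] := List.length_eq_zero_iff.1 (by simpa using hlen.symm)
    subst this
    exact List.Forall₂.nil
  | cons a A ih =>
    cases C with
    | nil => simp at hlen
    | cons c C =>
      rw [List.flatten_cons, List.flatten_cons] at h
      have ha : a.length = n := hA a (by simp)
      have hc : c.length = n := hC c (by simp)
      have h1 := List.forall₂_take_append _ _ _ h
      have h2 := List.forall₂_drop_append _ _ _ h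
      rw [hc, ← ha, List.take_left] at h1
      rw [hc, ← ha, List.drop_left] at h2
      exact List.Forall₂.cons h1 (ih C (fun r hr => hA r (by simp [hr]))
        (fun r hr => hC r (by simp [hr])) (by simpa using hlen) h2)

theorem hev_le2 {α : Type} (φ : α → ℝ) (l m : List α) (h : List.Forall₂ (fun b a => φ b ≤ φ a) l m)
    (u v : ℝ) (hu : 0 ≤ u) (hv : 0 ≤ v) : hev φ l u v ≤ hev φ m u v := by
  induction h with
  | nil => exact le_rfl
  | cons h1 h2 ih =>
    simp only [hev]
    rw [h2.length_eq]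
    have := pow_nonneg hu
    exact add_le_add (mul_le_mul_of_nonneg_right h1 (this _)) (mul_le_mul_of_nonneg_left ih hv)

theorem hev_lt2 {α : Type} (φ : α → ℝ) (l m : List α) (h : List.Forall₂ (fun b a => φ b < φ a) l m)
    (hne : l ≠ []) (u v : ℝ) (hu : 0 ≤ u) (hv : 0 ≤ v) (huv : 0 < u + v) :
    hev φ l u v < hev φ m u v := by
  induction h with
  | nil => exact absurd rfl hne
  | @cons b a l m h1 h2 ih =>
    simp only [hev]
    rw [h2.length_eq]
    rcases eq_or_ne l [] with rfl | hl0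
    · have : m = [] := List.length_eq_zero_iff.1 (by simpa using h2.length_eq.symm)
      subst this
      simpa [hev] using h1
    · have h := ih hl0
      rcases hv.eq_or_lt with rfl | hv'
      · have hu' : 0 < u := by linarith
        have : φ b * u ^ m.length < φ a * u ^ m.length :=
          mul_lt_mul_of_pos_right h1 (by positivity)
        simpa using this
      · have h3 : φ b * u ^ m.length ≤ φ a * u ^ m.length :=
          mul_le_mul_of_nonneg_right h1.le (by positivity)
        have h4 := mul_lt_mul_of_pos_left h hv'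
        linarith

/-- the semantic comparison on the closed quadrants; strict if `e = 1` -/
def Cmp (e : ℕ) (Ln Lp : List (List ℕ)) : Prop :=
  ∀ u v w z : ℝ, 0 ≤ u → 0 ≤ v → 0 ≤ w → 0 ≤ z → 0 < u + v → 0 < w + z →
    hev2 Ln u v w z ≤ hev2 Lp u v w z ∧ (e = 1 → hev2 Ln u v w z < hev2 Lp u v w z)

theorem cmp_leaf (e n m : ℕ) (hn : n ≠ 0) (hm : m ≠ 0) (Ln Lp : List (List ℕ)) (h1 : Rect n Ln)
    (h2 : Rect n Lp) (h3 : Ln.length = m) (h4 : Lp.length = m)
    (h : List.Forall₂ (fun b a => b + e ≤ a) Ln.flatten Lp.flatten) : Cmp e Ln Lp := by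
  have h5 := forall₂_split n _ Ln Lp h1 h2 (h3.trans h4.symm) h
  intro u v w z hu hv hw hz huv hwz
  have hne : Ln ≠ [] := by
    intro h0; rw [h0] at h3; exact hm (by simpa using h3.symm)
  constructor
  · refine hev_le2 _ _ _ ?_ w z hw hz
    refine h5.imp ?_
    intro b a hab
    refine hev_le2 _ _ _ ?_ u v hu hv
    refine hab.imp ?_
    intro x y hxy
    have : x ≤ y := by omega
    exact_mod_cast this
  · rintro rfl
    refine hev_lt2 _ _ _ ?_ hne w z hw hz hwz
    have h6 : List.Forall₂ (fun b a => b.length = n ∧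
        List.Forall₂ (fun b a => b + 1 ≤ a) b a) Ln Lp := by
      clear hne h3 h4 h
      induction h5 with
      | nil => exact List.Forall₂.nil
      | cons h7 h8 ih =>
        exact List.Forall₂.cons ⟨h1 _ (by simp), h7⟩ (ih (fun r hr => h1 r (by simp [hr]))
          (fun r hr => h2 r (by simp [hr])))
    refine h6.imp ?_
    rintro b a ⟨hb, hab⟩
    refine hev_lt2 _ _ _ ?_ ?_ u v hu hv huv
    · refine hab.imp ?_
      intro x y hxy
      have : x < y := by omega
      exact_mod_cast this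
    · intro h0; rw [h0] at hb; exact hn (by simpa using hb.symm)

theorem cmp_x (e : ℕ) (Ln Lp : List (List ℕ)) (h1 : Cmp e (xL Ln) (xL Lp))
    (h2 : Cmp e (xR Ln) (xR Lp)) : Cmp e Ln Lp := by
  intro u v w z hu hv hw hz huv hwz
  rcases le_total v u with h | h
  · have := h1 ((u - v) / 2) v w z (by linarith) hv hw hz (by linarith) hwz
    rw [hev2_xL, hev2_xL] at this
    have e' : v + 2 * ((u - v) / 2) = u := by ring
    rwa [e'] at this
  · have := h2 u ((v - u) / 2) w z hu (by linarith) hw hz (by linarith) hwz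
    rw [hev2_xR, hev2_xR] at this
    have e' : u + 2 * ((v - u) / 2) = v := by ring
    rwa [e'] at this

theorem cmp_y (e n : ℕ) (Ln Lp : List (List ℕ)) (hN : Rect n Ln) (hP : Rect n Lp)
    (h1 : Cmp e (yL Ln) (yL Lp)) (h2 : Cmp e (yR Ln) (yR Lp)) : Cmp e Ln Lp := by
  intro u v w z hu hv hw hz huv hwz
  rcases le_total z w with h | h
  · have := h1 u v ((w - z) / 2) z hu hv (by linarith) hz huv (by linarith)
    rw [hev2_yL n _ hN, hev2_yL n _ hP] at this
    have e' : z + 2 * ((w - z) / 2) = w := by ring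
    rwa [e'] at this
  · have := h2 u v w ((z - w) / 2) hu hv hw (by linarith) huv (by linarith)
    rw [hev2_yR n _ hN, hev2_yR n _ hP] at this
    have e' : w + 2 * ((z - w) / 2) = z := by ring
    rwa [e'] at this

theorem cmp_xB (e : ℕ) (Ln Lp : List (List ℕ)) (h1 : Cmp e (xB Ln) (xB Lp)) (u v w z : ℝ)
    (hv : 0 ≤ v) (hw : 0 ≤ w) (hz : 0 ≤ z) (hvu : v ≤ u) (hu : 0 < u) (hwz : 0 < w + z) :
    hev2 Ln u v w z ≤ hev2 Lp u v w z ∧ (e = 1 → hev2 Ln u v w z < hev2 Lp u v w z) := by
  have := h1 (u - v) v w z (by linarith) hv hw hz (by linarith) hwz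
  rw [hev2_xB, hev2_xB, add_sub_cancel] at this
  exact this

theorem lt_cmp (k e n m : ℕ) (he : e ≤ 1) (hn : n ≠ 0) (hm : m ≠ 0) (Ln Lp : List (List ℕ))
    (P N S : ℕ) (hP : Pk (k + 1) n m Lp P S) (hN : Pk (k + 1) n m Ln N S)
    (h : lt (2 ^ k) (e * gs (2 ^ (k + 1)) (m * n)) (2 ^ k * gs (2 ^ (k + 1)) (m * n)) P N S = true) :
    Cmp e Ln Lp := by
  obtain ⟨h1, h2⟩ := lt_spec _ _ _ _ _ _ h
  obtain ⟨hP1, hP2, hP3, hP4⟩ := hP
  obtain ⟨hN1, hN2, hN3, hN4⟩ := hN
  have hPf : P = hr (1 : ℕ) (2 ^ (k + 1)) Lp.flatten := by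
    rw [hP3, hev2_flatten _ n Lp hP1, ← pow_mul]
  have hNf : N = hr (1 : ℕ) (2 ^ (k + 1)) Ln.flatten := by
    rw [hN3, hev2_flatten _ n Ln hN1, ← pow_mul]
  have hlen : ∀ L : List (List ℕ), Rect n L → L.length = m → L.flatten.length = m * n := by
    intro L hL hm'
    rw [List.length_flatten, List.map_congr_left (g := fun _ => n) (fun r hr => hL r hr)]
    simp [hm']
  have hsP : ∀ a ∈ Lp.flatten, a < 2 ^ k := by
    intro a ha
    obtain ⟨r, hr1, hr2⟩ := List.mem_flatten.1 ha
    exact small_of_tot Lp _ (hP4.trans_lt h1) r hr1 a hr2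
  have hsN : ∀ a ∈ Ln.flatten, a < 2 ^ k := by
    intro a ha
    obtain ⟨r, hr1, hr2⟩ := List.mem_flatten.1 ha
    exact small_of_tot Ln _ (hN4.trans_lt h1) r hr1 a hr2
  refine cmp_leaf e n m hn hm Ln Lp hN1 hP1 hN2 hP2 ?_
  have hlP := hlen Lp hP1 hP2
  have hlN := hlen Ln hN1 hN2
  refine leaf1 k e he Lp.flatten Ln.flatten (hlP.trans hlN.symm) hsP hsN
    (P + 2 ^ k * gs (2 ^ (k + 1)) (m * n) - (N + e * gs (2 ^ (k + 1)) (m * n))) ?_ ?_
  · rw [hlP, ← hPf, ← hNf]
    refine Nat.sub_add_cancel ?_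
    -- N + e U ≤ P + H
    have key : ∀ (p q : List ℕ), p.length = q.length → (∀ a ∈ q, a < 2 ^ k) →
        hr (1 : ℕ) (2 ^ (k + 1)) q + e * gs (2 ^ (k + 1)) p.length ≤
          hr (1 : ℕ) (2 ^ (k + 1)) p + 2 ^ k * gs (2 ^ (k + 1)) p.length := by
      intro p
      induction p with
      | nil =>
        intro q hl _
        have : q = [] := List.length_eq_zero_iff.1 (by simpa using hl.symm)
        subst this
        simp [hr_nil, gs_zero]
      | cons a p ihp =>
        intro q hl h2
        cases q with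
        | nil => simp at hl
        | cons b q =>
          have := ihp q (by simpa using hl) (fun c hc => h2 c (by simp [hc]))
          have hb := h2 b (by simp)
          rw [hr_cons, hr_cons, List.length_cons, gs_succ, one_pow, mul_one, one_pow, mul_one,
            Nat.cast_id, Nat.cast_id]
          have h3 := Nat.mul_le_mul_left (2 ^ (k + 1)) this
          nlinarith
    have := key Lp.flatten Ln.flatten (hlP.trans hlN.symm) hsN
    rw [hlP, ← hPf, ← hNf] at this
    exact this
  · rw [hlP]; exact h2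

/-! ### Trees and automatic bisection -/

/-- subdivision trees -/
inductive Tr : Type
  | leaf : Tr
  | sx : Tr → Tr → Tr
  | sy : Tr → Tr → Tr

/-- lazy conjunction by the recursor -/
noncomputable def andb (a b : Bool) : Bool := Bool.rec (motive := fun _ => Bool) false b a

theorem andb_spec (a b : Bool) (h : andb a b = true) : a = true ∧ b = true := by
  cases a with
  | false => exact absurd h (by simp [andb])
  | true => exact ⟨rfl, h⟩

noncomputable def auto (hb U0 H sx sy ax ay : ℕ) (tl tr tl' tr' : List (ℕ × ℕ)) (f : ℕ) :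
    Bool → ℕ → ℕ → ℕ → Bool :=
  Nat.rec (motive := fun _ => Bool → ℕ → ℕ → ℕ → Bool)
    (fun _ P N S => lt hb U0 H P N S)
    (fun _ ih d P N S =>
      Bool.rec (motive := fun _ => Bool)
        (andb (Nat.blt S hb)
          (Bool.rec (motive := fun _ => Bool)
            (andb (ih true (lin P tl') (lin N tl') (Nat.mul ay S))
              (ih true (opR sy tr' P) (opR sy tr' N) (Nat.mul ay S)))
            (andb (ih false (lin P tl) (lin N tl) (Nat.mul ax S))
              (ih false (opR sx tr P) (opR sx tr N) (Nat.mul ax S))) d))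
        true (lt hb U0 H P N S)) f

theorem auto_succ (hb U0 H sx sy ax ay : ℕ) (tl tr tl' tr' : List (ℕ × ℕ)) (f : ℕ) (d : Bool)
    (P N S : ℕ) : auto hb U0 H sx sy ax ay tl tr tl' tr' (f + 1) d P N S =
      Bool.rec (motive := fun _ => Bool)
        (andb (Nat.blt S hb)
          (Bool.rec (motive := fun _ => Bool)
            (andb (auto hb U0 H sx sy ax ay tl tr tl' tr' f true (lin P tl') (lin N tl') (ay * S))
              (auto hb U0 H sx sy ax ay tl tr tl' tr' f true (opR sy tr' P) (opR sy tr' N)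
                (ay * S)))
            (andb (auto hb U0 H sx sy ax ay tl tr tl' tr' f false (lin P tl) (lin N tl) (ax * S))
              (auto hb U0 H sx sy ax ay tl tr tl' tr' f false (opR sx tr P) (opR sx tr N)
                (ax * S))) d))
        true (lt hb U0 H P N S) := rfl

noncomputable def chk (hb U0 H sx sy ax ay : ℕ) (tl tr tl' tr' : List (ℕ × ℕ)) (t : Tr) :
    ℕ → ℕ → ℕ → Bool :=
  Tr.rec (motive := fun _ => ℕ → ℕ → ℕ → Bool)
    (fun P N S => lt hb U0 H P N S)
    (fun _ _ iha ihb P N S => andb (Nat.blt S hb)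
      (andb (iha (lin P tl) (lin N tl) (Nat.mul ax S))
        (ihb (opR sx tr P) (opR sx tr N) (Nat.mul ax S))))
    (fun _ _ iha ihb P N S => andb (Nat.blt S hb)
      (andb (iha (lin P tl') (lin N tl') (Nat.mul ay S))
        (ihb (opR sy tr' P) (opR sy tr' N) (Nat.mul ay S)))) t

section sound
variable (k e n m : ℕ) (he : e ≤ 1) (hn : n ≠ 0) (hm : m ≠ 0)
include he hn hm

theorem auto_cmp (f : ℕ) (d : Bool) (Ln Lp : List (List ℕ)) (P N S : ℕ)
    (hP : Pk (k + 1) n m Lp P S) (hN : Pk (k + 1) n m Ln N S)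
    (h : auto (2 ^ k) (e * gs (2 ^ (k + 1)) (m * n)) (2 ^ k * gs (2 ^ (k + 1)) (m * n))
      ((k + 1) * (n - 1)) (((k + 1) * n) * (m - 1)) (3 ^ (n - 1)) (3 ^ (m - 1))
      (tab (gs (2 ^ ((k + 1) * n)) m) (k + 1) (wL (k + 1) n) n 0)
      (tab (gs (2 ^ ((k + 1) * n)) m) (k + 1) (wR (k + 1) n) n 0)
      (tab 1 ((k + 1) * n) (wL ((k + 1) * n) m) m 0)
      (tab 1 ((k + 1) * n) (wR ((k + 1) * n) m) m 0) f d P N S = true) : Cmp e Ln Lp := by
  induction f generalizing d Ln Lp P N S with
  | zero => exact lt_cmp k e n m he hn hm Ln Lp P N S hP hN h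
  | succ f ih =>
    rw [auto_succ] at h
    rcases hl : lt (2 ^ k) (e * gs (2 ^ (k + 1)) (m * n)) (2 ^ k * gs (2 ^ (k + 1)) (m * n)) P N S
      with _ | _
    · rw [hl] at h
      obtain ⟨hS, h⟩ := andb_spec _ _ h
      have hS' : S < 2 ^ (k + 1) := by
        have : S < 2 ^ k := by simpa [Nat.blt_eq] using hS
        rw [pow_succ]; omega
      cases d with
      | true =>
        obtain ⟨ha, hb⟩ := andb_spec _ _ h
        exact cmp_x e Ln Lp
          (ih _ _ _ _ _ _ (pk_xL _ n m _ _ _ hP hS') (pk_xL _ n m _ _ _ hN hS') ha)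
          (ih _ _ _ _ _ _ (pk_xR _ n m _ _ _ hP hS') (pk_xR _ n m _ _ _ hN hS') hb)
      | false =>
        obtain ⟨ha, hb⟩ := andb_spec _ _ h
        exact cmp_y e n Ln Lp hN.1 hP.1
          (ih _ _ _ _ _ _ (pk_yL _ n m _ _ _ hP hS') (pk_yL _ n m _ _ _ hN hS') ha)
          (ih _ _ _ _ _ _ (pk_yR _ n m _ _ _ hP hS') (pk_yR _ n m _ _ _ hN hS') hb)
    · exact lt_cmp k e n m he hn hm Ln Lp P N S hP hN hl

theorem chk_cmp (t : Tr) (Ln Lp : List (List ℕ)) (P N S : ℕ)
    (hP : Pk (k + 1) n m Lp P S) (hN : Pk (k + 1) n m Ln N S)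
    (h : chk (2 ^ k) (e * gs (2 ^ (k + 1)) (m * n)) (2 ^ k * gs (2 ^ (k + 1)) (m * n))
      ((k + 1) * (n - 1)) (((k + 1) * n) * (m - 1)) (3 ^ (n - 1)) (3 ^ (m - 1))
      (tab (gs (2 ^ ((k + 1) * n)) m) (k + 1) (wL (k + 1) n) n 0)
      (tab (gs (2 ^ ((k + 1) * n)) m) (k + 1) (wR (k + 1) n) n 0)
      (tab 1 ((k + 1) * n) (wL ((k + 1) * n) m) m 0)
      (tab 1 ((k + 1) * n) (wR ((k + 1) * n) m) m 0) t P N S = true) : Cmp e Ln Lp := by
  induction t generalizing Ln Lp P N S with
  | leaf => exact lt_cmp k e n m he hn hm Ln Lp P N S hP hN h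
  | sx a b iha ihb =>
    obtain ⟨hS, h⟩ := andb_spec _ _ h
    have hS' : S < 2 ^ (k + 1) := by
      have : S < 2 ^ k := by simpa [Nat.blt_eq] using hS
      rw [pow_succ]; omega
    obtain ⟨ha, hb⟩ := andb_spec _ _ h
    exact cmp_x e Ln Lp
      (iha _ _ _ _ _ (pk_xL _ n m _ _ _ hP hS') (pk_xL _ n m _ _ _ hN hS') ha)
      (ihb _ _ _ _ _ (pk_xR _ n m _ _ _ hP hS') (pk_xR _ n m _ _ _ hN hS') hb)
  | sy a b iha ihb =>
    obtain ⟨hS, h⟩ := andb_spec _ _ h
    have hS' : S < 2 ^ (k + 1) := by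
      have : S < 2 ^ k := by simpa [Nat.blt_eq] using hS
      rw [pow_succ]; omega
    obtain ⟨ha, hb⟩ := andb_spec _ _ h
    exact cmp_y e n Ln Lp hN.1 hP.1
      (iha _ _ _ _ _ (pk_yL _ n m _ _ _ hP hS') (pk_yL _ n m _ _ _ hN hS') ha)
      (ihb _ _ _ _ _ (pk_yR _ n m _ _ _ hP hS') (pk_yR _ n m _ _ _ hN hS') hb)

end sound

end AF06.PB
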