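import Pool.Agent.Lib.MP_af06f6_co.Tools.Bern
import Pool.Agent.Lib.MP_af06f6_co.Tools.PBern

/-!
# User interface of the packed positivity checker

For `e : Bern.PE` (polynomial expression in `x`, `y` with rational constants):

* `kpos e xa xb xd ya yb yd f = true` (by `decide +kernel`) implies `0 < e.eval x y` on the closed
  rectangle `[xa/xd, xb/xd] × [ya/yd, yb/yd]`  (`pos_of_kpos`); automatic bisection to depth `f`;
* `knn ...` is the non-strict version (`nonneg_of_knn`);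
* `kposT e ... t`, `knnT e ... t` with an explicit subdivision tree `t : Tr`.
-/

set_option linter.unusedVariables false

namespace AF06.PB

open AF06.Bern (PE)

/-! ### Power basis lists over `ℕ` -/

section ev
variable {R : Type} [CommSemiring R]

def ev : List ℕ → R → R
  | [], _ => 0
  | a :: l, s => a + s * ev l s

def ev2 : List (List ℕ) → R → R → R
  | [], _, _ => 0
  | r :: L, s, t => ev r s + t * ev2 L s t

end ev

def padd : List ℕ → List ℕ → List ℕ
  | [], m => m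
  | a :: l, [] => a :: l
  | a :: l, b :: m => (a + b) :: padd l m

def pmul : List ℕ → List ℕ → List ℕ
  | [], _ => []
  | a :: l, m => padd (rmul a m) (0 :: pmul l m)

def padd2 : List (List ℕ) → List (List ℕ) → List (List ℕ)
  | [], m => m
  | a :: l, [] => a :: l
  | a :: l, b :: m => padd a b :: padd2 l m

def smul2 (a : List ℕ) : List (List ℕ) → List (List ℕ)
  | [] => []
  | b :: m => pmul a b :: smul2 a m

def pmul2 : List (List ℕ) → List (List ℕ) → List (List ℕ)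
  | [], _ => []
  | a :: l, m => padd2 (smul2 a m) ([] :: pmul2 l m)

section ev
variable {R : Type} [CommSemiring R]

theorem ev_rmul (k : ℕ) (l : List ℕ) (s : R) : ev (rmul k l) s = k * ev l s := by
  induction l with
  | nil => simp [rmul, ev]
  | cons a l ih => simp only [rmul, ev, ih]; push_cast; ring

theorem ev_padd (l m : List ℕ) (s : R) : ev (padd l m) s = ev l s + ev m s := by
  induction l generalizing m with
  | nil => simp [padd, ev]
  | cons a l ih =>
    cases m with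
    | nil => simp [padd, ev]
    | cons b m => simp only [padd, ev, ih]; push_cast; ring

theorem ev_pmul (l m : List ℕ) (s : R) : ev (pmul l m) s = ev l s * ev m s := by
  induction l with
  | nil => simp [pmul, ev]
  | cons a l ih => simp only [pmul, ev_padd, ev_rmul, ev, ih]; push_cast; ring

theorem ev2_padd2 (l m : List (List ℕ)) (s t : R) :
    ev2 (padd2 l m) s t = ev2 l s t + ev2 m s t := by
  induction l generalizing m with
  | nil => simp [padd2, ev2]
  | cons a l ih =>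
    cases m with
    | nil => simp [padd2, ev2]
    | cons b m => simp only [padd2, ev2, ih, ev_padd]; ring

theorem ev2_smul2 (a : List ℕ) (m : List (List ℕ)) (s t : R) :
    ev2 (smul2 a m) s t = ev a s * ev2 m s t := by
  induction m with
  | nil => simp [smul2, ev2]
  | cons b m ih => simp only [smul2, ev2, ih, ev_pmul]; ring

theorem ev2_pmul2 (l m : List (List ℕ)) (s t : R) :
    ev2 (pmul2 l m) s t = ev2 l s t * ev2 m s t := by
  induction l with
  | nil => simp [pmul2, ev2]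
  | cons a l ih => simp only [pmul2, ev2_padd2, ev2_smul2, ev2, ev, ih]; ring

end ev

/-! ### Sizes -/

/-- degree bounds -/
def Sz (a b : ℕ) (L : List (List ℕ)) : Prop := L.length ≤ b + 1 ∧ ∀ r ∈ L, r.length ≤ a + 1

theorem Sz.mono {a b a' b' : ℕ} {L : List (List ℕ)} (h : Sz a b L) (ha : a ≤ a') (hb : b ≤ b') :
    Sz a' b' L :=
  ⟨h.1.trans (by omega), fun r hr => (h.2 r hr).trans (by omega)⟩

theorem padd_length (l m : List ℕ) : (padd l m).length = max l.length m.length := by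
  induction l generalizing m with
  | nil => simp [padd]
  | cons a l ih =>
    cases m with
    | nil => simp [padd]
    | cons b m => simp only [padd, List.length_cons, ih]; omega

theorem pmul_length (l m : List ℕ) (a b : ℕ) (hl : l.length ≤ a + 1) (hm : m.length ≤ b + 1) :
    (pmul l m).length ≤ a + b + 1 := by
  induction l generalizing a with
  | nil => simp [pmul]
  | cons x l ih =>
    simp only [pmul, padd_length, rmul_length, List.length_cons]
    rcases eq_or_ne l [] with rfl | hl0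
    · simp only [pmul, List.length_nil]; omega
    · have : 0 < l.length := List.length_pos_iff.2 hl0
      simp only [List.length_cons] at hl
      have := ih (a - 1) (by omega)
      omega

theorem padd2_length (l m : List (List ℕ)) : (padd2 l m).length = max l.length m.length := by
  induction l generalizing m with
  | nil => simp [padd2]
  | cons a l ih =>
    cases m with
    | nil => simp [padd2]
    | cons b m => simp only [padd2, List.length_cons, ih]; omega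

theorem smul2_length (a : List ℕ) (m : List (List ℕ)) : (smul2 a m).length = m.length := by
  induction m with
  | nil => simp [smul2]
  | cons b m ih => simp [smul2, ih]

theorem padd2_rows (l m : List (List ℕ)) (a : ℕ) (hl : ∀ r ∈ l, r.length ≤ a)
    (hm : ∀ r ∈ m, r.length ≤ a) : ∀ r ∈ padd2 l m, r.length ≤ a := by
  induction l generalizing m with
  | nil => simpa [padd2] using hm
  | cons x l ih =>
    cases m with
    | nil => simpa [padd2] using hl
    | cons b m =>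
      intro r hr
      simp only [padd2, List.mem_cons] at hr
      rcases hr with rfl | hr
      · rw [padd_length]; exact max_le (hl x (by simp)) (hm b (by simp))
      · exact ih m (fun r hr => hl r (by simp [hr])) (fun r hr => hm r (by simp [hr])) r hr

theorem smul2_rows (x : List ℕ) (m : List (List ℕ)) (a b : ℕ) (hx : x.length ≤ a + 1)
    (hm : ∀ r ∈ m, r.length ≤ b + 1) : ∀ r ∈ smul2 x m, r.length ≤ a + b + 1 := by
  induction m with
  | nil => simp [smul2]
  | cons y m ih =>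
    intro r hr
    simp only [smul2, List.mem_cons] at hr
    rcases hr with rfl | hr
    · exact pmul_length x y a b hx (hm y (by simp))
    · exact ih (fun r hr => hm r (by simp [hr])) r hr

theorem Sz.add {a b a' b' : ℕ} {L M : List (List ℕ)} (h : Sz a b L) (h' : Sz a' b' M) :
    Sz (max a a') (max b b') (padd2 L M) := by
  have h1 := h.mono (le_max_left a a') (le_max_left b b')
  have h2 := h'.mono (le_max_right a a') (le_max_right b b')
  refine ⟨?_, padd2_rows L M _ h1.2 h2.2⟩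
  rw [padd2_length]; exact max_le h1.1 h2.1

theorem Sz.mul {a b a' b' : ℕ} {L M : List (List ℕ)} (h : Sz a b L) (h' : Sz a' b' M) :
    Sz (a + a') (b + b') (pmul2 L M) := by
  constructor
  · have hl := h.1
    have hr := h.2
    clear h
    induction L generalizing b with
    | nil => simp [pmul2]
    | cons x L ih =>
      simp only [pmul2, padd2_length, smul2_length, List.length_cons]
      rcases eq_or_ne L [] with rfl | hl0
      · simp only [pmul2, List.length_nil]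
        have := h'.1
        omega
      · have : 0 < L.length := List.length_pos_iff.2 hl0
        simp only [List.length_cons] at hl
        have := ih (b := b - 1) (by omega) (fun r hr' => hr r (by simp [hr']))
        have := h'.1
        omega
  · have hr := h.2
    clear h
    induction L with
    | nil => simp [pmul2]
    | cons x L ih =>
      simp only [pmul2]
      refine padd2_rows _ _ _ (smul2_rows x M a a' (hr x (by simp)) h'.2) ?_
      intro r hr'
      simp only [List.mem_cons] at hr'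
      rcases hr' with rfl | hr'
      · simp
      · exact ih (fun r hr'' => hr r (by simp [hr''])) r hr'

/-! ### Signed pairs -/

section q
variable {R : Type} [CommSemiring R]

def addq (a b : ℕ × R × R) : ℕ × R × R :=
  match Nat.beq a.1 b.1 with
  | true => (a.1, a.2.1 + b.2.1, a.2.2 + b.2.2)
  | false => (a.1 * (b.1 / Nat.gcd a.1 b.1),
      ((b.1 / Nat.gcd a.1 b.1 : ℕ) : R) * a.2.1 + ((a.1 / Nat.gcd a.1 b.1 : ℕ) : R) * b.2.1,
      ((b.1 / Nat.gcd a.1 b.1 : ℕ) : R) * a.2.2 + ((a.1 / Nat.gcd a.1 b.1 : ℕ) : R) * b.2.2)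

def mulq (a b : ℕ × R × R) : ℕ × R × R :=
  (a.1 * b.1, a.2.1 * b.2.1 + a.2.2 * b.2.2, a.2.1 * b.2.2 + a.2.2 * b.2.1)

def negq (a : ℕ × R × R) : ℕ × R × R := (a.1, a.2.2, a.2.1)

def powq (a : ℕ × R × R) : ℕ → ℕ × R × R
  | 0 => (1, 1, 0)
  | n + 1 => mulq a (powq a n)

/-- evaluation in signed pairs, generic -/
def pev (xa xb : ℤ) (xd : ℕ) (ya yb : ℤ) (yd : ℕ) (X Y : R) : PE → ℕ × R × R
  | .q n d => (d, (n.toNat : R), ((-n).toNat : R))
  | .x => (xd, (xa.toNat : R) + ((xb - xa).toNat : R) * X,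
      ((-xa).toNat : R) + ((xa - xb).toNat : R) * X)
  | .y => (yd, (ya.toNat : R) + ((yb - ya).toNat : R) * Y,
      ((-ya).toNat : R) + ((ya - yb).toNat : R) * Y)
  | .add a b => addq (pev xa xb xd ya yb yd X Y a) (pev xa xb xd ya yb yd X Y b)
  | .sub a b => addq (pev xa xb xd ya yb yd X Y a) (negq (pev xa xb xd ya yb yd X Y b))
  | .mul a b => mulq (pev xa xb xd ya yb yd X Y a) (pev xa xb xd ya yb yd X Y b)
  | .neg a => negq (pev xa xb xd ya yb yd X Y a)
  | .pow a n => powq (pev xa xb xd ya yb yd X Y a) n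

end q

/-! ### The same over `ℕ` with raw operations (kernel) -/

noncomputable def addN (a b : ℕ × ℕ × ℕ) : ℕ × ℕ × ℕ :=
  Bool.rec (motive := fun _ => ℕ × ℕ × ℕ)
    (Nat.mul a.1 (Nat.div b.1 (Nat.gcd a.1 b.1)),
      Nat.add (Nat.mul (Nat.div b.1 (Nat.gcd a.1 b.1)) a.2.1)
        (Nat.mul (Nat.div a.1 (Nat.gcd a.1 b.1)) b.2.1),
      Nat.add (Nat.mul (Nat.div b.1 (Nat.gcd a.1 b.1)) a.2.2)
        (Nat.mul (Nat.div a.1 (Nat.gcd a.1 b.1)) b.2.2))
    (a.1, Nat.add a.2.1 b.2.1, Nat.add a.2.2 b.2.2) (Nat.beq a.1 b.1)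

noncomputable def mulN (a b : ℕ × ℕ × ℕ) : ℕ × ℕ × ℕ :=
  (Nat.mul a.1 b.1, Nat.add (Nat.mul a.2.1 b.2.1) (Nat.mul a.2.2 b.2.2),
    Nat.add (Nat.mul a.2.1 b.2.2) (Nat.mul a.2.2 b.2.1))

noncomputable def negN (a : ℕ × ℕ × ℕ) : ℕ × ℕ × ℕ := (a.1, a.2.2, a.2.1)

noncomputable def powN (a : ℕ × ℕ × ℕ) (n : ℕ) : ℕ × ℕ × ℕ :=
  Nat.rec (motive := fun _ => ℕ × ℕ × ℕ) (1, 1, 0) (fun _ ih => mulN a ih) n

noncomputable def pevN (xa xb : ℤ) (xd : ℕ) (ya yb : ℤ) (yd : ℕ) (X Y : ℕ) (e : PE) :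
    ℕ × ℕ × ℕ :=
  PE.rec (motive := fun _ => ℕ × ℕ × ℕ)
    (fun n d => (d, n.toNat, (-n).toNat))
    (xd, Nat.add xa.toNat (Nat.mul (xb - xa).toNat X),
      Nat.add (-xa).toNat (Nat.mul (xa - xb).toNat X))
    (yd, Nat.add ya.toNat (Nat.mul (yb - ya).toNat Y),
      Nat.add (-ya).toNat (Nat.mul (ya - yb).toNat Y))
    (fun _ _ iha ihb => addN iha ihb)
    (fun _ _ iha ihb => addN iha (negN ihb))
    (fun _ _ iha ihb => mulN iha ihb)
    (fun _ iha => negN iha)
    (fun _ n iha => powN iha n) e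

theorem addN_eq (a b : ℕ × ℕ × ℕ) : addN a b = addq a b := by
  unfold addN addq
  rcases Nat.beq a.1 b.1 with _ | _ <;> rfl

theorem powN_eq (a : ℕ × ℕ × ℕ) (n : ℕ) : powN a n = powq a n := by
  induction n with
  | zero => rfl
  | succ n ih =>
    change mulN a (powN a n) = mulq a (powq a n)
    rw [ih]; rfl

theorem pevN_eq (xa xb : ℤ) (xd : ℕ) (ya yb : ℤ) (yd : ℕ) (X Y : ℕ) (e : PE) :
    pevN xa xb xd ya yb yd X Y e = pev xa xb xd ya yb yd X Y e := by
  induction e with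
  | q n d => rfl
  | x => rfl
  | y => rfl
  | add a b iha ihb =>
    change addN (pevN xa xb xd ya yb yd X Y a) (pevN xa xb xd ya yb yd X Y b) = _
    rw [iha, ihb, addN_eq]; rfl
  | sub a b iha ihb =>
    change addN (pevN xa xb xd ya yb yd X Y a) (negN (pevN xa xb xd ya yb yd X Y b)) = _
    rw [iha, ihb, addN_eq]; rfl
  | mul a b iha ihb =>
    change mulN (pevN xa xb xd ya yb yd X Y a) (pevN xa xb xd ya yb yd X Y b) = _
    rw [iha, ihb]; rfl
  | neg a iha =>
    change negN (pevN xa xb xd ya yb yd X Y a) = _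
    rw [iha]; rfl
  | pow a n iha =>
    change powN (pevN xa xb xd ya yb yd X Y a) n = _
    rw [iha, powN_eq]; rfl

/-! ### The same on lists (used in the proof only) -/

/-- operations on triples (denominator, list, list) -/
def addl (a b : ℕ × List (List ℕ) × List (List ℕ)) : ℕ × List (List ℕ) × List (List ℕ) :=
  match Nat.beq a.1 b.1 with
  | true => (a.1, padd2 a.2.1 b.2.1, padd2 a.2.2 b.2.2)
  | false => (a.1 * (b.1 / Nat.gcd a.1 b.1),
      padd2 (pmul2 [[b.1 / Nat.gcd a.1 b.1]] a.2.1) (pmul2 [[a.1 / Nat.gcd a.1 b.1]] b.2.1),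
      padd2 (pmul2 [[b.1 / Nat.gcd a.1 b.1]] a.2.2) (pmul2 [[a.1 / Nat.gcd a.1 b.1]] b.2.2))

def mull (a b : ℕ × List (List ℕ) × List (List ℕ)) : ℕ × List (List ℕ) × List (List ℕ) :=
  (a.1 * b.1, padd2 (pmul2 a.2.1 b.2.1) (pmul2 a.2.2 b.2.2),
    padd2 (pmul2 a.2.1 b.2.2) (pmul2 a.2.2 b.2.1))

def negl (a : ℕ × List (List ℕ) × List (List ℕ)) : ℕ × List (List ℕ) × List (List ℕ) :=
  (a.1, a.2.2, a.2.1)

def powl (a : ℕ × List (List ℕ) × List (List ℕ)) : ℕ → ℕ × List (List ℕ) × List (List ℕ)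
  | 0 => (1, [[1]], [])
  | n + 1 => mull a (powl a n)

def pevL (xa xb : ℤ) (xd : ℕ) (ya yb : ℤ) (yd : ℕ) :
    PE → ℕ × List (List ℕ) × List (List ℕ)
  | .q n d => (d, [[n.toNat]], [[(-n).toNat]])
  | .x => (xd, [[xa.toNat, (xb - xa).toNat]], [[(-xa).toNat, (xa - xb).toNat]])
  | .y => (yd, [[ya.toNat], [(yb - ya).toNat]], [[(-ya).toNat], [(ya - yb).toNat]])
  | .add a b => addl (pevL xa xb xd ya yb yd a) (pevL xa xb xd ya yb yd b)
  | .sub a b => addl (pevL xa xb xd ya yb yd a) (negl (pevL xa xb xd ya yb yd b))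
  | .mul a b => mull (pevL xa xb xd ya yb yd a) (pevL xa xb xd ya yb yd b)
  | .neg a => negl (pevL xa xb xd ya yb yd a)
  | .pow a n => powl (pevL xa xb xd ya yb yd a) n

section q
variable {R : Type} [CommSemiring R]

/-- evaluation of a triple of lists -/
def evq (X Y : R) (a : ℕ × List (List ℕ) × List (List ℕ)) : ℕ × R × R :=
  (a.1, ev2 a.2.1 X Y, ev2 a.2.2 X Y)

theorem evq_add (X Y : R) (a b : ℕ × List (List ℕ) × List (List ℕ)) :
    evq X Y (addl a b) = addq (evq X Y a) (evq X Y b) := by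
  unfold addl addq evq
  rcases h : Nat.beq a.1 b.1 with _ | _
  · simp [ev2_padd2, ev2_pmul2, ev2, ev]
  · simp [ev2_padd2]

theorem evq_mul (X Y : R) (a b : ℕ × List (List ℕ) × List (List ℕ)) :
    evq X Y (mull a b) = mulq (evq X Y a) (evq X Y b) := by
  simp [mull, mulq, evq, ev2_padd2, ev2_pmul2]

theorem evq_pow (X Y : R) (a : ℕ × List (List ℕ) × List (List ℕ)) (n : ℕ) :
    evq X Y (powl a n) = powq (evq X Y a) n := by
  induction n with
  | zero => simp [powl, powq, evq, ev2, ev]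
  | succ n ih => rw [powl, powq, evq_mul, ih]

theorem evq_pevL (xa xb : ℤ) (xd : ℕ) (ya yb : ℤ) (yd : ℕ) (X Y : R) (e : PE) :
    evq X Y (pevL xa xb xd ya yb yd e) = pev xa xb xd ya yb yd X Y e := by
  induction e with
  | q n d => simp [pevL, pev, evq, ev2, ev]
  | x => simp [pevL, pev, evq, ev2, ev, mul_comm X]
  | y => simp [pevL, pev, evq, ev2, ev, mul_comm Y]
  | add a b iha ihb => rw [pevL, pev, evq_add, iha, ihb]
  | sub a b iha ihb =>
    rw [pevL, pev, evq_add, iha, ← ihb]; rfl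
  | mul a b iha ihb => rw [pevL, pev, evq_mul, iha, ihb]
  | neg a iha => rw [pevL, pev, ← iha]; rfl
  | pow a n iha => rw [pevL, pev, evq_pow, iha]

end q

/-- degree bounds of an expression -/
noncomputable def degx (e : PE) : ℕ :=
  PE.rec (motive := fun _ => ℕ) (fun _ _ => 0) 1 0 (fun _ _ a b => Nat.add a (Nat.sub b a))
    (fun _ _ a b => Nat.add a (Nat.sub b a)) (fun _ _ a b => Nat.add a b) (fun _ a => a)
    (fun _ n a => Nat.mul n a) e

noncomputable def degy (e : PE) : ℕ :=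
  PE.rec (motive := fun _ => ℕ) (fun _ _ => 0) 0 1 (fun _ _ a b => Nat.add a (Nat.sub b a))
    (fun _ _ a b => Nat.add a (Nat.sub b a)) (fun _ _ a b => Nat.add a b) (fun _ a => a)
    (fun _ n a => Nat.mul n a) e

/-- both lists of a triple have the given size -/
def Szq (a b : ℕ) (q : ℕ × List (List ℕ) × List (List ℕ)) : Prop := Sz a b q.2.1 ∧ Sz a b q.2.2

theorem Szq.mono {a b a' b' : ℕ} {q : ℕ × List (List ℕ) × List (List ℕ)} (h : Szq a b q)
    (ha : a ≤ a') (hb : b ≤ b') : Szq a' b' q := ⟨h.1.mono ha hb, h.2.mono ha hb⟩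

theorem Sz.one (c : ℕ) : Sz 0 0 [[c]] := ⟨by simp, by simp⟩

theorem Szq.add {a b a' b' : ℕ} {q q' : ℕ × List (List ℕ) × List (List ℕ)} (h : Szq a b q)
    (h' : Szq a' b' q') : Szq (max a a') (max b b') (addl q q') := by
  unfold addl
  rcases Nat.beq q.1 q'.1 with _ | _
  · have h1 := (Sz.one (q'.1 / Nat.gcd q.1 q'.1)).mul h.1
    have h2 := (Sz.one (q.1 / Nat.gcd q.1 q'.1)).mul h'.1
    have h3 := (Sz.one (q'.1 / Nat.gcd q.1 q'.1)).mul h.2
    have h4 := (Sz.one (q.1 / Nat.gcd q.1 q'.1)).mul h'.2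
    simp only [zero_add] at h1 h2 h3 h4
    exact ⟨h1.add h2, h3.add h4⟩
  · exact ⟨h.1.add h'.1, h.2.add h'.2⟩

theorem Szq.mul {a b a' b' : ℕ} {q q' : ℕ × List (List ℕ) × List (List ℕ)} (h : Szq a b q)
    (h' : Szq a' b' q') : Szq (a + a') (b + b') (mull q q') := by
  have h1 := (h.1.mul h'.1).add (h.2.mul h'.2)
  have h2 := (h.1.mul h'.2).add (h.2.mul h'.1)
  simp only [max_self] at h1 h2
  exact ⟨h1, h2⟩

theorem Szq.pow {a b : ℕ} {q : ℕ × List (List ℕ) × List (List ℕ)} (h : Szq a b q) (n : ℕ) :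
    Szq (n * a) (n * b) (powl q n) := by
  induction n with
  | zero =>
    rw [zero_mul, zero_mul]
    exact ⟨Sz.one 1, by simp [powl, Sz]⟩
  | succ n ih =>
    have := h.mul ih
    rw [powl, Nat.succ_mul, Nat.succ_mul, add_comm (n * a), add_comm (n * b)]
    exact this

theorem szq_pevL (xa xb : ℤ) (xd : ℕ) (ya yb : ℤ) (yd : ℕ) (e : PE) :
    Szq (degx e) (degy e) (pevL xa xb xd ya yb yd e) := by
  have hmax : ∀ a b : ℕ, Nat.add a (Nat.sub b a) = max a b := by
    intro a b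
    change a + (b - a) = max a b
    omega
  induction e with
  | q n d => exact ⟨Sz.one _, Sz.one _⟩
  | x => exact ⟨⟨by simp [pevL], by simp [pevL, degx]⟩, ⟨by simp [pevL], by simp [pevL, degx]⟩⟩
  | y =>
    refine ⟨⟨by simp [pevL, degy], ?_⟩, ⟨by simp [pevL, degy], ?_⟩⟩ <;>
    · intro r hr
      simp only [pevL, List.mem_cons, List.not_mem_nil, or_false] at hr
      rcases hr with rfl | rfl <;> simp
  | add a b iha ihb =>
    have := iha.add ihb
    rw [← hmax, ← hmax] at this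
    exact this
  | sub a b iha ihb =>
    have := iha.add (q' := negl (pevL xa xb xd ya yb yd b)) ⟨ihb.2, ihb.1⟩
    rw [← hmax, ← hmax] at this
    exact this
  | mul a b iha ihb => exact iha.mul ihb
  | neg a iha => exact ⟨iha.2, iha.1⟩
  | pow a n iha => exact iha.pow n

/-! ### Real semantics -/

theorem toNat_sub (a : ℤ) : ((a.toNat : ℕ) : ℝ) - ((-a).toNat : ℕ) = a := by
  have := Int.toNat_sub_toNat_neg a
  exact_mod_cast this

theorem addq_spec (a b : ℕ × ℝ × ℝ) (v w : ℝ) (ha : a.1 ≠ 0) (hb : b.1 ≠ 0)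
    (h : a.2.1 - a.2.2 = a.1 * v) (h' : b.2.1 - b.2.2 = b.1 * w) :
    (addq a b).1 ≠ 0 ∧ (addq a b).2.1 - (addq a b).2.2 = (addq a b).1 * (v + w) := by
  unfold addq
  rcases hbq : Nat.beq a.1 b.1 with _ | _
  · have hg : 0 < Nat.gcd a.1 b.1 := Nat.gcd_pos_of_pos_left _ (Nat.pos_of_ne_zero ha)
    obtain ⟨x, hx⟩ := Nat.gcd_dvd_left a.1 b.1
    obtain ⟨y, hy⟩ := Nat.gcd_dvd_right a.1 b.1
    have hx' : a.1 / Nat.gcd a.1 b.1 = x := Nat.div_eq_of_eq_mul_right hg hx
    have hy' : b.1 / Nat.gcd a.1 b.1 = y := Nat.div_eq_of_eq_mul_right hg hy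
    have hy0 : y ≠ 0 := by rintro rfl; exact hb (by simpa using hy)
    refine ⟨Nat.mul_ne_zero ha (by rw [hy']; exact hy0), ?_⟩
    simp only
    rw [hx', hy']
    have hxr : (a.1 : ℝ) = (Nat.gcd a.1 b.1 : ℝ) * x := by exact_mod_cast hx
    have hyr : (b.1 : ℝ) = (Nat.gcd a.1 b.1 : ℝ) * y := by exact_mod_cast hy
    push_cast
    linear_combination (y : ℝ) * h + (x : ℝ) * h' + (x : ℝ) * w * hyr - (y : ℝ) * w * hxr
  · refine ⟨ha, ?_⟩
    have hab := Nat.eq_of_beq_eq_true hbq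
    simp only
    rw [← hab] at h'
    linear_combination h + h'

theorem mulq_spec (a b : ℕ × ℝ × ℝ) (v w : ℝ) (ha : a.1 ≠ 0) (hb : b.1 ≠ 0)
    (h : a.2.1 - a.2.2 = a.1 * v) (h' : b.2.1 - b.2.2 = b.1 * w) :
    (mulq a b).1 ≠ 0 ∧ (mulq a b).2.1 - (mulq a b).2.2 = (mulq a b).1 * (v * w) := by
  refine ⟨Nat.mul_ne_zero ha hb, ?_⟩
  simp only [mulq]
  push_cast
  have : (a.2.1 - a.2.2) * (b.2.1 - b.2.2) = (a.1 * v) * (b.1 * w) := by rw [h, h']
  linarith

theorem pev_spec (xa xb : ℤ) (xd : ℕ) (ya yb : ℤ) (yd : ℕ) (hxd : xd ≠ 0) (hyd : yd ≠ 0)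
    (s t : ℝ) (e : PE) (he : e.okd = true) :
    (pev xa xb xd ya yb yd s t e).1 ≠ 0 ∧
    (pev xa xb xd ya yb yd s t e).2.1 - (pev xa xb xd ya yb yd s t e).2.2 =
      (pev xa xb xd ya yb yd s t e).1 *
        e.eval ((xa + (xb - xa) * s) / xd) ((ya + (yb - ya) * t) / yd) := by
  have hxd' : (xd : ℝ) ≠ 0 := by exact_mod_cast hxd
  have hyd' : (yd : ℝ) ≠ 0 := by exact_mod_cast hyd
  induction e with
  | q n d =>
    simp only [PE.okd, Nat.blt_eq] at he
    have hd : (d : ℝ) ≠ 0 := by exact_mod_cast he.ne'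
    refine ⟨he.ne', ?_⟩
    simp only [pev, PE.eval]
    rw [toNat_sub]
    field_simp
  | x =>
    refine ⟨hxd, ?_⟩
    have h1 := toNat_sub xa
    have h2 := toNat_sub (xb - xa)
    rw [neg_sub] at h2
    push_cast at h2
    simp only [pev, PE.eval]
    rw [mul_div_cancel₀ _ hxd']
    linear_combination h1 + s * h2
  | y =>
    refine ⟨hyd, ?_⟩
    have h1 := toNat_sub ya
    have h2 := toNat_sub (yb - ya)
    rw [neg_sub] at h2
    push_cast at h2
    simp only [pev, PE.eval]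
    rw [mul_div_cancel₀ _ hyd']
    linear_combination h1 + t * h2
  | add a b iha ihb =>
    simp only [PE.okd, Bool.and_eq_true] at he
    obtain ⟨h1, h2⟩ := iha he.1
    obtain ⟨h3, h4⟩ := ihb he.2
    exact addq_spec _ _ _ _ h1 h3 h2 h4
  | sub a b iha ihb =>
    simp only [PE.okd, Bool.and_eq_true] at he
    obtain ⟨h1, h2⟩ := iha he.1
    obtain ⟨h3, h4⟩ := ihb he.2
    have h5 : (negq (pev xa xb xd ya yb yd s t b)).2.1 - (negq (pev xa xb xd ya yb yd s t b)).2.2 =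
        (negq (pev xa xb xd ya yb yd s t b)).1 *
          (-(b.eval ((xa + (xb - xa) * s) / xd) ((ya + (yb - ya) * t) / yd))) := by
      simp only [negq]
      linarith
    have := addq_spec (pev xa xb xd ya yb yd s t a) (negq (pev xa xb xd ya yb yd s t b)) _ _
      h1 h3 h2 h5
    simp only [PE.eval, sub_eq_add_neg] at this ⊢
    exact this
  | mul a b iha ihb =>
    simp only [PE.okd, Bool.and_eq_true] at he
    obtain ⟨h1, h2⟩ := iha he.1
    obtain ⟨h3, h4⟩ := ihb he.2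
    exact mulq_spec _ _ _ _ h1 h3 h2 h4
  | neg a iha =>
    obtain ⟨h1, h2⟩ := iha he
    refine ⟨h1, ?_⟩
    simp only [pev, negq, PE.eval]
    linarith
  | pow a n iha =>
    obtain ⟨h1, h2⟩ := iha he
    simp only [pev, PE.eval]
    induction n with
    | zero => simp [powq]
    | succ n ih =>
      obtain ⟨h3, h4⟩ := ih he
      have := mulq_spec _ _ _ _ h1 h3 h2 h4
      rw [pow_succ']
      exact this

/-! ### Padding -/

def padr : ℕ → List ℕ → List ℕ
  | 0, _ => []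
  | n + 1, [] => 0 :: padr n []
  | n + 1, a :: l => a :: padr n l

def pad2 : ℕ → ℕ → List (List ℕ) → List (List ℕ)
  | 0, _, _ => []
  | m + 1, n, [] => padr n [] :: pad2 m n []
  | m + 1, n, r :: L => padr n r :: pad2 m n L

theorem padr_length (n : ℕ) (l : List ℕ) : (padr n l).length = n := by
  induction n generalizing l with
  | zero => cases l <;> simp [padr]
  | succ n ih => cases l <;> simp [padr, ih]

theorem pad2_length (m n : ℕ) (L : List (List ℕ)) : (pad2 m n L).length = m := by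
  induction m generalizing L with
  | zero => cases L <;> simp [pad2]
  | succ n ih => cases L <;> simp [pad2, ih]

theorem pad2_rect (m n : ℕ) (L : List (List ℕ)) : Rect n (pad2 m n L) := by
  induction m generalizing L with
  | zero => cases L <;> simp [pad2, Rect]
  | succ m ih =>
    intro r hr
    cases L with
    | nil =>
      simp only [pad2, List.mem_cons] at hr
      rcases hr with rfl | hr
      · exact padr_length _ _
      · exact ih [] r hr
    | cons a L =>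
      simp only [pad2, List.mem_cons] at hr
      rcases hr with rfl | hr
      · exact padr_length _ _
      · exact ih L r hr

section ev
variable {R : Type} [CommSemiring R]

theorem hr_padr (n : ℕ) (l : List ℕ) (h : l.length ≤ n) (s : R) :
    hr 1 s (padr n l) = ev l s := by
  induction n generalizing l with
  | zero =>
    have : l = [] := List.length_eq_zero_iff.1 (by omega)
    subst this
    simp [padr, hr_nil, ev]
  | succ n ih =>
    cases l with
    | nil => simp [padr, hr_cons, ih [] (by simp), ev]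
    | cons a l => simp [padr, hr_cons, ih l (by simpa using h), ev]

theorem hev2_pad2 (m n : ℕ) (L : List (List ℕ)) (h : L.length ≤ m) (h' : ∀ r ∈ L, r.length ≤ n)
    (s t : R) : hev2 (pad2 m n L) 1 s 1 t = ev2 L s t := by
  induction m generalizing L with
  | zero =>
    have : L = [] := List.length_eq_zero_iff.1 (by omega)
    subst this
    simp [pad2, hev2_nil, ev2]
  | succ m ih =>
    cases L with
    | nil =>
      rw [pad2, hev2_cons, hr_padr n [] (by simp), ih [] (by simp) (by simp)]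
      simp [ev2, ev]
    | cons a L =>
      rw [pad2, hev2_cons, hr_padr n a (h' a (by simp)), ih L (by simpa using h)
        (fun r hr => h' r (by simp [hr]))]
      simp [ev2]

end ev

/-! ### The top-level checks -/

/-- bisection part with all tables, generic driver `D` (either `auto` or `chk`) -/
noncomputable def conv2 (k n m : ℕ) (P : ℕ) : ℕ :=
  lin (lin P (tab (gs (Nat.pow 2 (Nat.mul k n)) m) k (wB k n) n 0))
    (tab 1 (Nat.mul k n) (wB (Nat.mul k n) m) m 0)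

noncomputable def coreA (k e0 n m : ℕ) (f : ℕ) (d : Bool) (P N S : ℕ) : Bool :=
  auto (Nat.pow 2 k) (Nat.mul e0 (gs (Nat.pow 2 (Nat.succ k)) (Nat.mul m n)))
    (Nat.mul (Nat.pow 2 k) (gs (Nat.pow 2 (Nat.succ k)) (Nat.mul m n)))
    (Nat.mul (Nat.succ k) (Nat.sub n 1)) (Nat.mul (Nat.mul (Nat.succ k) n) (Nat.sub m 1))
    (Nat.pow 3 (Nat.sub n 1)) (Nat.pow 3 (Nat.sub m 1))
    (tab (gs (Nat.pow 2 (Nat.mul (Nat.succ k) n)) m) (Nat.succ k) (wL (Nat.succ k) n) n 0)
    (tab (gs (Nat.pow 2 (Nat.mul (Nat.succ k) n)) m) (Nat.succ k) (wR (Nat.succ k) n) n 0)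
    (tab 1 (Nat.mul (Nat.succ k) n) (wL (Nat.mul (Nat.succ k) n) m) m 0)
    (tab 1 (Nat.mul (Nat.succ k) n) (wR (Nat.mul (Nat.succ k) n) m) m 0) f d P N S

noncomputable def coreT (k e0 n m : ℕ) (t : Tr) (P N S : ℕ) : Bool :=
  chk (Nat.pow 2 k) (Nat.mul e0 (gs (Nat.pow 2 (Nat.succ k)) (Nat.mul m n)))
    (Nat.mul (Nat.pow 2 k) (gs (Nat.pow 2 (Nat.succ k)) (Nat.mul m n)))
    (Nat.mul (Nat.succ k) (Nat.sub n 1)) (Nat.mul (Nat.mul (Nat.succ k) n) (Nat.sub m 1))
    (Nat.pow 3 (Nat.sub n 1)) (Nat.pow 3 (Nat.sub m 1))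
    (tab (gs (Nat.pow 2 (Nat.mul (Nat.succ k) n)) m) (Nat.succ k) (wL (Nat.succ k) n) n 0)
    (tab (gs (Nat.pow 2 (Nat.mul (Nat.succ k) n)) m) (Nat.succ k) (wR (Nat.succ k) n) n 0)
    (tab 1 (Nat.mul (Nat.succ k) n) (wL (Nat.mul (Nat.succ k) n) m) m 0)
    (tab 1 (Nat.mul (Nat.succ k) n) (wR (Nat.mul (Nat.succ k) n) m) m 0) t P N S

/-- the common preparation: `n`, `m`, `k` are thunks -/
noncomputable def prep (xa xb : ℤ) (xd : ℕ) (ya yb : ℤ) (yd : ℕ) (e : PE) (k n m : ℕ)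
    (S : ℕ) (D : ℕ → ℕ → ℕ → Bool) : Bool :=
  andb (Nat.blt S (Nat.pow 2 (Nat.succ k)))
    (andb (Nat.blt (Nat.mul (Nat.pow 2 (Nat.sub n 1)) S) (Nat.pow 2 (Nat.succ k)))
      (D (conv2 (Nat.succ k) n m (pevN xa xb xd ya yb yd (Nat.pow 2 (Nat.succ k))
            (Nat.pow 2 (Nat.mul (Nat.succ k) n)) e).2.1)
        (conv2 (Nat.succ k) n m (pevN xa xb xd ya yb yd (Nat.pow 2 (Nat.succ k))
            (Nat.pow 2 (Nat.mul (Nat.succ k) n)) e).2.2)
        (Nat.mul (Nat.pow 2 (Nat.sub m 1)) (Nat.mul (Nat.pow 2 (Nat.sub n 1)) S))))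

/-- digit size for depth `f` -/
noncomputable def kest (n m f S : ℕ) : ℕ :=
  Nat.add (Nat.add (Nat.log2 S) (Nat.add n m))
    (Nat.add 3 (Nat.div (Nat.mul (Nat.mul 8 (Nat.add n m)) (Nat.div (Nat.add f 1) 2)) 5))

noncomputable def sumq (q : ℕ × ℕ × ℕ) : ℕ := Nat.add q.2.1 q.2.2

noncomputable def topA (e0 : ℕ) (e : PE) (xa xb : ℤ) (xd : ℕ) (ya yb : ℤ) (yd : ℕ) (f : ℕ)
    (k n m S : ℕ) : Bool :=
  prep xa xb xd ya yb yd e k n m S (coreA k e0 n m f true)

noncomputable def topT (e0 : ℕ) (e : PE) (xa xb : ℤ) (xd : ℕ) (ya yb : ℤ) (yd : ℕ) (t : Tr)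
    (k n m S : ℕ) : Bool :=
  prep xa xb xd ya yb yd e k n m S (coreT k e0 n m t)

noncomputable def side (e : PE) (xd yd : ℕ) (b : Bool) : Bool :=
  andb e.okd (andb (Nat.blt 0 xd) (andb (Nat.blt 0 yd) b))

/-- depth of a tree -/
noncomputable def depth (t : Tr) : ℕ :=
  Tr.rec (motive := fun _ => ℕ) 0 (fun _ _ a b => Nat.succ (Nat.add a (Nat.sub b a)))
    (fun _ _ a b => Nat.succ (Nat.add a (Nat.sub b a))) t

noncomputable def runA (e0 : ℕ) (e : PE) (xa xb : ℤ) (xd : ℕ) (ya yb : ℤ) (yd : ℕ) (f : ℕ) :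
    Bool :=
  side e xd yd
    (topA e0 e xa xb xd ya yb yd f
      (kest (Nat.succ (degx e)) (Nat.succ (degy e)) f (sumq (pevN xa xb xd ya yb yd 1 1 e)))
      (Nat.succ (degx e)) (Nat.succ (degy e)) (sumq (pevN xa xb xd ya yb yd 1 1 e)))

noncomputable def runT (e0 : ℕ) (e : PE) (xa xb : ℤ) (xd : ℕ) (ya yb : ℤ) (yd : ℕ) (t : Tr) :
    Bool :=
  side e xd yd
    (topT e0 e xa xb xd ya yb yd t
      (kest (Nat.succ (degx e)) (Nat.succ (degy e)) (Nat.mul 2 (depth t))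
        (sumq (pevN xa xb xd ya yb yd 1 1 e)))
      (Nat.succ (degx e)) (Nat.succ (degy e)) (sumq (pevN xa xb xd ya yb yd 1 1 e)))

/-- strict check with automatic bisection (depth at most `f`) -/
noncomputable def kpos (e : PE) (xa xb : ℤ) (xd : ℕ) (ya yb : ℤ) (yd : ℕ) (f : ℕ) : Bool :=
  runA 1 e xa xb xd ya yb yd f

/-- non-strict check with automatic bisection -/
noncomputable def knn (e : PE) (xa xb : ℤ) (xd : ℕ) (ya yb : ℤ) (yd : ℕ) (f : ℕ) : Bool :=
  runA 0 e xa xb xd ya yb yd f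

/-- strict check along a tree -/
noncomputable def kposT (e : PE) (xa xb : ℤ) (xd : ℕ) (ya yb : ℤ) (yd : ℕ) (t : Tr) : Bool :=
  runT 1 e xa xb xd ya yb yd t

/-- non-strict check along a tree -/
noncomputable def knnT (e : PE) (xa xb : ℤ) (xd : ℕ) (ya yb : ℤ) (yd : ℕ) (t : Tr) : Bool :=
  runT 0 e xa xb xd ya yb yd t

/-! ### Soundness -/

theorem prep_cmp (xa xb : ℤ) (xd : ℕ) (ya yb : ℤ) (yd : ℕ) (e : PE) (e0 k S : ℕ) (hS : S =
    (pevN xa xb xd ya yb yd 1 1 e).2.1 + (pevN xa xb xd ya yb yd 1 1 e).2.2)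
    (D : ℕ → ℕ → ℕ → Bool)
    (hD : ∀ (Ln Lp : List (List ℕ)) (P N S : ℕ), Pk (k + 1) (degx e + 1) (degy e + 1) Lp P S →
      Pk (k + 1) (degx e + 1) (degy e + 1) Ln N S → D P N S = true → Cmp e0 Ln Lp)
    (h : prep xa xb xd ya yb yd e k (degx e + 1) (degy e + 1) S D = true) :
    Cmp e0 (yB (xB (pad2 (degy e + 1) (degx e + 1) (pevL xa xb xd ya yb yd e).2.2)))
      (yB (xB (pad2 (degy e + 1) (degx e + 1) (pevL xa xb xd ya yb yd e).2.1))) := by
  obtain ⟨h1, h⟩ := andb_spec _ _ h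
  obtain ⟨h2, h⟩ := andb_spec _ _ h
  have h1' : S < 2 ^ (k + 1) := by simpa [Nat.blt_eq] using h1
  have h2' : 2 ^ (degx e + 1 - 1) * S < 2 ^ (k + 1) := by
    have := Nat.le_of_ble_eq_true h2
    exact this
  have hsz := szq_pevL xa xb xd ya yb yd e
  have hev : ∀ (X Y : ℕ), pevN xa xb xd ya yb yd X Y e =
      evq X Y (pevL xa xb xd ya yb yd e) := fun X Y => by rw [pevN_eq, evq_pevL]
  have hP0 : ∀ (i : Bool), Pk (k + 1) (degx e + 1) (degy e + 1)
      (pad2 (degy e + 1) (degx e + 1) (cond i (pevL xa xb xd ya yb yd e).2.1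
        (pevL xa xb xd ya yb yd e).2.2))
      (cond i (pevN xa xb xd ya yb yd (2 ^ (k + 1)) (2 ^ ((k + 1) * (degx e + 1))) e).2.1
        (pevN xa xb xd ya yb yd (2 ^ (k + 1)) (2 ^ ((k + 1) * (degx e + 1))) e).2.2) S := by
    intro i
    cases i with
    | true =>
      refine ⟨pad2_rect _ _ _, pad2_length _ _ _, ?_, ?_⟩
      · simp only [cond_true]
        rw [hev, hev2_pad2 _ _ _ hsz.1.1 hsz.1.2]; rfl
      · simp only [cond_true, tot]
        rw [hev2_pad2 _ _ _ hsz.1.1 hsz.1.2, hS, hev]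
        exact Nat.le_add_right _ _
    | false =>
      refine ⟨pad2_rect _ _ _, pad2_length _ _ _, ?_, ?_⟩
      · simp only [cond_false]
        rw [hev, hev2_pad2 _ _ _ hsz.2.1 hsz.2.2]; rfl
      · simp only [cond_false, tot]
        rw [hev2_pad2 _ _ _ hsz.2.1 hsz.2.2, hS, hev]
        exact Nat.le_add_left _ _
  exact hD _ _ _ _ _ (pk_yB _ _ _ _ _ _ (pk_xB _ _ _ _ _ _ (hP0 true) h1') h2')
    (pk_yB _ _ _ _ _ _ (pk_xB _ _ _ _ _ _ (hP0 false) h1') h2') h

theorem side_spec (e : PE) (xd yd : ℕ) (b : Bool) (h : side e xd yd b = true) :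
    e.okd = true ∧ xd ≠ 0 ∧ yd ≠ 0 ∧ b = true := by
  obtain ⟨h1, h⟩ := andb_spec _ _ h
  obtain ⟨h2, h⟩ := andb_spec _ _ h
  obtain ⟨h3, h⟩ := andb_spec _ _ h
  refine ⟨h1, ?_, ?_, h⟩
  · have : 0 < xd := by simpa [Nat.blt_eq] using h2
    omega
  · have : 0 < yd := by simpa [Nat.blt_eq] using h3
    omega

theorem final (xa xb : ℤ) (xd : ℕ) (ya yb : ℤ) (yd : ℕ) (e : PE) (e0 : ℕ) (hxd : xd ≠ 0)
    (hyd : yd ≠ 0) (he : e.okd = true)
    (h : Cmp e0 (yB (xB (pad2 (degy e + 1) (degx e + 1) (pevL xa xb xd ya yb yd e).2.2)))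
      (yB (xB (pad2 (degy e + 1) (degx e + 1) (pevL xa xb xd ya yb yd e).2.1))))
    (x y : ℝ) (hx1 : (xa : ℝ) / xd ≤ x) (hx2 : x ≤ (xb : ℝ) / xd)
    (hy1 : (ya : ℝ) / yd ≤ y) (hy2 : y ≤ (yb : ℝ) / yd) :
    0 ≤ e.eval x y ∧ (e0 = 1 → 0 < e.eval x y) := by
  obtain ⟨s, hs0, hs1, hs⟩ := PE.exists_unit xa xb xd hxd x hx1 hx2
  obtain ⟨t, ht0, ht1, ht⟩ := PE.exists_unit ya yb yd hyd y hy1 hy2
  obtain ⟨h1, h2⟩ := pev_spec xa xb xd ya yb yd hxd hyd s t e he
  have hsz := szq_pevL xa xb xd ya yb yd e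
  have h3 := h (1 - s) s (1 - t) t (by linarith) hs0 (by linarith) ht0 (by linarith) (by linarith)
  have e1 : t + (1 - t) = 1 := by ring
  have e2 : s + (1 - s) = 1 := by ring
  rw [hev2_yB _ _ (rect_xB _ _ (pad2_rect _ _ _)), hev2_yB _ _ (rect_xB _ _ (pad2_rect _ _ _)),
    hev2_xB, hev2_xB, e1, e2, hev2_pad2 _ _ _ hsz.1.1 hsz.1.2,
    hev2_pad2 _ _ _ hsz.2.1 hsz.2.2] at h3
  have h4 := evq_pevL xa xb xd ya yb yd s t e
  have h5 : ev2 (pevL xa xb xd ya yb yd e).2.1 s t = (pev xa xb xd ya yb yd s t e).2.1 := by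
    rw [← h4]; rfl
  have h6 : ev2 (pevL xa xb xd ya yb yd e).2.2 s t = (pev xa xb xd ya yb yd s t e).2.2 := by
    rw [← h4]; rfl
  rw [h5, h6] at h3
  rw [← hs, ← ht] at h2
  have hD : (0 : ℝ) < (pev xa xb xd ya yb yd s t e).1 := by
    have : 0 < (pev xa xb xd ya yb yd s t e).1 := Nat.pos_of_ne_zero h1
    exact_mod_cast this
  constructor
  · have : 0 ≤ ((pev xa xb xd ya yb yd s t e).1 : ℝ) * e.eval x y := by
      rw [← h2]; linarith [h3.1]
    exact nonneg_of_mul_nonneg_right this hD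
  · intro he0
    have : 0 < ((pev xa xb xd ya yb yd s t e).1 : ℝ) * e.eval x y := by
      rw [← h2]; linarith [h3.2 he0]
    exact (pos_iff_pos_of_mul_pos this).1 hD

theorem runA_spec (e0 : ℕ) (he0 : e0 ≤ 1) (e : PE) (xa xb : ℤ) (xd : ℕ) (ya yb : ℤ) (yd : ℕ)
    (f : ℕ) (h : runA e0 e xa xb xd ya yb yd f = true)
    (x y : ℝ) (hx1 : (xa : ℝ) / xd ≤ x) (hx2 : x ≤ (xb : ℝ) / xd)
    (hy1 : (ya : ℝ) / yd ≤ y) (hy2 : y ≤ (yb : ℝ) / yd) :
    0 ≤ e.eval x y ∧ (e0 = 1 → 0 < e.eval x y) := by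
  obtain ⟨h1, h2, h3, h4⟩ := side_spec _ _ _ _ h
  refine final xa xb xd ya yb yd e e0 h2 h3 h1 ?_ x y hx1 hx2 hy1 hy2
  refine prep_cmp xa xb xd ya yb yd e e0 _ _ rfl _ ?_ h4
  intro Ln Lp P N S hP hN hD
  exact auto_cmp _ e0 _ _ he0 (Nat.succ_ne_zero _) (Nat.succ_ne_zero _) _ _ _ _ _ _ _ hP hN hD

theorem runT_spec (e0 : ℕ) (he0 : e0 ≤ 1) (e : PE) (xa xb : ℤ) (xd : ℕ) (ya yb : ℤ) (yd : ℕ)
    (t : Tr) (h : runT e0 e xa xb xd ya yb yd t = true)
    (x y : ℝ) (hx1 : (xa : ℝ) / xd ≤ x) (hx2 : x ≤ (xb : ℝ) / xd)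
    (hy1 : (ya : ℝ) / yd ≤ y) (hy2 : y ≤ (yb : ℝ) / yd) :
    0 ≤ e.eval x y ∧ (e0 = 1 → 0 < e.eval x y) := by
  obtain ⟨h1, h2, h3, h4⟩ := side_spec _ _ _ _ h
  refine final xa xb xd ya yb yd e e0 h2 h3 h1 ?_ x y hx1 hx2 hy1 hy2
  refine prep_cmp xa xb xd ya yb yd e e0 _ _ rfl _ ?_ h4
  intro Ln Lp P N S hP hN hD
  exact chk_cmp _ e0 _ _ he0 (Nat.succ_ne_zero _) (Nat.succ_ne_zero _) _ _ _ _ _ _ hP hN hD

theorem pos_of_kpos (e : PE) (xa xb : ℤ) (xd : ℕ) (ya yb : ℤ) (yd : ℕ)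
    (f : ℕ) (h : kpos e xa xb xd ya yb yd f = true)
    (x y : ℝ) (hx1 : (xa : ℝ) / xd ≤ x) (hx2 : x ≤ (xb : ℝ) / xd)
    (hy1 : (ya : ℝ) / yd ≤ y) (hy2 : y ≤ (yb : ℝ) / yd) : 0 < e.eval x y :=
  (runA_spec 1 le_rfl e xa xb xd ya yb yd f h x y hx1 hx2 hy1 hy2).2 rfl

theorem nonneg_of_knn (e : PE) (xa xb : ℤ) (xd : ℕ) (ya yb : ℤ) (yd : ℕ)
    (f : ℕ) (h : knn e xa xb xd ya yb yd f = true)
    (x y : ℝ) (hx1 : (xa : ℝ) / xd ≤ x) (hx2 : x ≤ (xb : ℝ) / xd)
    (hy1 : (ya : ℝ) / yd ≤ y) (hy2 : y ≤ (yb : ℝ) / yd) : 0 ≤ e.eval x y :=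
  (runA_spec 0 (Nat.zero_le 1) e xa xb xd ya yb yd f h x y hx1 hx2 hy1 hy2).1

theorem pos_of_kposT (e : PE) (xa xb : ℤ) (xd : ℕ) (ya yb : ℤ) (yd : ℕ)
    (t : Tr) (h : kposT e xa xb xd ya yb yd t = true)
    (x y : ℝ) (hx1 : (xa : ℝ) / xd ≤ x) (hx2 : x ≤ (xb : ℝ) / xd)
    (hy1 : (ya : ℝ) / yd ≤ y) (hy2 : y ≤ (yb : ℝ) / yd) : 0 < e.eval x y :=
  (runT_spec 1 le_rfl e xa xb xd ya yb yd t h x y hx1 hx2 hy1 hy2).2 rfl

theorem nonneg_of_knnT (e : PE) (xa xb : ℤ) (xd : ℕ) (ya yb : ℤ) (yd : ℕ)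
    (t : Tr) (h : knnT e xa xb xd ya yb yd t = true)
    (x y : ℝ) (hx1 : (xa : ℝ) / xd ≤ x) (hx2 : x ≤ (xb : ℝ) / xd)
    (hy1 : (ya : ℝ) / yd ≤ y) (hy2 : y ≤ (yb : ℝ) / yd) : 0 ≤ e.eval x y :=
  (runT_spec 0 (Nat.zero_le 1) e xa xb xd ya yb yd t h x y hx1 hx2 hy1 hy2).1

end AF06.PB
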