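import Mathlib

/-!
# Enclosures of `arctan`

* `atS n z = ∑_{k<n} (-1)^k z^(2k+1)/(2k+1)`; for `z ≥ 0`: `atS (2n) z ≤ arctan z ≤ atS (2n+1) z`
  (`atS_le`, `le_atS`), all real `z ≥ 0`.
* `arctan_shift : -1 < c * z → arctan z = arctan c + arctan ((z - c)/(1 + c z))`.
* `atanChk p q n lo hi d = true` (by `decide +kernel`) implies
  `lo / d ≤ arctan (p/q) ≤ hi / d` for naturals `p ≤ q` (series with `2n` resp. `2n+1` terms).
* first and second order bounds around a centre: `arctan_le_tangent`, ...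
-/

namespace AF06.Atan

open Real

/-- partial sums of the arctan series -/
noncomputable def atS (n : ℕ) (z : ℝ) : ℝ :=
  ∑ k ∈ Finset.range n, (-1) ^ k * z ^ (2 * k + 1) / (2 * k + 1)

theorem atS_zero (n : ℕ) : atS n 0 = 0 := by
  unfold atS
  refine Finset.sum_eq_zero fun k _ => ?_
  simp

theorem hasDerivAt_atS (n : ℕ) (z : ℝ) :
    HasDerivAt (atS n) ((1 - (-(z ^ 2)) ^ n) / (1 + z ^ 2)) z := by
  have h1 : HasDerivAt (atS n) (∑ k ∈ Finset.range n, (-(z ^ 2)) ^ k) z := by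
    unfold atS
    refine HasDerivAt.fun_sum fun k _ => ?_
    have h2 := ((hasDerivAt_pow (2 * k + 1) z).const_mul ((-1 : ℝ) ^ k)).div_const
      ((2 * k + 1 : ℝ))
    refine h2.congr_deriv ?_
    have : (2 * (k : ℝ) + 1) ≠ 0 := by positivity
    simp only [Nat.add_sub_cancel]
    push_cast
    field_simp
    rw [neg_pow (z ^ 2), ← pow_mul]
  refine h1.congr_deriv ?_
  have h3 : (1 + z ^ 2 : ℝ) ≠ 0 := by positivity
  rw [eq_div_iff h3]
  have := geom_sum_mul_neg (-(z ^ 2)) n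
  rw [sub_neg_eq_add] at this
  exact this

/-- monotonicity in difference form -/
theorem mono_aux (f : ℝ → ℝ) (f' : ℝ → ℝ) (hf : ∀ x, HasDerivAt f (f' x) x)
    (h0 : ∀ x, 0 ≤ f' x) : ∀ x, 0 ≤ x → f 0 ≤ f x := by
  intro x hx
  have hm : Monotone f := monotone_of_deriv_nonneg (fun x => (hf x).differentiableAt)
    (fun x => by rw [(hf x).deriv]; exact h0 x)
  exact hm hx

theorem atS_le (n : ℕ) (z : ℝ) (hz : 0 ≤ z) : atS (2 * n) z ≤ arctan z := by
  have h := mono_aux (fun x => arctan x - atS (2 * n) x)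
    (fun x => 1 / (1 + x ^ 2) - (1 - (-(x ^ 2)) ^ (2 * n)) / (1 + x ^ 2))
    (fun x => by
      exact (hasDerivAt_arctan x).fun_sub (hasDerivAt_atS (2 * n) x))
    (fun x => by
      have h1 : (0 : ℝ) < 1 + x ^ 2 := by positivity
      rw [← sub_div]
      refine div_nonneg ?_ h1.le
      have h2 : (0 : ℝ) ≤ (-(x ^ 2)) ^ (2 * n) := by
        rw [pow_mul]; positivity
      linarith) z hz
  simp only [arctan_zero, atS_zero, sub_zero] at h
  linarith

theorem le_atS (n : ℕ) (z : ℝ) (hz : 0 ≤ z) : arctan z ≤ atS (2 * n + 1) z := by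
  have h := mono_aux (fun x => atS (2 * n + 1) x - arctan x)
    (fun x => (1 - (-(x ^ 2)) ^ (2 * n + 1)) / (1 + x ^ 2) - 1 / (1 + x ^ 2))
    (fun x => by
      exact (hasDerivAt_atS (2 * n + 1) x).fun_sub (hasDerivAt_arctan x))
    (fun x => by
      have h1 : (0 : ℝ) < 1 + x ^ 2 := by positivity
      rw [← sub_div]
      refine div_nonneg ?_ h1.le
      have h2 : (-(x ^ 2)) ^ (2 * n + 1) ≤ (0 : ℝ) := by
        rw [pow_succ, pow_mul]
        have : (0 : ℝ) ≤ ((-(x ^ 2)) ^ 2) ^ n := by positivity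
        nlinarith [sq_nonneg x]
      linarith) z hz
  simp only [arctan_zero, atS_zero, sub_zero] at h
  linarith

theorem arctan_shift (c z : ℝ) (h : -1 < c * z) :
    arctan z = arctan c + arctan ((z - c) / (1 + c * z)) := by
  have h1 : (z - c) / (1 + c * z) * c < 1 := by
    have h2 : 0 < 1 + c * z := by linarith
    rw [div_mul_eq_mul_div, div_lt_one h2]
    nlinarith [sq_nonneg c]
  have h3 := arctan_add h1
  rw [add_comm, h3]
  congr 1
  have h2 : (1 + c * z) ≠ 0 := by linarith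
  have h5 : (1 + c ^ 2) ≠ 0 := by positivity
  have h6 : 1 - (z - c) / (1 + c * z) * c = (1 + c ^ 2) / (1 + c * z) := by
    rw [eq_div_iff h2, sub_mul, one_mul, div_mul_eq_mul_div, div_mul_cancel₀ _ h2]
    ring
  have h7 : (z - c) / (1 + c * z) + c = z * ((1 + c ^ 2) / (1 + c * z)) := by
    rw [mul_div_assoc', eq_div_iff h2, add_mul, div_mul_cancel₀ _ h2]
    ring
  rw [h6, h7, mul_div_cancel_right₀]
  exact div_ne_zero h5 h2

/-! ### Tangent and chord type bounds -/

/-- quadratic lower/upper bounds with a global cubic remainder are obtained from the shift; the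
first order ones: for `z, c ≥ 0` and `z ≥ c`, `arctan z ≤ arctan c + (z - c)/(1 + c z)`. -/
theorem arctan_le_shift (c z : ℝ) (hc : 0 ≤ c) (h : c ≤ z) :
    arctan z ≤ arctan c + (z - c) / (1 + c * z) := by
  have h0 : 0 ≤ c * z := mul_nonneg hc (hc.trans h)
  rw [arctan_shift c z (by linarith)]
  have h1 : 0 ≤ (z - c) / (1 + c * z) := div_nonneg (by linarith) (by linarith)
  have := le_atS 0 _ h1
  simp only [atS, Nat.mul_zero, zero_add, Finset.range_one, Finset.sum_singleton] at this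
  norm_num at this
  linarith

/-- For every real `w`: `arctan w ≤ max ...` in polynomial form: if `w ≥ 0` then
`w - w^3/3 ≤ arctan w ≤ w - w^3/3 + w^5/5`. -/
theorem arctan_ge_cubic (w : ℝ) (hw : 0 ≤ w) : w - w ^ 3 / 3 ≤ arctan w := by
  have := atS_le 1 w hw
  simp only [atS, Finset.sum_range_succ, Finset.sum_range_zero] at this
  norm_num at this
  linarith

theorem arctan_le_quintic (w : ℝ) (hw : 0 ≤ w) : arctan w ≤ w - w ^ 3 / 3 + w ^ 5 / 5 := by
  have := le_atS 1 w hw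
  simp only [atS, Finset.sum_range_succ, Finset.sum_range_zero] at this
  norm_num at this
  linarith

theorem arctan_ge_septic (w : ℝ) (hw : 0 ≤ w) :
    w - w ^ 3 / 3 + w ^ 5 / 5 - w ^ 7 / 7 ≤ arctan w := by
  have := atS_le 2 w hw
  simp only [atS, Finset.sum_range_succ, Finset.sum_range_zero] at this
  norm_num at this
  linarith

/-- symmetric versions valid for all real `w` -/
theorem arctan_le_all (w : ℝ) (b : ℝ) (hb : |w| ≤ b) : arctan w ≤ w - w ^ 3 / 3 + b ^ 5 / 5 := by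
  rcases le_total 0 w with h | h
  · have h1 := arctan_le_quintic w h
    have h2 : w ^ 5 ≤ b ^ 5 := pow_le_pow_left₀ h (by rwa [abs_of_nonneg h] at hb) 5
    linarith
  · have h1 := arctan_ge_cubic (-w) (by linarith)
    rw [arctan_neg] at h1
    have hb0 : 0 ≤ b := (abs_nonneg w).trans hb
    have h2 : 0 ≤ b ^ 5 := by positivity
    have h3 : (-w) ^ 3 = - w ^ 3 := by ring
    rw [h3] at h1
    linarith

theorem arctan_ge_all (w : ℝ) (b : ℝ) (hb : |w| ≤ b) : w - w ^ 3 / 3 - b ^ 5 / 5 ≤ arctan w := by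
  have := arctan_le_all (-w) b (by rwa [abs_neg])
  rw [arctan_neg] at this
  have h3 : (-w) ^ 3 = - w ^ 3 := by ring
  rw [h3] at this
  linarith

/-! ### Kernel-checked rational enclosures of `arctan (p/q)` -/

/-- Horner evaluation of `∑_{j<n} (-c²)^j/(2(k+j)+1)`, `c = p/q`, as a fraction of integers
(numerator, denominator). -/
def horn (p q : ℕ) : ℕ → ℕ → ℤ × ℤ
  | 0, _ => (0, 1)
  | n + 1, k =>
    match horn p q n (k + 1) with
    | (a, b) => (b * (q ^ 2 : ℕ) - ((2 * k + 1) * p ^ 2 : ℕ) * a, ((2 * k + 1) * q ^ 2 : ℕ) * b)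

theorem horn_spec (p q : ℕ) (hq : q ≠ 0) (n k : ℕ) :
    0 < (horn p q n k).2 ∧ ((horn p q n k).1 : ℝ) / (horn p q n k).2 =
      ∑ j ∈ Finset.range n, (-1) ^ j * ((p : ℝ) / q) ^ (2 * j) / (2 * (k + j : ℕ) + 1) := by
  have hq' : (q : ℝ) ≠ 0 := by exact_mod_cast hq
  induction n generalizing k with
  | zero => simp [horn]
  | succ n ih =>
    obtain ⟨h1, h2⟩ := ih (k + 1)
    have hk : (0 : ℤ) < ((2 * k + 1) * q ^ 2 : ℕ) := by
      have : 0 < (2 * k + 1) * q ^ 2 := by positivity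
      exact_mod_cast this
    refine ⟨by simp only [horn]; exact mul_pos hk h1, ?_⟩
    have h1' : ((horn p q n (k + 1)).2 : ℝ) ≠ 0 := by exact_mod_cast h1.ne'
    have hk' : (2 * (k : ℝ) + 1) ≠ 0 := by positivity
    rw [Finset.sum_range_succ']
    have h3 : ∑ j ∈ Finset.range n, (-1 : ℝ) ^ (j + 1) * ((p : ℝ) / q) ^ (2 * (j + 1)) /
        (2 * (k + (j + 1) : ℕ) + 1) = - ((p : ℝ) / q) ^ 2 *
        ∑ j ∈ Finset.range n, (-1) ^ j * ((p : ℝ) / q) ^ (2 * j) / (2 * (k + 1 + j : ℕ) + 1) := by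
      rw [Finset.mul_sum]
      refine Finset.sum_congr rfl fun j _ => ?_
      rw [show k + (j + 1) = k + 1 + j by ring]
      ring
    rw [h3, ← h2]
    simp only [horn]
    push_cast
    field_simp
    ring

/-- the check -/
def atanChk (p q n : ℕ) (lo hi : ℤ) (d : ℕ) : Bool :=
  decide (0 < q) && decide (0 < d) &&
  (let a := horn p q (2 * n) 0
   decide (lo * (q * a.2) ≤ d * (p * a.1))) &&
  (let a := horn p q (2 * n + 1) 0
   decide (d * (p * a.1) ≤ hi * (q * a.2)))

theorem atS_horn (p q : ℕ) (hq : q ≠ 0) (n : ℕ) :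
    atS n ((p : ℝ) / q) = (p : ℝ) / q * (((horn p q n 0).1 : ℝ) / (horn p q n 0).2) := by
  rw [(horn_spec p q hq n 0).2, atS, Finset.mul_sum]
  refine Finset.sum_congr rfl fun j _ => ?_
  rw [zero_add]
  ring

theorem atan_of_chk (p q n : ℕ) (lo hi : ℤ) (d : ℕ) (h : atanChk p q n lo hi d = true) :
    (lo : ℝ) / d ≤ arctan ((p : ℝ) / q) ∧ arctan ((p : ℝ) / q) ≤ (hi : ℝ) / d := by
  simp only [atanChk, Bool.and_eq_true, decide_eq_true_eq] at h
  obtain ⟨⟨⟨hq, hd⟩, h1⟩, h2⟩ := h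
  have hq' : (0 : ℝ) < q := by exact_mod_cast hq
  have hd' : (0 : ℝ) < d := by exact_mod_cast hd
  have hz : (0 : ℝ) ≤ (p : ℝ) / q := by positivity
  constructor
  · refine le_trans ?_ (atS_le n _ hz)
    rw [atS_horn p q hq.ne']
    have h3 : (0 : ℝ) < (horn p q (2 * n) 0).2 := by
      exact_mod_cast (horn_spec p q hq.ne' (2 * n) 0).1
    rw [div_mul_div_comm, div_le_div_iff₀ hd' (mul_pos hq' h3)]
    have : ((lo * (q * (horn p q (2 * n) 0).2) : ℤ) : ℝ) ≤ ((d * (p * (horn p q (2 * n) 0).1) : ℤ) : ℝ) := by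
      exact_mod_cast h1
    push_cast at this
    linarith
  · refine le_trans (le_atS n _ hz) ?_
    rw [atS_horn p q hq.ne']
    have h3 : (0 : ℝ) < (horn p q (2 * n + 1) 0).2 := by
      exact_mod_cast (horn_spec p q hq.ne' (2 * n + 1) 0).1
    rw [div_mul_div_comm, div_le_div_iff₀ (mul_pos hq' h3) hd']
    have : ((d * (p * (horn p q (2 * n + 1) 0).1) : ℤ) : ℝ) ≤ ((hi * (q * (horn p q (2 * n + 1) 0).2) : ℤ) : ℝ) := by
      exact_mod_cast h2
    push_cast at this
    linarith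

/-- example: `arctan (1/3)` with 12 digits -/
theorem atan_third : (321750554396 : ℝ) / 1000000000000 ≤ arctan (1 / 3) ∧
    arctan (1 / 3) ≤ (321750554397 : ℝ) / 1000000000000 := by
  have := atan_of_chk 1 3 12 321750554396 321750554397 1000000000000 (by decide +kernel)
  norm_num at this ⊢
  exact this

end AF06.Atan
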