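import Pool.Agent.Lib.MP_af06f6_co.Tools.PBernMain
import Pool.Agent.Lib.MP_af06f6_co.Tools.Atan

/-!
# Positivity of `R₀ + ∑ R_i · arctan (N_i / D_i)` on boxes, checked in the kernel

`R₀, R_i, N_i, D_i : Bern.PE` are polynomial expressions in `x, y` with rational constants.
For every box and every term an external program supplies: the sign of `R_i`, a centre
`c_i = cp/cq` (index into a verified table of arctan enclosures), a bound `b/db` for
`|w_i|`, `w_i = (N_i/D_i - c_i)/(1 + c_i N_i/D_i)`, an integer `K` (the constant of the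
one-sided Taylor bound, over the table denominator) and the order (`false` : linear,
`true` : cubic).
-/

set_option linter.unusedVariables false

namespace AF06.At

open AF06.Bern (PE)
open AF06.PB
open Real

/-- a static term `R * arctan (N / D)` -/
structure TermS where
  R : PE
  N : PE
  D : PE

/-- table entry: `lo/d ≤ arctan (cp/cq) ≤ hi/d` -/
structure Ent where
  cp : ℕ
  cq : ℕ
  lo : ℤ
  hi : ℤ

/-- per box data of a term -/
structure TermB where
  s : Bool
  i : ℕ
  b : ℕ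
  K : ℤ
  o : Bool

/-- subdivision tree with leaf data -/
inductive BT : Type
  | leaf : ℕ → List TermB → BT
  | bx : ℤ → BT → BT → BT
  | by' : ℤ → BT → BT → BT

/-- a table is correct -/
def TabOK (d : ℕ) (T : List Ent) : Prop :=
  ∀ e ∈ T, 0 < e.cq ∧ (e.lo : ℝ) / d ≤ arctan ((e.cp : ℝ) / e.cq) ∧
    arctan ((e.cp : ℝ) / e.cq) ≤ (e.hi : ℝ) / d

/-- list lookup by the recursor -/
noncomputable def look (T : List Ent) : ℕ → Ent :=
  List.rec (motive := fun _ => ℕ → Ent) (fun _ => ⟨0, 1, 0, 0⟩)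
    (fun a _ ih i => Nat.rec (motive := fun _ => Ent) a (fun j _ => ih j) i) T

theorem look_ok (d : ℕ) (T : List Ent) (hT : TabOK d T) (i : ℕ) :
    0 < (look T i).cq ∧ ((look T i).lo : ℝ) / d ≤ arctan (((look T i).cp : ℝ) / (look T i).cq) ∧
      arctan (((look T i).cp : ℝ) / (look T i).cq) ≤ ((look T i).hi : ℝ) / d := by
  induction T generalizing i with
  | nil => simp [look]
  | cons a T ih =>
    cases i with
    | zero => exact hT a (by simp)
    | succ i => exact ih (fun e he => hT e (by simp [he])) i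

/-- integer comparison `a ≤ b` -/
def ile (a b : ℤ) : Bool := Int.toNat (a - b) == 0

theorem ile_iff (a b : ℤ) (h : ile a b = true) : a ≤ b := by
  unfold ile at h
  have : Int.toNat (a - b) = 0 := by simpa using h
  omega

/-! ### Expressions built from the data -/

def eE (t : TermS) (e : Ent) : PE := .add (.mul (.q e.cq 1) t.D) (.mul (.q e.cp 1) t.N)
def eU (t : TermS) (e : Ent) : PE := .sub (.mul (.q e.cq 1) t.N) (.mul (.q e.cp 1) t.D)

/-- `E^o` -/
def eEo (t : TermS) (e : Ent) (o : Bool) : PE := cond o (.pow (eE t e) 3) (eE t e)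

/-- numerator of the bound over `3 d E^o`: `3 K E^o + 3 d U E^(o-1) - d U^3` -/
def eZ (t : TermS) (e : Ent) (K : ℤ) (d : ℕ) (o : Bool) : PE :=
  cond o
    (.add (.mul (.q (3 * K) 1) (.pow (eE t e) 3))
      (.mul (.q d 1) (.mul (eU t e) (.sub (.mul (.q 3 1) (.pow (eE t e) 2)) (.pow (eU t e) 2)))))
    (.mul (.q 3 1) (.add (.mul (.q K 1) (eE t e)) (.mul (.q d 1) (eU t e))))

/-- the remainder check -/
def remOK (e : Ent) (tb : TermB) (d db : ℕ) : Bool :=
  match tb.s, tb.o with
  | true, false => ile (3 * (db : ℤ) ^ 3 * tb.K + d * (tb.b : ℤ) ^ 3) (3 * (db : ℤ) ^ 3 * e.lo)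
  | false, false => ile (3 * (db : ℤ) ^ 3 * e.hi + d * (tb.b : ℤ) ^ 3) (3 * (db : ℤ) ^ 3 * tb.K)
  | true, true => ile (5 * (db : ℤ) ^ 5 * tb.K + d * (tb.b : ℤ) ^ 5) (5 * (db : ℤ) ^ 5 * e.lo)
  | false, true => ile (5 * (db : ℤ) ^ 5 * e.hi + d * (tb.b : ℤ) ^ 5) (5 * (db : ℤ) ^ 5 * tb.K)

/-- all side checks of a term on a box; `f` = bisection depth -/
noncomputable def sideT (d db : ℕ) (xd yd : ℕ) (xa xb ya yb : ℤ) (f : ℕ) (t : TermS) (e : Ent)
    (tb : TermB) : Bool :=
  andb (remOK e tb d db)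
  (andb (kpos t.D xa xb xd ya yb yd f)
  (andb (kpos (eE t e) xa xb xd ya yb yd f)
  (andb (knn (.sub (.mul (.q tb.b 1) (eE t e)) (.mul (.q db 1) (eU t e))) xa xb xd ya yb yd f)
  (andb (knn (.add (.mul (.q tb.b 1) (eE t e)) (.mul (.q db 1) (eU t e))) xa xb xd ya yb yd f)
    (knn (cond tb.s t.R (.neg t.R)) xa xb xd ya yb yd f)))))

/-- the fold: side checks and the pair `(A, M)` -/
noncomputable def run (d db : ℕ) (T : List Ent) (xd yd : ℕ) (xa xb ya yb : ℤ) (f : ℕ) (st : Bool)
    (ts : List TermS) : List TermB → PE → PE → Bool :=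
  List.rec (motive := fun _ => List TermB → PE → PE → Bool)
    (fun tbs A M => List.rec (motive := fun _ => Bool)
      (cond st (kpos A xa xb xd ya yb yd f) (knn A xa xb xd ya yb yd f))
      (fun _ _ _ => false) tbs)
    (fun t _ ih tbs A M => List.rec (motive := fun _ => Bool) false
      (fun tb tbs' _ => andb (sideT d db xd yd xa xb ya yb f t (look T tb.i) tb)
        (ih tbs' (.add (.mul A (eEo t (look T tb.i) tb.o))
            (.mul (.mul t.R (eZ t (look T tb.i) tb.K d tb.o)) M))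
          (.mul M (eEo t (look T tb.i) tb.o)))) tbs) ts

noncomputable def treeChk (d db : ℕ) (T : List Ent) (xd yd : ℕ) (st : Bool) (ts : List TermS)
    (R0 : PE) (bt : BT) : ℤ → ℤ → ℤ → ℤ → Bool :=
  BT.rec (motive := fun _ => ℤ → ℤ → ℤ → ℤ → Bool)
    (fun f tbs xa xb ya yb => run d db T xd yd xa xb ya yb f st ts tbs
      (.mul (.q (3 * d) 1) R0) (.q 1 1))
    (fun m _ _ iha ihb xa xb ya yb => andb (iha xa m ya yb) (ihb m xb ya yb))
    (fun m _ _ iha ihb xa xb ya yb => andb (iha xa xb ya m) (ihb xa xb m yb)) bt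

/-! ### Soundness -/

/-- value of the function -/
noncomputable def val (ts : List TermS) (x y : ℝ) : ℝ :=
  (ts.map fun t => t.R.eval x y * arctan (t.N.eval x y / t.D.eval x y)).sum

theorem bound_lin (w b : ℝ) (hb : |w| ≤ b) :
    w - b ^ 3 / 3 ≤ arctan w ∧ arctan w ≤ w + b ^ 3 / 3 := by
  have key : ∀ w : ℝ, |w| ≤ b → arctan w ≤ w + b ^ 3 / 3 := by
    intro w hb
    have hb0 : 0 ≤ b := (abs_nonneg w).trans hb
    rcases le_total 0 w with h | h
    · have h1 := Atan.le_atS 0 w h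
      simp only [Atan.atS, Nat.mul_zero, zero_add, Finset.range_one, Finset.sum_singleton] at h1
      norm_num at h1
      have : 0 ≤ b ^ 3 := by positivity
      linarith
    · have h1 := Atan.arctan_ge_cubic (-w) (by linarith)
      rw [arctan_neg] at h1
      have h2 : (-w) ^ 3 ≤ b ^ 3 := pow_le_pow_left₀ (by linarith) (by rwa [abs_of_nonpos h] at hb) 3
      linarith
  refine ⟨?_, key w hb⟩
  have := key (-w) (by rwa [abs_neg])
  rw [arctan_neg] at this
  linarith

theorem term_bound (t : TermS) (e : Ent) (tb : TermB) (d db : ℕ) (hd : 0 < d) (hdb : 0 < db)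
    (x y : ℝ) (hcq : 0 < e.cq) (hlo : (e.lo : ℝ) / d ≤ arctan ((e.cp : ℝ) / e.cq))
    (hhi : arctan ((e.cp : ℝ) / e.cq) ≤ (e.hi : ℝ) / d)
    (hrem : remOK e tb d db = true) (hD : 0 < t.D.eval x y) (hE : 0 < (eE t e).eval x y)
    (h1 : 0 ≤ (PE.sub (.mul (.q tb.b 1) (eE t e)) (.mul (.q db 1) (eU t e))).eval x y)
    (h2 : 0 ≤ (PE.add (.mul (.q tb.b 1) (eE t e)) (.mul (.q db 1) (eU t e))).eval x y)
    (h3 : 0 ≤ (cond tb.s t.R (PE.neg t.R)).eval x y) :
    (t.R.eval x y * (eZ t e tb.K d tb.o).eval x y) ≤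
      3 * d * (eEo t e tb.o).eval x y * (t.R.eval x y * arctan (t.N.eval x y / t.D.eval x y)) := by
  have hcq' : (0 : ℝ) < e.cq := by exact_mod_cast hcq
  have hd' : (0 : ℝ) < d := by exact_mod_cast hd
  have hdb' : (0 : ℝ) < db := by exact_mod_cast hdb
  set N := t.N.eval x y with hN
  set D := t.D.eval x y with hDD
  set E := (eE t e).eval x y with hEE
  set U := (eU t e).eval x y with hUU
  have hEv : E = e.cq * D + e.cp * N := by
    rw [hEE, hN, hDD]; simp [eE, PE.eval]
  have hUv : U = e.cq * N - e.cp * D := by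
    rw [hUU, hN, hDD]; simp [eU, PE.eval]
  have hb1 : (db : ℝ) * U ≤ tb.b * E := by
    have : (PE.sub (.mul (.q tb.b 1) (eE t e)) (.mul (.q db 1) (eU t e))).eval x y =
      tb.b * E - db * U := by rw [hEE, hUU]; simp [PE.eval]
    rw [this] at h1; linarith
  have hb2 : -((tb.b : ℝ) * E) ≤ db * U := by
    have : (PE.add (.mul (.q tb.b 1) (eE t e)) (.mul (.q db 1) (eU t e))).eval x y =
      tb.b * E + db * U := by rw [hEE, hUU]; simp [PE.eval]
    rw [this] at h2; linarith
  set w := U / E with hw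
  set b : ℝ := (tb.b : ℝ) / db with hb
  have hwb : |w| ≤ b := by
    rw [abs_le, hw, hb]
    constructor
    · rw [← neg_div, div_le_div_iff₀ hdb' hE]; linarith
    · rw [div_le_div_iff₀ hE hdb']; linarith
  -- the shift
  have hshift : arctan (N / D) = arctan ((e.cp : ℝ) / e.cq) + arctan w := by
    have h4 : 1 + (e.cp : ℝ) / e.cq * (N / D) = E / (e.cq * D) := by
      rw [hEv]; field_simp
    have h5 : -1 < (e.cp : ℝ) / e.cq * (N / D) := by
      have : 0 < E / (e.cq * D) := by positivity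
      linarith
    rw [Atan.arctan_shift _ _ h5, h4]
    congr 2
    rw [hw, hUv]
    have hcq0 := hcq'.ne'
    have hD0 := hD.ne'
    have hE0 := hE.ne'
    field_simp
  have hUw : U = w * E := by rw [hw]; field_simp
  have hcast3 : ((3 * (db : ℤ) ^ 3 : ℤ) : ℝ) = 3 * (db : ℝ) ^ 3 := by push_cast; ring
  -- the value of the Taylor part
  rcases hs : tb.s with _ | _ <;> rcases ho : tb.o with _ | _
  · -- R ≤ 0, linear, upper bound
    rw [hs] at h3
    have hR : t.R.eval x y ≤ 0 := by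
      have : (PE.neg t.R).eval x y = - t.R.eval x y := by simp [PE.eval]
      simp only [cond_false] at h3
      rw [this] at h3; linarith
    simp only [remOK, hs, ho] at hrem
    have h6 := ile_iff _ _ hrem
    have h7 : (3 * (db : ℝ) ^ 3 * e.hi + d * (tb.b : ℝ) ^ 3) ≤ 3 * (db : ℝ) ^ 3 * tb.K := by
      exact_mod_cast h6
    have h8 := (bound_lin w b hwb).2
    have h9 : d * arctan (N / D) ≤ tb.K + d * w := by
      rw [hshift]
      have h10 : (e.hi : ℝ) + d * (b ^ 3 / 3) ≤ tb.K := by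
        have : b ^ 3 * (db : ℝ) ^ 3 = (tb.b : ℝ) ^ 3 := by rw [hb]; field_simp
        have hp : (0 : ℝ) < 3 * (db : ℝ) ^ 3 := by positivity
        refine le_of_mul_le_mul_left ?_ hp
        have e1 : 3 * (db : ℝ) ^ 3 * ((e.hi : ℝ) + d * (b ^ 3 / 3)) =
          3 * (db : ℝ) ^ 3 * e.hi + d * (b ^ 3 * (db : ℝ) ^ 3) := by ring
        rw [e1, this]; exact h7
      have h11 : d * arctan ((e.cp : ℝ) / e.cq) ≤ e.hi := by
        rw [le_div_iff₀ hd'] at hhi; linarith
      have := mul_le_mul_of_nonneg_left h8 hd'.le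
      linarith
    have hz : (eZ t e tb.K d false).eval x y = 3 * E * (tb.K + d * w) := by
      simp only [eZ, cond_false]
      have : (PE.mul (.q 3 1) (.add (.mul (.q tb.K 1) (eE t e)) (.mul (.q d 1) (eU t e)))).eval x y =
        3 * (tb.K * E + d * U) := by rw [hEE, hUU]; simp [PE.eval]
      rw [this, hUw]; ring
    have hz' : (eEo t e false).eval x y = E := by simp [eEo, hEE]
    rw [hz, hz']
    have h12 := mul_le_mul_of_nonneg_left h9 (by positivity : (0 : ℝ) ≤ 3 * E)
    have h13 := mul_le_mul_of_nonpos_left h12 hR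
    linarith
  · -- R ≤ 0, cubic
    rw [hs] at h3
    have hR : t.R.eval x y ≤ 0 := by
      have : (PE.neg t.R).eval x y = - t.R.eval x y := by simp [PE.eval]
      simp only [cond_false] at h3
      rw [this] at h3; linarith
    simp only [remOK, hs, ho] at hrem
    have h6 := ile_iff _ _ hrem
    have h7 : (5 * (db : ℝ) ^ 5 * e.hi + d * (tb.b : ℝ) ^ 5) ≤ 5 * (db : ℝ) ^ 5 * tb.K := by
      exact_mod_cast h6
    have h8 := Atan.arctan_le_all w b hwb
    have h9 : d * arctan (N / D) ≤ tb.K + d * (w - w ^ 3 / 3) := by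
      rw [hshift]
      have h10 : (e.hi : ℝ) + d * (b ^ 5 / 5) ≤ tb.K := by
        have : b ^ 5 * (db : ℝ) ^ 5 = (tb.b : ℝ) ^ 5 := by rw [hb]; field_simp
        have hp : (0 : ℝ) < 5 * (db : ℝ) ^ 5 := by positivity
        refine le_of_mul_le_mul_left ?_ hp
        have e1 : 5 * (db : ℝ) ^ 5 * ((e.hi : ℝ) + d * (b ^ 5 / 5)) =
          5 * (db : ℝ) ^ 5 * e.hi + d * (b ^ 5 * (db : ℝ) ^ 5) := by ring
        rw [e1, this]; exact h7
      have h11 : d * arctan ((e.cp : ℝ) / e.cq) ≤ e.hi := by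
        rw [le_div_iff₀ hd'] at hhi; linarith
      have := mul_le_mul_of_nonneg_left h8 hd'.le
      linarith
    have hz : (eZ t e tb.K d true).eval x y = 3 * E ^ 3 * (tb.K + d * (w - w ^ 3 / 3)) := by
      simp only [eZ, cond_true]
      have : (PE.add (.mul (.q (3 * tb.K) 1) (.pow (eE t e) 3))
        (.mul (.q d 1) (.mul (eU t e) (.sub (.mul (.q 3 1) (.pow (eE t e) 2))
          (.pow (eU t e) 2))))).eval x y =
        3 * tb.K * E ^ 3 + d * (U * (3 * E ^ 2 - U ^ 2)) := by
        rw [hEE, hUU]; simp [PE.eval]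
      rw [this, hUw]; ring
    have hz' : (eEo t e true).eval x y = E ^ 3 := by simp [eEo, hEE, PE.eval]
    rw [hz, hz']
    have h12 := mul_le_mul_of_nonneg_left h9 (by positivity : (0 : ℝ) ≤ 3 * E ^ 3)
    have h13 := mul_le_mul_of_nonpos_left h12 hR
    linarith
  · -- R ≥ 0, linear
    rw [hs] at h3
    have hR : 0 ≤ t.R.eval x y := h3
    simp only [remOK, hs, ho] at hrem
    have h6 := ile_iff _ _ hrem
    have h7 : (3 * (db : ℝ) ^ 3 * tb.K + d * (tb.b : ℝ) ^ 3) ≤ 3 * (db : ℝ) ^ 3 * e.lo := by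
      exact_mod_cast h6
    have h8 := (bound_lin w b hwb).1
    have h9 : tb.K + d * w ≤ d * arctan (N / D) := by
      rw [hshift]
      have h10 : (tb.K : ℝ) + d * (b ^ 3 / 3) ≤ e.lo := by
        have : b ^ 3 * (db : ℝ) ^ 3 = (tb.b : ℝ) ^ 3 := by rw [hb]; field_simp
        have hp : (0 : ℝ) < 3 * (db : ℝ) ^ 3 := by positivity
        refine le_of_mul_le_mul_left ?_ hp
        have e1 : 3 * (db : ℝ) ^ 3 * ((tb.K : ℝ) + d * (b ^ 3 / 3)) =
          3 * (db : ℝ) ^ 3 * tb.K + d * (b ^ 3 * (db : ℝ) ^ 3) := by ring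
        rw [e1, this]; exact h7
      have h11 : e.lo ≤ d * arctan ((e.cp : ℝ) / e.cq) := by
        rw [div_le_iff₀ hd'] at hlo; linarith
      have := mul_le_mul_of_nonneg_left h8 hd'.le
      linarith
    have hz : (eZ t e tb.K d false).eval x y = 3 * E * (tb.K + d * w) := by
      simp only [eZ, cond_false]
      have : (PE.mul (.q 3 1) (.add (.mul (.q tb.K 1) (eE t e)) (.mul (.q d 1) (eU t e)))).eval x y =
        3 * (tb.K * E + d * U) := by rw [hEE, hUU]; simp [PE.eval]
      rw [this, hUw]; ring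
    have hz' : (eEo t e false).eval x y = E := by simp [eEo, hEE]
    rw [hz, hz']
    have h12 := mul_le_mul_of_nonneg_left h9 (by positivity : (0 : ℝ) ≤ 3 * E)
    have h13 := mul_le_mul_of_nonneg_left h12 hR
    linarith
  · -- R ≥ 0, cubic
    rw [hs] at h3
    have hR : 0 ≤ t.R.eval x y := h3
    simp only [remOK, hs, ho] at hrem
    have h6 := ile_iff _ _ hrem
    have h7 : (5 * (db : ℝ) ^ 5 * tb.K + d * (tb.b : ℝ) ^ 5) ≤ 5 * (db : ℝ) ^ 5 * e.lo := by
      exact_mod_cast h6
    have h8 := Atan.arctan_ge_all w b hwb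
    have h9 : tb.K + d * (w - w ^ 3 / 3) ≤ d * arctan (N / D) := by
      rw [hshift]
      have h10 : (tb.K : ℝ) + d * (b ^ 5 / 5) ≤ e.lo := by
        have : b ^ 5 * (db : ℝ) ^ 5 = (tb.b : ℝ) ^ 5 := by rw [hb]; field_simp
        have hp : (0 : ℝ) < 5 * (db : ℝ) ^ 5 := by positivity
        refine le_of_mul_le_mul_left ?_ hp
        have e1 : 5 * (db : ℝ) ^ 5 * ((tb.K : ℝ) + d * (b ^ 5 / 5)) =
          5 * (db : ℝ) ^ 5 * tb.K + d * (b ^ 5 * (db : ℝ) ^ 5) := by ring
        rw [e1, this]; exact h7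
      have h11 : e.lo ≤ d * arctan ((e.cp : ℝ) / e.cq) := by
        rw [div_le_iff₀ hd'] at hlo; linarith
      have := mul_le_mul_of_nonneg_left h8 hd'.le
      linarith
    have hz : (eZ t e tb.K d true).eval x y = 3 * E ^ 3 * (tb.K + d * (w - w ^ 3 / 3)) := by
      simp only [eZ, cond_true]
      have : (PE.add (.mul (.q (3 * tb.K) 1) (.pow (eE t e) 3))
        (.mul (.q d 1) (.mul (eU t e) (.sub (.mul (.q 3 1) (.pow (eE t e) 2))
          (.pow (eU t e) 2))))).eval x y =
        3 * tb.K * E ^ 3 + d * (U * (3 * E ^ 2 - U ^ 2)) := by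
        rw [hEE, hUU]; simp [PE.eval]
      rw [this, hUw]; ring
    have hz' : (eEo t e true).eval x y = E ^ 3 := by simp [eEo, hEE, PE.eval]
    rw [hz, hz']
    have h12 := mul_le_mul_of_nonneg_left h9 (by positivity : (0 : ℝ) ≤ 3 * E ^ 3)
    have h13 := mul_le_mul_of_nonneg_left h12 hR
    linarith

theorem run_spec (d db : ℕ) (hd : 0 < d) (hdb : 0 < db) (T : List Ent) (hT : TabOK d T)
    (xd yd : ℕ) (xa xb ya yb : ℤ) (f : ℕ) (st : Bool) (x y : ℝ)
    (hx1 : (xa : ℝ) / xd ≤ x) (hx2 : x ≤ (xb : ℝ) / xd)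
    (hy1 : (ya : ℝ) / yd ≤ y) (hy2 : y ≤ (yb : ℝ) / yd)
    (ts : List TermS) (tbs : List TermB) (A M : PE) (V : ℝ) (hM : 0 < M.eval x y)
    (hA : A.eval x y ≤ 3 * d * M.eval x y * V)
    (h : run d db T xd yd xa xb ya yb f st ts tbs A M = true) :
    0 ≤ V + val ts x y ∧ (st = true → 0 < V + val ts x y) := by
  have hd' : (0 : ℝ) < d := by exact_mod_cast hd
  induction ts generalizing tbs A M V with
  | nil =>
    cases tbs with
    | cons tb tbs => exact absurd h (by simp [run])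
    | nil =>
      have hc : (0 : ℝ) < 3 * d * M.eval x y := by positivity
      simp only [val, List.map_nil, List.sum_nil, add_zero]
      cases st with
      | true =>
        have h1 : 0 < A.eval x y := pos_of_kpos A xa xb xd ya yb yd f h x y hx1 hx2 hy1 hy2
        have h2 : 0 < 3 * d * M.eval x y * V := h1.trans_le hA
        have h3 : 0 < V := (pos_iff_pos_of_mul_pos h2).1 hc
        exact ⟨h3.le, fun _ => h3⟩
      | false =>
        have h1 : 0 ≤ A.eval x y := nonneg_of_knn A xa xb xd ya yb yd f h x y hx1 hx2 hy1 hy2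
        have h2 : 0 ≤ 3 * d * M.eval x y * V := h1.trans hA
        exact ⟨nonneg_of_mul_nonneg_right h2 hc, by simp⟩
  | cons t ts ih =>
    cases tbs with
    | nil => exact absurd h (by simp [run])
    | cons tb tbs =>
      obtain ⟨hs, h⟩ := andb_spec _ _ h
      obtain ⟨s1, hs⟩ := andb_spec _ _ hs
      obtain ⟨s2, hs⟩ := andb_spec _ _ hs
      obtain ⟨s3, hs⟩ := andb_spec _ _ hs
      obtain ⟨s4, hs⟩ := andb_spec _ _ hs
      obtain ⟨s5, s6⟩ := andb_spec _ _ hs
      obtain ⟨l1, l2, l3⟩ := look_ok d T hT tb.i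
      have hD := pos_of_kpos _ xa xb xd ya yb yd f s2 x y hx1 hx2 hy1 hy2
      have hE := pos_of_kpos _ xa xb xd ya yb yd f s3 x y hx1 hx2 hy1 hy2
      have h1 := nonneg_of_knn _ xa xb xd ya yb yd f s4 x y hx1 hx2 hy1 hy2
      have h2 := nonneg_of_knn _ xa xb xd ya yb yd f s5 x y hx1 hx2 hy1 hy2
      have h3 := nonneg_of_knn _ xa xb xd ya yb yd f s6 x y hx1 hx2 hy1 hy2
      have hb := term_bound t (look T tb.i) tb d db hd hdb x y l1 l2 l3 s1 hD hE h1 h2 h3
      have hEo : 0 < (eEo t (look T tb.i) tb.o).eval x y := by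
        rcases ho : tb.o with _ | _
        · simpa [eEo] using hE
        · simp only [eEo, cond_true, PE.eval]; positivity
      have := ih tbs _ _ (V + t.R.eval x y * arctan (t.N.eval x y / t.D.eval x y)) ?_ ?_ h
      · have e1 : V + val (t :: ts) x y =
          V + t.R.eval x y * arctan (t.N.eval x y / t.D.eval x y) + val ts x y := by
          simp only [val, List.map_cons, List.sum_cons]; ring
        rw [e1]; exact this
      · simp only [PE.eval]; positivity
      · simp only [PE.eval]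
        have g1 := mul_le_mul_of_nonneg_right hA hEo.le
        have g2 := mul_le_mul_of_nonneg_right hb hM.le
        nlinarith

theorem tree_spec (d db : ℕ) (hd : 0 < d) (hdb : 0 < db) (T : List Ent) (hT : TabOK d T)
    (xd yd : ℕ) (st : Bool) (ts : List TermS) (R0 : PE) (bt : BT) (xa xb ya yb : ℤ)
    (h : treeChk d db T xd yd st ts R0 bt xa xb ya yb = true) (x y : ℝ)
    (hx1 : (xa : ℝ) / xd ≤ x) (hx2 : x ≤ (xb : ℝ) / xd)
    (hy1 : (ya : ℝ) / yd ≤ y) (hy2 : y ≤ (yb : ℝ) / yd) :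
    0 ≤ R0.eval x y + val ts x y ∧ (st = true → 0 < R0.eval x y + val ts x y) := by
  induction bt generalizing xa xb ya yb with
  | leaf f tbs =>
    refine run_spec d db hd hdb T hT xd yd xa xb ya yb f st x y hx1 hx2 hy1 hy2 ts tbs _ _ _
      ?_ ?_ h
    · simp [PE.eval]
    · simp [PE.eval]
  | bx m a b iha ihb =>
    obtain ⟨ha, hb⟩ := andb_spec _ _ h
    rcases le_total x ((m : ℝ) / xd) with hm | hm
    · exact iha xa m ya yb ha hx1 hm hy1 hy2
    · exact ihb m xb ya yb hb hm hx2 hy1 hy2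
  | by' m a b iha ihb =>
    obtain ⟨ha, hb⟩ := andb_spec _ _ h
    rcases le_total y ((m : ℝ) / yd) with hm | hm
    · exact iha xa xb ya m ha hx1 hx2 hy1 hm
    · exact ihb xa xb m yb hb hx1 hx2 hm hy2

end AF06.At
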