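import Pool.Agent.Lib.MP_af06f6_co.Tools.Tab

/-!
# Example of use of the arctan box checker

Generated by `atgen` (source in `/team-store/MP_af06f6_atgen.cpp`) from
```
name ex
box 102 614 1024 102 614 1024
R0 ( + 4155/10000 ( * 2 x ) )
R ( ~ ( * 1/2 ( - 1 ( * x x ) ) ) )
N ( * y ( + 1 ( * x x ) ) )
D ( * x ( - 1 ( * y y ) ) )
R ( * 1/2 ( - 1 ( * x x ) ) )
N ( * x ( + 1 ( * y y ) ) )
D ( * y ( - 1 ( * x x ) ) )
```
-/

open AF06.Bern (PE)
open AF06.At

namespace AF06.AtExample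

def ex_R0 : PE := (.add (.q 4155 10000) (.mul (.q 2 1) .x))
def ex_ts : List TermS := [⟨(.neg (.mul (.q 1 2) (.sub (.q 1 1) (.mul .x .x)))), (.mul .y (.add (.q 1 1) (.mul .x .x))), (.mul .x (.sub (.q 1 1) (.mul .y .y)))⟩, ⟨(.mul (.q 1 2) (.sub (.q 1 1) (.mul .x .x))), (.mul .x (.add (.q 1 1) (.mul .y .y))), (.mul .y (.sub (.q 1 1) (.mul .x .x)))⟩]
def ex_bt : BT := .bx 358 (.by' 358 (.leaf 2 [⟨false, 33, 5703, 2614836285, false⟩, ⟨true, 33, 5703, 2243865150, false⟩])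
 (.leaf 2 [⟨false, 48, 2964, 3534587521, true⟩, ⟨true, 23, 3580, 1686420473, true⟩]))
 (.leaf 2 [⟨false, 30, 5648, 2386489965, false⟩, ⟨true, 45, 3910, 3261669678, false⟩])
theorem ex_chk : treeChk 3000000000 10000 T0 1024 1024 true ex_ts ex_R0 ex_bt (102) (614) (102) (614) = true := by decide +kernel

/-- the inequality in plain form; its minimum on the box is about `10⁻⁴` -/
theorem ex (x y : ℝ) (hx1 : 102 / 1024 ≤ x) (hx2 : x ≤ 614 / 1024) (hy1 : 102 / 1024 ≤ y)
    (hy2 : y ≤ 614 / 1024) :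
    0 < 4155 / 10000 + 2 * x
      - 1 / 2 * (1 - x * x) * Real.arctan (y * (1 + x * x) / (x * (1 - y * y)))
      + 1 / 2 * (1 - x * x) * Real.arctan (x * (1 + y * y) / (y * (1 - x * x))) := by
  have h := (tree_spec 3000000000 10000 (by norm_num) (by norm_num) T0 T0_ok 1024 1024 true ex_ts
    ex_R0 ex_bt 102 614 102 614 ex_chk x y (by push_cast; linarith) (by push_cast; linarith)
    (by push_cast; linarith) (by push_cast; linarith)).2 rfl
  simp only [val, ex_ts, ex_R0, PE.eval, List.map_cons, List.map_nil, List.sum_cons,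
    List.sum_nil] at h
  push_cast at h
  norm_num at h ⊢
  linarith

end AF06.AtExample
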