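import Mathlib

/-!
# Kernel-fast positivity of bivariate polynomials on rational rectangles

Everything here is integer arithmetic on lists, evaluated by `decide +kernel`.

* `PE` : expressions in two real variables `x`, `y` with rational constants.
* `PE.chk e xa xb xd ya yb yd tr` : Boolean certificate check that `e > 0` on the closed
  rectangle `[xa/xd, xb/xd] × [ya/yd, yb/yd]`; `tr : Tr` is a subdivision tree.
* `PE.auto e xa xb xd ya yb yd fuel` : the same with automatic bisection (alternating
  directions, depth at most `fuel`).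
* `PE.pos_of_chk`, `PE.pos_of_auto`, `PE.nonneg_of_chk`, `PE.nonneg_of_auto` : soundness.

Method: after the affine change of variables to the unit square the polynomial is written in
the (unnormalised) Bernstein basis `(1-s)^(n-i) s^i`; if all coefficients are positive it is
positive; otherwise bisect (de Casteljau in the form of a Taylor shift).
-/

namespace AF06.Bern

/-- subdivision trees -/
inductive Tr : Type
  | leaf : Tr
  | sx : Tr → Tr → Tr
  | sy : Tr → Tr → Tr

/-! ### Generic homogeneous lists -/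

section generic
variable {α : Type}

/-- homogeneous evaluation `∑ φ(l_i) u^(n-1-i) v^i` -/
def hev (φ : α → ℝ) : List α → ℝ → ℝ → ℝ
  | [], _, _ => 0
  | a :: l, u, v => φ a * u ^ l.length + v * hev φ l u v

/-- one step of the Taylor shift -/
def stp (add : α → α → α) : α → List α → List α
  | a, [] => [a]
  | a, b :: q => add a b :: stp add b q

/-- Taylor shift -/
def tsh (add : α → α → α) : List α → List α
  | [] => []
  | a :: l => stp add a (tsh add l)

/-- scaling by powers of two -/
def scl (mul : ℤ → α → α) : ℤ → List α → List α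
  | _, [] => []
  | k, a :: l => mul k a :: scl mul (2 * k) l

/-- right half -/
def rgt (add : α → α → α) (mul : ℤ → α → α) (l : List α) : List α :=
  scl mul 1 (tsh add l)

/-- left half -/
def lft (add : α → α → α) (mul : ℤ → α → α) (l : List α) : List α :=
  (scl mul 1 (tsh add l.reverse)).reverse

/-- conversion of a power basis list to the Bernstein basis -/
def toB (add : α → α → α) (l : List α) : List α :=
  (tsh add l.reverse).reverse

variable (φ : α → ℝ) (G : α → Prop) (add : α → α → α) (mul : ℤ → α → α)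

set_option linter.unusedVariables false

theorem stp_length (a : α) (q : List α) : (stp add a q).length = q.length + 1 := by
  induction q generalizing a with
  | nil => simp [stp]
  | cons b q ih => simp [stp, ih]

theorem tsh_length (l : List α) : (tsh add l).length = l.length := by
  induction l with
  | nil => simp [tsh]
  | cons a l ih => simp [tsh, stp_length, ih]

theorem scl_length (k : ℤ) (l : List α) : (scl mul k l).length = l.length := by
  induction l generalizing k with
  | nil => simp [scl]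
  | cons a l ih => simp [scl, ih]

theorem stp_good (hadd : ∀ a b, G a → G b → G (add a b)) (a : α) (q : List α) (ha : G a)
    (hq : ∀ b ∈ q, G b) : ∀ b ∈ stp add a q, G b := by
  induction q generalizing a with
  | nil => simpa [stp] using ha
  | cons b q ih =>
    intro c hc
    simp only [stp, List.mem_cons] at hc
    rcases hc with rfl | hc
    · exact hadd a b ha (hq b (by simp))
    · exact ih b (hq b (by simp)) (fun d hd => hq d (by simp [hd])) c hc

theorem tsh_good (hadd : ∀ a b, G a → G b → G (add a b)) (l : List α)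
    (hl : ∀ b ∈ l, G b) : ∀ b ∈ tsh add l, G b := by
  induction l with
  | nil => simp [tsh]
  | cons a l ih =>
    simp only [tsh]
    exact stp_good G add hadd a _ (hl a (by simp)) (ih fun b hb => hl b (by simp [hb]))

theorem scl_good (hmul : ∀ k a, G a → G (mul k a)) (k : ℤ) (l : List α)
    (hl : ∀ b ∈ l, G b) : ∀ b ∈ scl mul k l, G b := by
  induction l generalizing k with
  | nil => simp [scl]
  | cons a l ih =>
    intro c hc
    simp only [scl, List.mem_cons] at hc
    rcases hc with rfl | hc
    · exact hmul k a (hl a (by simp))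
    · exact ih (2 * k) (fun b hb => hl b (by simp [hb])) c hc

theorem hev_stp (hadd : ∀ a b, G a → G b → G (add a b))
    (hφ : ∀ a b, G a → G b → φ (add a b) = φ a + φ b) (a : α) (q : List α) (ha : G a)
    (hq : ∀ b ∈ q, G b) (u v : ℝ) :
    hev φ (stp add a q) u v = φ a * u ^ q.length + (u + v) * hev φ q u v := by
  induction q generalizing a with
  | nil => simp [stp, hev]
  | cons b q ih =>
    have hb : G b := hq b (by simp)
    have h := ih b hb (fun d hd => hq d (by simp [hd]))
    simp only [stp, hev, stp_length, List.length_cons]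
    rw [h, hφ a b ha hb]
    ring

theorem hev_tsh (hadd : ∀ a b, G a → G b → G (add a b))
    (hφ : ∀ a b, G a → G b → φ (add a b) = φ a + φ b) (l : List α)
    (hl : ∀ b ∈ l, G b) (u v : ℝ) :
    hev φ (tsh add l) u v = hev φ l u (u + v) := by
  induction l with
  | nil => simp [tsh, hev]
  | cons a l ih =>
    have hl' : ∀ b ∈ l, G b := fun b hb => hl b (by simp [hb])
    simp only [tsh, hev]
    rw [hev_stp φ G add hadd hφ a _ (hl a (by simp)) (tsh_good G add hadd l hl'), ih hl',
      tsh_length]

theorem hev_scl (hφ : ∀ k a, G a → φ (mul k a) = k * φ a) (k : ℤ) (l : List α)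
    (hl : ∀ b ∈ l, G b) (u v : ℝ) :
    hev φ (scl mul k l) u v = k * hev φ l u (2 * v) := by
  induction l generalizing k with
  | nil => simp [scl, hev]
  | cons a l ih =>
    have h := ih (2 * k) (fun b hb => hl b (by simp [hb]))
    simp only [scl, hev, scl_length]
    rw [h, hφ k a (hl a (by simp))]
    push_cast
    ring

theorem hev_append (l m : List α) (u v : ℝ) :
    hev φ (l ++ m) u v = u ^ m.length * hev φ l u v + v ^ l.length * hev φ m u v := by
  induction l with
  | nil => simp [hev]
  | cons a l ih =>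
    simp only [List.cons_append, hev, ih, List.length_append, List.length_cons]
    ring

theorem hev_reverse (l : List α) (u v : ℝ) : hev φ l.reverse u v = hev φ l v u := by
  induction l with
  | nil => simp [hev]
  | cons a l ih =>
    simp only [List.reverse_cons, hev_append, hev, ih, List.length_reverse, List.length_nil,
      List.length_cons]
    ring

theorem hev_rgt (hadd : ∀ a b, G a → G b → G (add a b))
    (hφ : ∀ a b, G a → G b → φ (add a b) = φ a + φ b)
    (hφm : ∀ k a, G a → φ (mul k a) = k * φ a) (l : List α)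
    (hl : ∀ b ∈ l, G b) (u v : ℝ) :
    hev φ (rgt add mul l) u v = hev φ l u (u + 2 * v) := by
  unfold rgt
  rw [hev_scl φ G mul hφm 1 _ (tsh_good G add hadd l hl), hev_tsh φ G add hadd hφ l hl]
  simp

theorem hev_lft (hadd : ∀ a b, G a → G b → G (add a b))
    (hφ : ∀ a b, G a → G b → φ (add a b) = φ a + φ b)
    (hφm : ∀ k a, G a → φ (mul k a) = k * φ a) (l : List α)
    (hl : ∀ b ∈ l, G b) (u v : ℝ) :
    hev φ (lft add mul l) u v = hev φ l (v + 2 * u) v := by
  unfold lft
  have hl' : ∀ b ∈ l.reverse, G b := fun b hb => hl b (by simpa using hb)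
  rw [hev_reverse, hev_scl φ G mul hφm 1 _ (tsh_good G add hadd _ hl'),
    hev_tsh φ G add hadd hφ _ hl', hev_reverse]
  simp

theorem hev_toB (hadd : ∀ a b, G a → G b → G (add a b))
    (hφ : ∀ a b, G a → G b → φ (add a b) = φ a + φ b) (l : List α)
    (hl : ∀ b ∈ l, G b) (u v : ℝ) :
    hev φ (toB add l) u v = hev φ l (v + u) v := by
  unfold toB
  have hl' : ∀ b ∈ l.reverse, G b := fun b hb => hl b (by simpa using hb)
  rw [hev_reverse, hev_tsh φ G add hadd hφ _ hl', hev_reverse]

theorem rgt_good (hadd : ∀ a b, G a → G b → G (add a b)) (hmul : ∀ k a, G a → G (mul k a))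
    (l : List α) (hl : ∀ b ∈ l, G b) : ∀ b ∈ rgt add mul l, G b :=
  scl_good G mul hmul 1 _ (tsh_good G add hadd l hl)

theorem lft_good (hadd : ∀ a b, G a → G b → G (add a b)) (hmul : ∀ k a, G a → G (mul k a))
    (l : List α) (hl : ∀ b ∈ l, G b) : ∀ b ∈ lft add mul l, G b := by
  intro b hb
  have hl' : ∀ b ∈ l.reverse, G b := fun b hb => hl b (by simpa using hb)
  exact scl_good G mul hmul 1 _ (tsh_good G add hadd _ hl') b (by simpa [lft] using hb)

theorem toB_good (hadd : ∀ a b, G a → G b → G (add a b))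
    (l : List α) (hl : ∀ b ∈ l, G b) : ∀ b ∈ toB add l, G b := by
  intro b hb
  have hl' : ∀ b ∈ l.reverse, G b := fun b hb => hl b (by simpa using hb)
  exact tsh_good G add hadd _ hl' b (by simpa [toB] using hb)

theorem rgt_length (l : List α) : (rgt add mul l).length = l.length := by
  simp [rgt, scl_length, tsh_length]

theorem lft_length (l : List α) : (lft add mul l).length = l.length := by
  simp [lft, scl_length, tsh_length]

theorem toB_length (l : List α) : (toB add l).length = l.length := by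
  simp [toB, tsh_length]

theorem hev_nonneg (l : List α) (hl : ∀ b ∈ l, 0 ≤ φ b) (u v : ℝ) (hu : 0 ≤ u) (hv : 0 ≤ v) :
    0 ≤ hev φ l u v := by
  induction l with
  | nil => simp [hev]
  | cons a l ih =>
    simp only [hev]
    have := ih fun b hb => hl b (by simp [hb])
    have := hl a (by simp)
    positivity

theorem hev_pos (l : List α) (hne : l ≠ []) (hl : ∀ b ∈ l, 0 < φ b) (u v : ℝ) (hu : 0 ≤ u)
    (hv : 0 ≤ v) (huv : 0 < u + v) : 0 < hev φ l u v := by
  induction l with
  | nil => exact absurd rfl hne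
  | cons a l ih =>
    have ha := hl a (by simp)
    simp only [hev]
    rcases eq_or_ne l [] with rfl | hl0
    · simpa [hev] using ha
    · have h := ih hl0 fun b hb => hl b (by simp [hb])
      rcases hv.eq_or_lt with rfl | hv'
      · have hu' : 0 < u := by linarith
        have : 0 < φ a * u ^ l.length := by positivity
        simpa using this
      · have : 0 ≤ φ a * u ^ l.length := by positivity
        have : 0 < v * hev φ l u v := by positivity
        linarith

end generic

/-! ### Integer rows -/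

/-- row addition (equal lengths) -/
def radd : List ℤ → List ℤ → List ℤ
  | [], _ => []
  | _, [] => []
  | a :: l, b :: m => (a + b) :: radd l m

/-- row scaling -/
def rmul (k : ℤ) : List ℤ → List ℤ
  | [] => []
  | a :: l => (k * a) :: rmul k l

/-- strict positivity of an integer -/
def posb : ℤ → Bool
  | .ofNat n => Nat.blt 0 n
  | .negSucc _ => false

/-- nonnegativity of an integer -/
def nnb : ℤ → Bool
  | .ofNat _ => true
  | .negSucc _ => false

theorem posb_iff (a : ℤ) (h : posb a = true) : 0 < a := by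
  cases a with
  | ofNat n =>
    simp only [posb, Nat.blt_eq] at h
    simpa using h
  | negSucc n => simp [posb] at h

theorem nnb_iff (a : ℤ) (h : nnb a = true) : 0 ≤ a := by
  cases a with
  | ofNat n => simp
  | negSucc n => simp [nnb] at h

theorem radd_length (l m : List ℤ) (h : l.length = m.length) : (radd l m).length = l.length := by
  induction l generalizing m with
  | nil => simp [radd]
  | cons a l ih =>
    cases m with
    | nil => simp at h
    | cons b m => simp only [radd, List.length_cons] at h ⊢; rw [ih m (by omega)]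

theorem rmul_length (k : ℤ) (l : List ℤ) : (rmul k l).length = l.length := by
  induction l with
  | nil => simp [rmul]
  | cons a l ih => simp [rmul, ih]

/-- row evaluation -/
abbrev hr (u v : ℝ) (r : List ℤ) : ℝ := hev (fun a : ℤ => (a : ℝ)) r u v

theorem hr_radd (l m : List ℤ) (h : l.length = m.length) (u v : ℝ) :
    hr u v (radd l m) = hr u v l + hr u v m := by
  induction l generalizing m with
  | nil =>
    cases m with
    | nil => simp [hr, radd, hev]
    | cons b m => simp at h
  | cons a l ih =>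
    cases m with
    | nil => simp at h
    | cons b m =>
      have h' : l.length = m.length := by simpa using h
      have := ih m h'
      simp only [hr] at this
      simp only [hr, radd, hev, radd_length l m h', this, h']
      push_cast
      ring

theorem hr_rmul (k : ℤ) (l : List ℤ) (u v : ℝ) : hr u v (rmul k l) = k * hr u v l := by
  induction l with
  | nil => simp [hr, rmul, hev]
  | cons a l ih =>
    simp only [hr] at ih
    simp only [hr, rmul, hev, rmul_length, ih]
    push_cast
    ring

/-- two-variable homogeneous evaluation -/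
def hev2 (L : List (List ℤ)) (u v w z : ℝ) : ℝ := hev (hr u v) L w z

/-- all rows have the length `n` -/
def Rect (n : ℕ) (L : List (List ℤ)) : Prop := ∀ r ∈ L, r.length = n

/-- halves in the two directions -/
def yL (L : List (List ℤ)) : List (List ℤ) := lft radd rmul L
def yR (L : List (List ℤ)) : List (List ℤ) := rgt radd rmul L
def xL (L : List (List ℤ)) : List (List ℤ) := L.map (lft (· + ·) (· * ·))
def xR (L : List (List ℤ)) : List (List ℤ) := L.map (rgt (· + ·) (· * ·))

def allp (L : List (List ℤ)) : Bool := L.all fun r => r.all posb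
def alln (L : List (List ℤ)) : Bool := L.all fun r => r.all nnb

/-- the strict check along a tree -/
def chk : Tr → List (List ℤ) → Bool
  | .leaf, L => allp L
  | .sx a b, L => chk a (xL L) && chk b (xR L)
  | .sy a b, L => chk a (yL L) && chk b (yR L)

/-- the non-strict check along a tree -/
def chn : Tr → List (List ℤ) → Bool
  | .leaf, L => alln L
  | .sx a b, L => chn a (xL L) && chn b (xR L)
  | .sy a b, L => chn a (yL L) && chn b (yR L)

/-- automatic bisection, strict -/
def auto : ℕ → Bool → List (List ℤ) → Bool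
  | 0, _, L => allp L
  | f + 1, d, L => allp L || (match d with
    | true => auto f false (xL L) && auto f false (xR L)
    | false => auto f true (yL L) && auto f true (yR L))

/-- automatic bisection, non-strict -/
def auton : ℕ → Bool → List (List ℤ) → Bool
  | 0, _, L => alln L
  | f + 1, d, L => alln L || (match d with
    | true => auton f false (xL L) && auton f false (xR L)
    | false => auton f true (yL L) && auton f true (yR L))

theorem hevmap (f : List ℤ → List ℤ) (L : List (List ℤ)) (u v u' v' w z : ℝ)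
    (h : ∀ r ∈ L, hr u v (f r) = hr u' v' r) :
    hev2 (L.map f) u v w z = hev2 L u' v' w z := by
  unfold hev2
  induction L with
  | nil => simp [hev]
  | cons r L ih =>
    simp only [List.map_cons, hev, List.length_map]
    rw [h r (by simp), ih fun r hr => h r (by simp [hr])]

theorem hr_lft (r : List ℤ) (u v : ℝ) :
    hr u v (lft (· + ·) (· * ·) r) = hr (v + 2 * u) v r :=
  hev_lft (fun a : ℤ => (a : ℝ)) (fun _ => True) (· + ·) (· * ·) (by simp) (by simp) (by simp)
    r (by simp) u v

theorem hr_rgt (r : List ℤ) (u v : ℝ) :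
    hr u v (rgt (· + ·) (· * ·) r) = hr u (u + 2 * v) r :=
  hev_rgt (fun a : ℤ => (a : ℝ)) (fun _ => True) (· + ·) (· * ·) (by simp) (by simp) (by simp)
    r (by simp) u v

theorem hr_toB (r : List ℤ) (u v : ℝ) :
    hr u v (toB (· + ·) r) = hr (v + u) v r :=
  hev_toB (fun a : ℤ => (a : ℝ)) (fun _ => True) (· + ·) (by simp) (by simp)
    r (by simp) u v

theorem hev2_xL (L : List (List ℤ)) (u v w z : ℝ) :
    hev2 (xL L) u v w z = hev2 L (v + 2 * u) v w z :=
  hevmap _ L u v _ _ w z fun r _ => hr_lft r u v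

theorem hev2_xR (L : List (List ℤ)) (u v w z : ℝ) :
    hev2 (xR L) u v w z = hev2 L u (u + 2 * v) w z :=
  hevmap _ L u v _ _ w z fun r _ => hr_rgt r u v

theorem good_add (n : ℕ) (a b : List ℤ) (ha : a.length = n) (hb : b.length = n) :
    (radd a b).length = n := by rw [radd_length a b (by rw [ha, hb]), ha]

theorem good_mul (n : ℕ) (k : ℤ) (a : List ℤ) (ha : a.length = n) :
    (rmul k a).length = n := by rw [rmul_length, ha]

theorem hev2_yL (n : ℕ) (L : List (List ℤ)) (hL : Rect n L) (u v w z : ℝ) :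
    hev2 (yL L) u v w z = hev2 L u v (z + 2 * w) z :=
  hev_lft (hr u v) (fun r => r.length = n) radd rmul (good_add n)
    (fun a b ha hb => hr_radd a b (by rw [ha, hb]) u v) (fun k a _ => hr_rmul k a u v) L hL w z

theorem hev2_yR (n : ℕ) (L : List (List ℤ)) (hL : Rect n L) (u v w z : ℝ) :
    hev2 (yR L) u v w z = hev2 L u v w (w + 2 * z) :=
  hev_rgt (hr u v) (fun r => r.length = n) radd rmul (good_add n)
    (fun a b ha hb => hr_radd a b (by rw [ha, hb]) u v) (fun k a _ => hr_rmul k a u v) L hL w z

theorem rect_xL (n : ℕ) (L : List (List ℤ)) (hL : Rect n L) : Rect n (xL L) := by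
  intro r hr
  obtain ⟨s, hs, rfl⟩ := List.mem_map.1 hr
  rw [lft_length]; exact hL s hs

theorem rect_xR (n : ℕ) (L : List (List ℤ)) (hL : Rect n L) : Rect n (xR L) := by
  intro r hr
  obtain ⟨s, hs, rfl⟩ := List.mem_map.1 hr
  rw [rgt_length]; exact hL s hs

theorem rect_yL (n : ℕ) (L : List (List ℤ)) (hL : Rect n L) : Rect n (yL L) :=
  lft_good (fun r : List ℤ => r.length = n) radd rmul (good_add n) (fun k a ha => good_mul n k a ha) L hL

theorem rect_yR (n : ℕ) (L : List (List ℤ)) (hL : Rect n L) : Rect n (yR L) :=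
  rgt_good (fun r : List ℤ => r.length = n) radd rmul (good_add n) (fun k a ha => good_mul n k a ha) L hL

theorem len_xL (L : List (List ℤ)) : (xL L).length = L.length := by simp [xL]
theorem len_xR (L : List (List ℤ)) : (xR L).length = L.length := by simp [xR]
theorem len_yL (L : List (List ℤ)) : (yL L).length = L.length := lft_length _ _ _
theorem len_yR (L : List (List ℤ)) : (yR L).length = L.length := rgt_length _ _ _

/-- strict positivity on the closed quadrants -/
def Pos (L : List (List ℤ)) : Prop :=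
  ∀ u v w z : ℝ, 0 ≤ u → 0 ≤ v → 0 ≤ w → 0 ≤ z → 0 < u + v → 0 < w + z → 0 < hev2 L u v w z

def NN (L : List (List ℤ)) : Prop :=
  ∀ u v w z : ℝ, 0 ≤ u → 0 ≤ v → 0 ≤ w → 0 ≤ z → 0 < u + v → 0 < w + z → 0 ≤ hev2 L u v w z

theorem pos_x (L : List (List ℤ)) (h1 : Pos (xL L)) (h2 : Pos (xR L)) : Pos L := by
  intro u v w z hu hv hw hz huv hwz
  rcases le_total v u with h | h
  · have := h1 ((u - v) / 2) v w z (by linarith) hv hw hz (by linarith) hwz
    rw [hev2_xL] at this
    have e : v + 2 * ((u - v) / 2) = u := by ring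
    rwa [e] at this
  · have := h2 u ((v - u) / 2) w z hu (by linarith) hw hz (by linarith) hwz
    rw [hev2_xR] at this
    have e : u + 2 * ((v - u) / 2) = v := by ring
    rwa [e] at this

theorem nn_x (L : List (List ℤ)) (h1 : NN (xL L)) (h2 : NN (xR L)) : NN L := by
  intro u v w z hu hv hw hz huv hwz
  rcases le_total v u with h | h
  · have := h1 ((u - v) / 2) v w z (by linarith) hv hw hz (by linarith) hwz
    rw [hev2_xL] at this
    have e : v + 2 * ((u - v) / 2) = u := by ring
    rwa [e] at this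
  · have := h2 u ((v - u) / 2) w z hu (by linarith) hw hz (by linarith) hwz
    rw [hev2_xR] at this
    have e : u + 2 * ((v - u) / 2) = v := by ring
    rwa [e] at this

theorem pos_y (n : ℕ) (L : List (List ℤ)) (hL : Rect n L) (h1 : Pos (yL L)) (h2 : Pos (yR L)) :
    Pos L := by
  intro u v w z hu hv hw hz huv hwz
  rcases le_total z w with h | h
  · have := h1 u v ((w - z) / 2) z hu hv (by linarith) hz huv (by linarith)
    rw [hev2_yL n L hL] at this
    have e : z + 2 * ((w - z) / 2) = w := by ring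
    rwa [e] at this
  · have := h2 u v w ((z - w) / 2) hu hv hw (by linarith) huv (by linarith)
    rw [hev2_yR n L hL] at this
    have e : w + 2 * ((z - w) / 2) = z := by ring
    rwa [e] at this

theorem nn_y (n : ℕ) (L : List (List ℤ)) (hL : Rect n L) (h1 : NN (yL L)) (h2 : NN (yR L)) :
    NN L := by
  intro u v w z hu hv hw hz huv hwz
  rcases le_total z w with h | h
  · have := h1 u v ((w - z) / 2) z hu hv (by linarith) hz huv (by linarith)
    rw [hev2_yL n L hL] at this
    have e : z + 2 * ((w - z) / 2) = w := by ring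
    rwa [e] at this
  · have := h2 u v w ((z - w) / 2) hu hv hw (by linarith) huv (by linarith)
    rw [hev2_yR n L hL] at this
    have e : w + 2 * ((z - w) / 2) = z := by ring
    rwa [e] at this

theorem pos_leaf (n : ℕ) (hn : n ≠ 0) (L : List (List ℤ)) (hne : L ≠ []) (hL : Rect n L)
    (h : allp L = true) : Pos L := by
  intro u v w z hu hv hw hz huv hwz
  unfold hev2
  refine hev_pos _ L hne ?_ w z hw hz hwz
  intro r hr'
  refine hev_pos _ r ?_ ?_ u v hu hv huv
  · intro hr0
    have := hL r hr'
    rw [hr0] at this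
    simp at this
    exact hn this.symm
  · intro a ha
    have h1 := List.all_eq_true.1 h r hr'
    have h2 := List.all_eq_true.1 h1 a ha
    have := posb_iff a h2
    exact_mod_cast this

theorem nn_leaf (L : List (List ℤ)) (h : alln L = true) : NN L := by
  intro u v w z hu hv hw hz huv hwz
  unfold hev2
  refine hev_nonneg _ L ?_ w z hw hz
  intro r hr'
  refine hev_nonneg _ r ?_ u v hu hv
  intro a ha
  have h1 := List.all_eq_true.1 h r hr'
  have h2 := List.all_eq_true.1 h1 a ha
  have := nnb_iff a h2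
  exact_mod_cast this

theorem pos_of_chk (n : ℕ) (hn : n ≠ 0) (t : Tr) (L : List (List ℤ)) (hne : L.length ≠ 0)
    (hL : Rect n L) (h : chk t L = true) : Pos L := by
  induction t generalizing L with
  | leaf => exact pos_leaf n hn L (by intro h0; simp [h0] at hne) hL h
  | sx a b iha ihb =>
    simp only [chk, Bool.and_eq_true] at h
    exact pos_x L (iha _ (by rw [len_xL]; exact hne) (rect_xL n L hL) h.1)
      (ihb _ (by rw [len_xR]; exact hne) (rect_xR n L hL) h.2)
  | sy a b iha ihb =>
    simp only [chk, Bool.and_eq_true] at h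
    exact pos_y n L hL (iha _ (by rw [len_yL]; exact hne) (rect_yL n L hL) h.1)
      (ihb _ (by rw [len_yR]; exact hne) (rect_yR n L hL) h.2)

theorem nn_of_chn (n : ℕ) (t : Tr) (L : List (List ℤ))
    (hL : Rect n L) (h : chn t L = true) : NN L := by
  induction t generalizing L with
  | leaf => exact nn_leaf L h
  | sx a b iha ihb =>
    simp only [chn, Bool.and_eq_true] at h
    exact nn_x L (iha _ (rect_xL n L hL) h.1) (ihb _ (rect_xR n L hL) h.2)
  | sy a b iha ihb =>
    simp only [chn, Bool.and_eq_true] at h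
    exact nn_y n L hL (iha _ (rect_yL n L hL) h.1) (ihb _ (rect_yR n L hL) h.2)

theorem pos_of_auto (n : ℕ) (hn : n ≠ 0) (f : ℕ) (d : Bool) (L : List (List ℤ))
    (hne : L.length ≠ 0) (hL : Rect n L) (h : auto f d L = true) : Pos L := by
  induction f generalizing L d with
  | zero => exact pos_leaf n hn L (by intro h0; simp [h0] at hne) hL h
  | succ f ih =>
    simp only [auto, Bool.or_eq_true] at h
    rcases h with h | h
    · exact pos_leaf n hn L (by intro h0; simp [h0] at hne) hL h
    · cases d with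
      | true =>
        simp only [Bool.and_eq_true] at h
        exact pos_x L (ih _ _ (by rw [len_xL]; exact hne) (rect_xL n L hL) h.1)
          (ih _ _ (by rw [len_xR]; exact hne) (rect_xR n L hL) h.2)
      | false =>
        simp only [Bool.and_eq_true] at h
        exact pos_y n L hL (ih _ _ (by rw [len_yL]; exact hne) (rect_yL n L hL) h.1)
          (ih _ _ (by rw [len_yR]; exact hne) (rect_yR n L hL) h.2)

theorem nn_of_auton (n : ℕ) (f : ℕ) (d : Bool) (L : List (List ℤ))
    (hL : Rect n L) (h : auton f d L = true) : NN L := by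
  induction f generalizing L d with
  | zero => exact nn_leaf L h
  | succ f ih =>
    simp only [auton, Bool.or_eq_true] at h
    rcases h with h | h
    · exact nn_leaf L h
    · cases d with
      | true =>
        simp only [Bool.and_eq_true] at h
        exact nn_x L (ih _ _ (rect_xL n L hL) h.1) (ih _ _ (rect_xR n L hL) h.2)
      | false =>
        simp only [Bool.and_eq_true] at h
        exact nn_y n L hL (ih _ _ (rect_yL n L hL) h.1) (ih _ _ (rect_yR n L hL) h.2)

/-! ### Power basis, expressions -/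

/-- evaluation of a row in the power basis -/
def ev : List ℤ → ℝ → ℝ
  | [], _ => 0
  | a :: l, s => a + s * ev l s

/-- evaluation of a bivariate list in the power basis -/
def ev2 : List (List ℤ) → ℝ → ℝ → ℝ
  | [], _, _ => 0
  | r :: L, s, t => ev r s + t * ev2 L s t

/-- padded addition -/
def padd : List ℤ → List ℤ → List ℤ
  | [], m => m
  | a :: l, [] => a :: l
  | a :: l, b :: m => (a + b) :: padd l m

def pmul : List ℤ → List ℤ → List ℤ
  | [], _ => []
  | a :: l, m => padd (rmul a m) (0 :: pmul l m)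

def padd2 : List (List ℤ) → List (List ℤ) → List (List ℤ)
  | [], m => m
  | a :: l, [] => a :: l
  | a :: l, b :: m => padd a b :: padd2 l m

def smul2 (a : List ℤ) : List (List ℤ) → List (List ℤ)
  | [] => []
  | b :: m => pmul a b :: smul2 a m

def kmul2 (k : ℤ) : List (List ℤ) → List (List ℤ)
  | [] => []
  | b :: m => rmul k b :: kmul2 k m

def pmul2 : List (List ℤ) → List (List ℤ) → List (List ℤ)
  | [], _ => []
  | a :: l, m => padd2 (smul2 a m) ([] :: pmul2 l m)

theorem ev_rmul (k : ℤ) (l : List ℤ) (s : ℝ) : ev (rmul k l) s = k * ev l s := by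
  induction l with
  | nil => simp [rmul, ev]
  | cons a l ih => simp only [rmul, ev, ih]; push_cast; ring

theorem ev_padd (l m : List ℤ) (s : ℝ) : ev (padd l m) s = ev l s + ev m s := by
  induction l generalizing m with
  | nil => simp [padd, ev]
  | cons a l ih =>
    cases m with
    | nil => simp [padd, ev]
    | cons b m => simp only [padd, ev, ih]; push_cast; ring

theorem ev_pmul (l m : List ℤ) (s : ℝ) : ev (pmul l m) s = ev l s * ev m s := by
  induction l with
  | nil => simp [pmul, ev]
  | cons a l ih => simp only [pmul, ev_padd, ev_rmul, ev, ih]; push_cast; ring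

theorem ev2_padd2 (l m : List (List ℤ)) (s t : ℝ) :
    ev2 (padd2 l m) s t = ev2 l s t + ev2 m s t := by
  induction l generalizing m with
  | nil => simp [padd2, ev2]
  | cons a l ih =>
    cases m with
    | nil => simp [padd2, ev2]
    | cons b m => simp only [padd2, ev2, ih, ev_padd]; ring

theorem ev2_smul2 (a : List ℤ) (m : List (List ℤ)) (s t : ℝ) :
    ev2 (smul2 a m) s t = ev a s * ev2 m s t := by
  induction m with
  | nil => simp [smul2, ev2]
  | cons b m ih => simp only [smul2, ev2, ih, ev_pmul]; ring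

theorem ev2_kmul2 (k : ℤ) (m : List (List ℤ)) (s t : ℝ) :
    ev2 (kmul2 k m) s t = k * ev2 m s t := by
  induction m with
  | nil => simp [kmul2, ev2]
  | cons b m ih => simp only [kmul2, ev2, ih, ev_rmul]; ring

theorem ev2_pmul2 (l m : List (List ℤ)) (s t : ℝ) :
    ev2 (pmul2 l m) s t = ev2 l s t * ev2 m s t := by
  induction l with
  | nil => simp [pmul2, ev2]
  | cons a l ih => simp only [pmul2, ev2_padd2, ev2_smul2, ev2, ev, ih]; ring

/-- bivariate polynomial expressions -/
inductive PE : Type
  | q : ℤ → ℕ → PE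
  | x : PE
  | y : PE
  | add : PE → PE → PE
  | sub : PE → PE → PE
  | mul : PE → PE → PE
  | neg : PE → PE
  | pow : PE → ℕ → PE

namespace PE

/-- real value of an expression -/
noncomputable def eval (x y : ℝ) : PE → ℝ
  | .q n d => (n : ℝ) / (d : ℝ)
  | .x => x
  | .y => y
  | .add a b => a.eval x y + b.eval x y
  | .sub a b => a.eval x y - b.eval x y
  | .mul a b => a.eval x y * b.eval x y
  | .neg a => - a.eval x y
  | .pow a n => (a.eval x y) ^ n

/-- power of a pair (denominator, list) -/
def ppow (p : ℕ × List (List ℤ)) : ℕ → ℕ × List (List ℤ)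
  | 0 => (1, [[1]])
  | 1 => p
  | n + 2 => let r := ppow p (n + 1); (p.1 * r.1, pmul2 p.2 r.2)

def paddp (p r : ℕ × List (List ℤ)) : ℕ × List (List ℤ) :=
  match Nat.beq p.1 r.1 with
  | true => (p.1, padd2 p.2 r.2)
  | false => (p.1 * r.1, padd2 (kmul2 (Int.ofNat r.1) p.2) (kmul2 (Int.ofNat p.1) r.2))

/-- compilation to the unit square: `x = (xa + (xb - xa) s)/xd`, `y = (ya + (yb - ya) t)/yd` -/
def comp (xa xb : ℤ) (xd : ℕ) (ya yb : ℤ) (yd : ℕ) : PE → ℕ × List (List ℤ)
  | .q n d => (d, [[n]])
  | .x => (xd, [[xa, xb - xa]])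
  | .y => (yd, [[ya], [yb - ya]])
  | .add a b => paddp (comp xa xb xd ya yb yd a) (comp xa xb xd ya yb yd b)
  | .sub a b =>
    let r := comp xa xb xd ya yb yd b
    paddp (comp xa xb xd ya yb yd a) (r.1, kmul2 (-1) r.2)
  | .mul a b =>
    let p := comp xa xb xd ya yb yd a
    let r := comp xa xb xd ya yb yd b
    (p.1 * r.1, pmul2 p.2 r.2)
  | .neg a => let p := comp xa xb xd ya yb yd a; (p.1, kmul2 (-1) p.2)
  | .pow a n => ppow (comp xa xb xd ya yb yd a) n

/-- all denominators occurring are positive -/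
def okd : PE → Bool
  | .q _ d => Nat.blt 0 d
  | .x => true
  | .y => true
  | .add a b => okd a && okd b
  | .sub a b => okd a && okd b
  | .mul a b => okd a && okd b
  | .neg a => okd a
  | .pow a _ => okd a

theorem ppow_spec (p : ℕ × List (List ℤ)) (s t : ℝ) (v : ℝ) (hp : p.1 ≠ 0)
    (h : ev2 p.2 s t = p.1 * v) (n : ℕ) :
    (ppow p n).1 ≠ 0 ∧ ev2 (ppow p n).2 s t = (ppow p n).1 * v ^ n := by
  induction n using Nat.strong_induction_on with
  | _ n ih =>
    match n with
    | 0 => simp [ppow, ev2, ev]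
    | 1 => simp [ppow, h, hp]
    | n + 2 =>
      obtain ⟨h1, h2⟩ := ih (n + 1) (by omega)
      refine ⟨?_, ?_⟩
      · simp only [ppow]; exact Nat.mul_ne_zero hp h1
      · simp only [ppow, ev2_pmul2, h, h2]
        push_cast
        ring

theorem paddp_spec (p r : ℕ × List (List ℤ)) (s t : ℝ) (v w : ℝ) (hp : p.1 ≠ 0) (hr : r.1 ≠ 0)
    (h : ev2 p.2 s t = p.1 * v) (h' : ev2 r.2 s t = r.1 * w) :
    (paddp p r).1 ≠ 0 ∧ ev2 (paddp p r).2 s t = (paddp p r).1 * (v + w) := by
  unfold paddp
  rcases hb : Nat.beq p.1 r.1 with _ | _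
  · refine ⟨Nat.mul_ne_zero hp hr, ?_⟩
    simp only [ev2_padd2, ev2_kmul2, h, h']
    push_cast
    simp only [Int.ofNat_eq_natCast, Int.cast_natCast]
    ring
  · refine ⟨hp, ?_⟩
    have := Nat.eq_of_beq_eq_true hb
    simp only [ev2_padd2, h, h', ← this]
    ring

theorem comp_spec (xa xb : ℤ) (xd : ℕ) (ya yb : ℤ) (yd : ℕ) (hxd : xd ≠ 0) (hyd : yd ≠ 0)
    (e : PE) (he : e.okd = true) (s t : ℝ) :
    (comp xa xb xd ya yb yd e).1 ≠ 0 ∧
    ev2 (comp xa xb xd ya yb yd e).2 s t = (comp xa xb xd ya yb yd e).1 *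
      e.eval ((xa + (xb - xa) * s) / xd) ((ya + (yb - ya) * t) / yd) := by
  have hxd' : (xd : ℝ) ≠ 0 := by exact_mod_cast hxd
  have hyd' : (yd : ℝ) ≠ 0 := by exact_mod_cast hyd
  induction e with
  | q n d =>
    simp only [okd, Nat.blt_eq] at he
    have hd : (d : ℝ) ≠ 0 := by exact_mod_cast he.ne'
    refine ⟨he.ne', ?_⟩
    simp only [comp, ev2, ev, eval]
    field_simp
    ring
  | x =>
    refine ⟨hxd, ?_⟩
    simp only [comp, ev2, ev, eval]
    push_cast
    field_simp
    ring
  | y =>
    refine ⟨hyd, ?_⟩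
    simp only [comp, ev2, ev, eval]
    push_cast
    field_simp
    ring
  | add a b iha ihb =>
    simp only [okd, Bool.and_eq_true] at he
    obtain ⟨h1, h2⟩ := iha he.1
    obtain ⟨h3, h4⟩ := ihb he.2
    exact paddp_spec _ _ s t _ _ h1 h3 h2 h4
  | sub a b iha ihb =>
    simp only [okd, Bool.and_eq_true] at he
    obtain ⟨h1, h2⟩ := iha he.1
    obtain ⟨h3, h4⟩ := ihb he.2
    have h5 : ev2 (kmul2 (-1) (comp xa xb xd ya yb yd b).2) s t =
      (comp xa xb xd ya yb yd b).1 *
        (-(b.eval ((xa + (xb - xa) * s) / xd) ((ya + (yb - ya) * t) / yd))) := by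
      rw [ev2_kmul2, h4]; push_cast; ring
    have := paddp_spec (comp xa xb xd ya yb yd a)
      ((comp xa xb xd ya yb yd b).1, kmul2 (-1) (comp xa xb xd ya yb yd b).2) s t _ _ h1 h3 h2 h5
    simp only [comp, eval, sub_eq_add_neg] at this ⊢
    exact this
  | mul a b iha ihb =>
    simp only [okd, Bool.and_eq_true] at he
    obtain ⟨h1, h2⟩ := iha he.1
    obtain ⟨h3, h4⟩ := ihb he.2
    refine ⟨Nat.mul_ne_zero h1 h3, ?_⟩
    simp only [comp, ev2_pmul2, h2, h4, eval]
    push_cast
    ring
  | neg a iha =>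
    obtain ⟨h1, h2⟩ := iha he
    refine ⟨h1, ?_⟩
    simp only [comp, ev2_kmul2, h2, eval]
    push_cast
    ring
  | pow a n iha =>
    obtain ⟨h1, h2⟩ := iha he
    exact ppow_spec _ s t _ h1 h2 n

end PE

/-! ### Padding and conversion -/

/-- maximal row length -/
def mlen : List (List ℤ) → ℕ
  | [] => 0
  | r :: L => max r.length (mlen L)

/-- pad (or cut, never used) a row to the length `n` -/
def padr : ℕ → List ℤ → List ℤ
  | 0, _ => []
  | n + 1, [] => 0 :: padr n []
  | n + 1, a :: l => a :: padr n l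

theorem padr_length (n : ℕ) (l : List ℤ) : (padr n l).length = n := by
  induction n generalizing l with
  | zero => cases l <;> simp [padr]
  | succ n ih => cases l <;> simp [padr, ih]

theorem ev_padr (n : ℕ) (l : List ℤ) (h : l.length ≤ n) (s : ℝ) : ev (padr n l) s = ev l s := by
  induction n generalizing l with
  | zero =>
    have : l = [] := List.length_eq_zero_iff.1 (by omega)
    subst this
    simp [padr]
  | succ n ih =>
    cases l with
    | nil => simp [padr, ev, ih [] (by simp)]
    | cons a l => simp [padr, ev, ih l (by simpa using h)]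

theorem le_mlen (L : List (List ℤ)) : ∀ r ∈ L, r.length ≤ mlen L := by
  induction L with
  | nil => simp
  | cons r L ih =>
    intro r' hr'
    simp only [List.mem_cons] at hr'
    simp only [mlen]
    rcases hr' with rfl | h
    · exact le_max_left _ _
    · exact (ih r' h).trans (le_max_right _ _)

/-- homogeneous evaluation at `(1, s)` is the power basis evaluation -/
theorem hr_one (l : List ℤ) (s : ℝ) : hr 1 s l = ev l s := by
  induction l with
  | nil => simp [hr, hev, ev]
  | cons a l ih =>
    simp only [hr] at ih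
    simp [hr, hev, ev, ih]

theorem hev2_one (L : List (List ℤ)) (s t : ℝ) : hev2 L 1 s 1 t = ev2 L s t := by
  unfold hev2
  induction L with
  | nil => simp [hev, ev2]
  | cons r L ih => simp only [hev, ev2, ih]; rw [hr_one]; simp

/-- conversion to the Bernstein basis in both variables -/
def conv (L : List (List ℤ)) : List (List ℤ) :=
  toB radd (L.map fun r => toB (· + ·) (padr (mlen L) r))

theorem conv_rect (L : List (List ℤ)) : Rect (mlen L) (conv L) := by
  refine toB_good (fun r : List ℤ => r.length = mlen L) radd (good_add (mlen L)) _ ?_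
  intro r hr
  obtain ⟨s, hs, rfl⟩ := List.mem_map.1 hr
  rw [toB_length, padr_length]

theorem conv_length (L : List (List ℤ)) : (conv L).length = L.length := by
  simp [conv, toB_length]

theorem hev2_conv (L : List (List ℤ)) (s t : ℝ) :
    hev2 (conv L) (1 - s) s (1 - t) t = ev2 L s t := by
  have hrect : ∀ r ∈ (L.map fun r => toB (· + ·) (padr (mlen L) r)), r.length = mlen L := by
    intro r hr
    obtain ⟨s, hs, rfl⟩ := List.mem_map.1 hr
    rw [toB_length, padr_length]
  have h1 := hev_toB (hr (1 - s) s) (fun r : List ℤ => r.length = mlen L) radd (good_add (mlen L))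
    (fun a b ha hb => hr_radd a b (by rw [ha, hb]) (1 - s) s) _ hrect (1 - t) t
  have h2 : t + (1 - t) = 1 := by ring
  rw [h2] at h1
  have h3 : hev2 (L.map fun r => toB (· + ·) (padr (mlen L) r)) (1 - s) s 1 t
      = hev2 (L.map fun r => padr (mlen L) r) 1 s 1 t := by
    rw [show (L.map fun r => toB (· + ·) (padr (mlen L) r)) =
      (L.map fun r => padr (mlen L) r).map (fun r => toB (· + ·) r) by simp]
    refine hevmap _ _ _ _ _ _ _ _ ?_
    intro r _
    rw [hr_toB]
    congr 1
    ring
  have h4 : hev2 (L.map fun r => padr (mlen L) r) 1 s 1 t = hev2 L 1 s 1 t := by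
    refine hevmap _ _ _ _ _ _ _ _ ?_
    intro r hr
    rw [hr_one, hr_one, ev_padr _ _ (le_mlen L r hr)]
  rw [← hev2_one, ← h4, ← h3]
  exact h1

theorem conv_pos (L : List (List ℤ)) (h : Pos (conv L)) (s t : ℝ) (hs : 0 ≤ s) (hs1 : s ≤ 1)
    (ht : 0 ≤ t) (ht1 : t ≤ 1) : 0 < ev2 L s t := by
  rw [← hev2_conv]
  exact h _ _ _ _ (by linarith) hs (by linarith) ht (by linarith) (by linarith)

theorem conv_nn (L : List (List ℤ)) (h : NN (conv L)) (s t : ℝ) (hs : 0 ≤ s) (hs1 : s ≤ 1)
    (ht : 0 ≤ t) (ht1 : t ≤ 1) : 0 ≤ ev2 L s t := by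
  rw [← hev2_conv]
  exact h _ _ _ _ (by linarith) hs (by linarith) ht (by linarith) (by linarith)

/-- nondegeneracy of a list -/
def nemp (L : List (List ℤ)) : Bool :=
  match L with
  | [] => false
  | [] :: _ => false
  | (_ :: _) :: _ => true

theorem nemp_spec (L : List (List ℤ)) (h : nemp L = true) : L.length ≠ 0 ∧ mlen L ≠ 0 := by
  match L with
  | [] => simp [nemp] at h
  | [] :: _ => simp [nemp] at h
  | (a :: l) :: M =>
    refine ⟨by simp, ?_⟩
    simp only [mlen, List.length_cons]
    have := le_max_left (l.length + 1) (mlen M)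
    omega

namespace PE

/-- The strict check on `[xa/xd, xb/xd] × [ya/yd, yb/yd]` along the tree `t`. -/
def chk (e : PE) (xa xb : ℤ) (xd : ℕ) (ya yb : ℤ) (yd : ℕ) (t : Tr) : Bool :=
  okd e && Nat.blt 0 xd && Nat.blt 0 yd &&
    (let L := (comp xa xb xd ya yb yd e).2
     nemp L && Bern.chk t (conv L))

/-- The non-strict check. -/
def chn (e : PE) (xa xb : ℤ) (xd : ℕ) (ya yb : ℤ) (yd : ℕ) (t : Tr) : Bool :=
  okd e && Nat.blt 0 xd && Nat.blt 0 yd && Bern.chn t (conv (comp xa xb xd ya yb yd e).2)

/-- The strict check with automatic bisection (depth at most `f`, first in `x`). -/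
def auto (e : PE) (xa xb : ℤ) (xd : ℕ) (ya yb : ℤ) (yd : ℕ) (f : ℕ) : Bool :=
  okd e && Nat.blt 0 xd && Nat.blt 0 yd &&
    (let L := (comp xa xb xd ya yb yd e).2
     nemp L && Bern.auto f true (conv L))

/-- The non-strict check with automatic bisection. -/
def auton (e : PE) (xa xb : ℤ) (xd : ℕ) (ya yb : ℤ) (yd : ℕ) (f : ℕ) : Bool :=
  okd e && Nat.blt 0 xd && Nat.blt 0 yd && Bern.auton f true (conv (comp xa xb xd ya yb yd e).2)

theorem exists_unit (a b : ℤ) (d : ℕ) (hd : d ≠ 0) (x : ℝ) (h1 : (a : ℝ) / d ≤ x)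
    (h2 : x ≤ (b : ℝ) / d) : ∃ s : ℝ, 0 ≤ s ∧ s ≤ 1 ∧ x = (a + (b - a) * s) / d := by
  have hd' : (0 : ℝ) < d := by positivity
  rcases eq_or_ne a b with rfl | hab
  · exact ⟨0, le_rfl, zero_le_one, by simp; linarith⟩
  · have h3 : (a : ℝ) / d ≤ (b : ℝ) / d := h1.trans h2
    have h4 : (a : ℝ) ≤ b := by
      rwa [div_le_div_iff_of_pos_right hd'] at h3
    have h5 : (a : ℝ) ≠ b := by exact_mod_cast hab
    have h6 : (0 : ℝ) < b - a := by
      have := lt_of_le_of_ne h4 h5
      linarith
    rw [div_le_iff₀ hd'] at h1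
    rw [le_div_iff₀ hd'] at h2
    refine ⟨(x * d - a) / (b - a), div_nonneg (by linarith) h6.le, ?_, ?_⟩
    · rw [div_le_one h6]; linarith
    · field_simp
      ring

theorem core (e : PE) (xa xb : ℤ) (xd : ℕ) (ya yb : ℤ) (yd : ℕ) (hxd : xd ≠ 0) (hyd : yd ≠ 0)
    (he : e.okd = true) (x y : ℝ) (hx1 : (xa : ℝ) / xd ≤ x) (hx2 : x ≤ (xb : ℝ) / xd)
    (hy1 : (ya : ℝ) / yd ≤ y) (hy2 : y ≤ (yb : ℝ) / yd) :
    ∃ s t D : ℝ, 0 ≤ s ∧ s ≤ 1 ∧ 0 ≤ t ∧ t ≤ 1 ∧ 0 < D ∧
      ev2 (comp xa xb xd ya yb yd e).2 s t = D * e.eval x y := by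
  obtain ⟨s, hs0, hs1, hs⟩ := exists_unit xa xb xd hxd x hx1 hx2
  obtain ⟨t, ht0, ht1, ht⟩ := exists_unit ya yb yd hyd y hy1 hy2
  obtain ⟨h1, h2⟩ := comp_spec xa xb xd ya yb yd hxd hyd e he s t
  refine ⟨s, t, ((comp xa xb xd ya yb yd e).1 : ℝ), hs0, hs1, ht0, ht1, ?_, ?_⟩
  · positivity
  · rw [hs, ht]; exact h2

theorem pos_of_chk (e : PE) (xa xb : ℤ) (xd : ℕ) (ya yb : ℤ) (yd : ℕ) (t : Tr)
    (h : chk e xa xb xd ya yb yd t = true) (x y : ℝ) (hx1 : (xa : ℝ) / xd ≤ x)
    (hx2 : x ≤ (xb : ℝ) / xd) (hy1 : (ya : ℝ) / yd ≤ y) (hy2 : y ≤ (yb : ℝ) / yd) :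
    0 < e.eval x y := by
  simp only [chk, Bool.and_eq_true, Nat.blt_eq] at h
  obtain ⟨⟨⟨he, hxd⟩, hyd⟩, hn, hc⟩ := h
  obtain ⟨s, t', D, hs0, hs1, ht0, ht1, hD, hE⟩ :=
    core e xa xb xd ya yb yd hxd.ne' hyd.ne' he x y hx1 hx2 hy1 hy2
  obtain ⟨n1, n2⟩ := nemp_spec _ hn
  have := conv_pos _ (Bern.pos_of_chk _ n2 t _ (by rw [conv_length]; exact n1)
    (conv_rect _) hc) s t' hs0 hs1 ht0 ht1
  rw [hE] at this
  exact (pos_iff_pos_of_mul_pos this).1 hD

theorem pos_of_auto (e : PE) (xa xb : ℤ) (xd : ℕ) (ya yb : ℤ) (yd : ℕ) (f : ℕ)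
    (h : auto e xa xb xd ya yb yd f = true) (x y : ℝ) (hx1 : (xa : ℝ) / xd ≤ x)
    (hx2 : x ≤ (xb : ℝ) / xd) (hy1 : (ya : ℝ) / yd ≤ y) (hy2 : y ≤ (yb : ℝ) / yd) :
    0 < e.eval x y := by
  simp only [auto, Bool.and_eq_true, Nat.blt_eq] at h
  obtain ⟨⟨⟨he, hxd⟩, hyd⟩, hn, hc⟩ := h
  obtain ⟨s, t', D, hs0, hs1, ht0, ht1, hD, hE⟩ :=
    core e xa xb xd ya yb yd hxd.ne' hyd.ne' he x y hx1 hx2 hy1 hy2
  obtain ⟨n1, n2⟩ := nemp_spec _ hn
  have := conv_pos _ (Bern.pos_of_auto _ n2 f true _ (by rw [conv_length]; exact n1)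
    (conv_rect _) hc) s t' hs0 hs1 ht0 ht1
  rw [hE] at this
  exact (pos_iff_pos_of_mul_pos this).1 hD

theorem nonneg_of_chn (e : PE) (xa xb : ℤ) (xd : ℕ) (ya yb : ℤ) (yd : ℕ) (t : Tr)
    (h : chn e xa xb xd ya yb yd t = true) (x y : ℝ) (hx1 : (xa : ℝ) / xd ≤ x)
    (hx2 : x ≤ (xb : ℝ) / xd) (hy1 : (ya : ℝ) / yd ≤ y) (hy2 : y ≤ (yb : ℝ) / yd) :
    0 ≤ e.eval x y := by
  simp only [chn, Bool.and_eq_true, Nat.blt_eq] at h
  obtain ⟨⟨⟨he, hxd⟩, hyd⟩, hc⟩ := h
  obtain ⟨s, t', D, hs0, hs1, ht0, ht1, hD, hE⟩ :=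
    core e xa xb xd ya yb yd hxd.ne' hyd.ne' he x y hx1 hx2 hy1 hy2
  have := conv_nn _ (Bern.nn_of_chn _ t _ (conv_rect _) hc) s t' hs0 hs1 ht0 ht1
  rw [hE] at this
  exact nonneg_of_mul_nonneg_right this hD

theorem nonneg_of_auton (e : PE) (xa xb : ℤ) (xd : ℕ) (ya yb : ℤ) (yd : ℕ) (f : ℕ)
    (h : auton e xa xb xd ya yb yd f = true) (x y : ℝ) (hx1 : (xa : ℝ) / xd ≤ x)
    (hx2 : x ≤ (xb : ℝ) / xd) (hy1 : (ya : ℝ) / yd ≤ y) (hy2 : y ≤ (yb : ℝ) / yd) :
    0 ≤ e.eval x y := by
  simp only [auton, Bool.and_eq_true, Nat.blt_eq] at h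
  obtain ⟨⟨⟨he, hxd⟩, hyd⟩, hc⟩ := h
  obtain ⟨s, t', D, hs0, hs1, ht0, ht1, hD, hE⟩ :=
    core e xa xb xd ya yb yd hxd.ne' hyd.ne' he x y hx1 hx2 hy1 hy2
  have := conv_nn _ (Bern.nn_of_auton _ f true _ (conv_rect _) hc) s t' hs0 hs1 ht0 ht1
  rw [hE] at this
  exact nonneg_of_mul_nonneg_right this hD

end PE

end AF06.Bern
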