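import Pool.Agent.Lib.MP_af06f6_co.Tools.PBernMain

/-! Examples of use of `kpos`, `knn`. -/

open AF06.Bern AF06.PB

namespace AF06.BernTest

/-- minimum `1/100` at `(1,1)` -/
def e1 : PE := .add (.add (.mul (.pow .x 2) (.pow .y 4)) (.mul (.pow .x 4) (.pow .y 2)))
  (.sub (.q 1 1) (.mul (.q 299 100) (.mul (.pow .x 2) (.pow .y 2))))

theorem t1' (x y : ℝ) (h : 0 ≤ x) (h2 : x ≤ 2) (h3 : 0 ≤ y) (h4 : y ≤ 2) :
    0 < x^2*y^4 + x^4*y^2 + 1 - 299/100 * (x^2*y^2) := by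
  have := pos_of_kpos e1 0 2 1 0 2 1 12 (by decide +kernel) x y (by simpa using h)
    (by simpa using h2) (by simpa using h3) (by simpa using h4)
  norm_num [e1, PE.eval] at this
  linarith

/-- degree `8 × 8`, 4489 nodes of bisection, about 3 seconds in the kernel -/
def e3 : PE := .add (.mul (.pow (.sub (.mul .x .y) (.q 1 1)) 2)
   (.add (.q 1 1) (.add (.mul (.pow .x 6) (.pow .y 3)) (.mul .x (.pow .y 6))))) (.q 1 1000)

theorem t3 (x y : ℝ) (h : 0 ≤ x) (h2 : x ≤ 4) (h3 : 0 ≤ y) (h4 : y ≤ 4) :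
    0 < (x*y-1)^2 * (1 + (x^6*y^3 + x*y^6)) + 1/1000 := by
  have := pos_of_kpos e3 0 4 1 0 4 1 24 (by decide +kernel) x y (by simpa using h)
    (by simpa using h2) (by simpa using h3) (by simpa using h4)
  norm_num [e3, PE.eval] at this
  norm_num
  linarith

end AF06.BernTest
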