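import Pool.Agent.Lib.MP_af06f6_co.Tools.AtBox

/-! Verified table of arctan enclosures (denominator `3 * 10^9`). -/

set_option linter.unusedVariables false

namespace AF06.At

open Real

/-- `lo/d ≤ π/4 ≤ hi/d`, `d = 3 * 10^9` -/
theorem pi4 : (2356194490 : ℝ) / 3000000000 ≤ π / 4 ∧ π / 4 ≤ (2356194491 : ℝ) / 3000000000 := by
  have h1 := Real.pi_gt_d20
  have h2 := Real.pi_lt_d20
  constructor <;> linarith

/-- the check of a table entry for `d = 3 * 10^9` -/
def tabChk (e : Ent) : Bool :=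
  Nat.blt 0 e.cq && Nat.blt 0 e.cp &&
  (if 2 * e.cp ≤ e.cq then Atan.atanChk e.cp e.cq 10 e.lo e.hi 3000000000
   else if 2 * e.cq ≤ e.cp then
    Atan.atanChk e.cq e.cp 10 (4712388982 - e.hi) (4712388980 - e.lo) 3000000000
   else if e.cq ≤ e.cp then
    Atan.atanChk (e.cp - e.cq) (e.cp + e.cq) 8 (e.lo - 2356194490) (e.hi - 2356194491) 3000000000
   else
    Atan.atanChk (e.cq - e.cp) (e.cq + e.cp) 8 (2356194491 - e.hi) (2356194490 - e.lo) 3000000000)

theorem tabChk_ok (e : Ent) (h : tabChk e = true) :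
    0 < e.cq ∧ (e.lo : ℝ) / (3000000000 : ℕ) ≤ arctan ((e.cp : ℝ) / e.cq) ∧
      arctan ((e.cp : ℝ) / e.cq) ≤ (e.hi : ℝ) / (3000000000 : ℕ) := by
  simp only [tabChk, Bool.and_eq_true, Nat.blt_eq] at h
  obtain ⟨⟨hq, hp⟩, h⟩ := h
  refine ⟨hq, ?_⟩
  have hq' : (0 : ℝ) < e.cq := by exact_mod_cast hq
  have hp' : (0 : ℝ) < e.cp := by exact_mod_cast hp
  obtain ⟨p1, p2⟩ := pi4
  split at h
  · exact Atan.atan_of_chk _ _ _ _ _ _ h
  · split at h
    · obtain ⟨h1, h2⟩ := Atan.atan_of_chk _ _ _ _ _ _ h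
      have h3 : arctan ((e.cp : ℝ) / e.cq) = π / 2 - arctan ((e.cq : ℝ) / e.cp) := by
        have := arctan_inv_of_pos (div_pos hq' hp')
        rw [inv_div] at this
        exact this
      rw [h3]
      push_cast at h1 h2 ⊢
      constructor
      · have : (4712388980 - (e.lo : ℝ)) / 3000000000 = 4712388980 / 3000000000 - e.lo / 3000000000 := by
          ring
        rw [this] at h2; linarith
      · have : (4712388982 - (e.hi : ℝ)) / 3000000000 = 4712388982 / 3000000000 - e.hi / 3000000000 := by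
          ring
        rw [this] at h1; linarith
    · split at h
      · rename_i hle
        obtain ⟨h1, h2⟩ := Atan.atan_of_chk _ _ _ _ _ _ h
        have hle' : (e.cq : ℝ) ≤ e.cp := by exact_mod_cast hle
        have h3 : arctan ((e.cp : ℝ) / e.cq) = π / 4 +
            arctan (((e.cp - e.cq : ℕ) : ℝ) / ((e.cp + e.cq : ℕ) : ℝ)) := by
          rw [Atan.arctan_shift 1 ((e.cp : ℝ) / e.cq) (by
            have : 0 < (e.cp : ℝ) / e.cq := by positivity
            linarith), arctan_one]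
          congr 2
          rw [Nat.cast_sub hle, Nat.cast_add]
          field_simp
          ring
        rw [h3]
        push_cast at h1 h2 ⊢
        constructor
        · have : ((e.lo : ℝ) - 2356194490) / 3000000000 = e.lo / 3000000000 - 2356194490 / 3000000000 := by
            ring
          rw [this] at h1; linarith
        · have : ((e.hi : ℝ) - 2356194491) / 3000000000 = e.hi / 3000000000 - 2356194491 / 3000000000 := by
            ring
          rw [this] at h2; linarith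
      · rename_i hle
        obtain ⟨h1, h2⟩ := Atan.atan_of_chk _ _ _ _ _ _ h
        have hle1 : e.cp ≤ e.cq := by omega
        have hle' : (e.cp : ℝ) ≤ e.cq := by exact_mod_cast hle1
        have h3 : arctan ((e.cp : ℝ) / e.cq) = π / 4 -
            arctan (((e.cq - e.cp : ℕ) : ℝ) / ((e.cq + e.cp : ℕ) : ℝ)) := by
          rw [Atan.arctan_shift 1 ((e.cp : ℝ) / e.cq) (by
            have : 0 < (e.cp : ℝ) / e.cq := by positivity
            linarith), arctan_one]
          have h4 : ((e.cp : ℝ) / e.cq - 1) / (1 + 1 * ((e.cp : ℝ) / e.cq)) =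
              -(((e.cq - e.cp : ℕ) : ℝ) / ((e.cq + e.cp : ℕ) : ℝ)) := by
            rw [Nat.cast_sub hle1, Nat.cast_add]
            field_simp
            ring
          rw [h4, arctan_neg]
          ring
        rw [h3]
        push_cast at h1 h2 ⊢
        constructor
        · have : (2356194490 - (e.lo : ℝ)) / 3000000000 = 2356194490 / 3000000000 - e.lo / 3000000000 := by
            ring
          rw [this] at h2; linarith
        · have : (2356194491 - (e.hi : ℝ)) / 3000000000 = 2356194491 / 3000000000 - e.hi / 3000000000 := by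
            ring
          rw [this] at h1; linarith

/-- the table -/
def T0 : List Ent := [
  ⟨0, 1, 0, 0⟩,
  ⟨1, 41, 73156224, 73156231⟩,
  ⟨2, 41, 146225550, 146225557⟩,
  ⟨2, 27, 221817109, 221817116⟩,
  ⟨5, 51, 293180719, 293180726⟩,
  ⟨7, 57, 366585509, 366585516⟩,
  ⟨4, 27, 441235063, 441235070⟩,
  ⟨4, 23, 516572440, 516572447⟩,
  ⟨1, 5, 592186676, 592186683⟩,
  ⟨11, 49, 662486306, 662486313⟩,
  ⟨1, 4, 734935986, 734935993⟩,
  ⟨13, 47, 809547464, 809547471⟩,
  ⟨7, 23, 886322508, 886322515⟩,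
  ⟨1, 3, 965251660, 965251667⟩,
  ⟨5, 14, 1029071818, 1029071825⟩,
  ⟨5, 13, 1101521498, 1101521505⟩,
  ⟨7, 17, 1171821128, 1171821135⟩,
  ⟨4, 9, 1254672985, 1254672992⟩,
  ⟨9, 19, 1327122665, 1327122672⟩,
  ⟨1, 2, 1390942824, 1390942831⟩,
  ⟨8, 15, 1469871975, 1469871982⟩,
  ⟨13, 23, 1543353936, 1543353943⟩,
  ⟨3, 5, 1621258497, 1621258504⟩,
  ⟨12, 19, 1689948781, 1689948788⟩,
  ⟨2, 3, 1764007807, 1764007814⟩,
  ⟨12, 17, 1843988852, 1843988859⟩,
  ⟨17, 23, 1909524644, 1909524651⟩,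
  ⟨18, 23, 1992138485, 1992138492⟩,
  ⟨9, 11, 2057188529, 2057188536⟩,
  ⟨19, 22, 2137072791, 2137072798⟩,
  ⟨19, 21, 2206319300, 2206319307⟩,
  ⟨20, 21, 2283038259, 2283038266⟩,
  ⟨1, 1, 2356194487, 2356194494⟩,
  ⟨21, 20, 2429350714, 2429350721⟩,
  ⟨21, 19, 2506069674, 2506069681⟩,
  ⟨22, 19, 2575316183, 2575316190⟩,
  ⟨28, 23, 2649375209, 2649375216⟩,
  ⟨23, 18, 2720250488, 2720250495⟩,
  ⟨31, 23, 2797429553, 2797429560⟩,
  ⟨27, 19, 2872766930, 2872766937⟩,
  ⟨3, 2, 2948381166, 2948381173⟩,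
  ⟨30, 19, 3018680796, 3018680803⟩,
  ⟨5, 3, 3091130476, 3091130483⟩,
  ⟨30, 17, 3165741955, 3165741962⟩,
  ⟨43, 23, 3238898182, 3238898189⟩,
  ⟨2, 1, 3321446150, 3321446157⟩,
  ⟨19, 9, 3385266308, 3385266315⟩,
  ⟨52, 23, 3463073125, 3463073132⟩,
  ⟨41, 17, 3533214919, 3533214926⟩,
  ⟨57, 22, 3607342213, 3607342220⟩,
  ⟨67, 24, 3680481618, 3680481625⟩,
  ⟨73, 24, 3759482923, 3759482930⟩,
  ⟨56, 17, 3828198661, 3828198668⟩,
  ⟨47, 13, 3902841509, 3902841516⟩,
  ⟨4, 1, 3977452988, 3977452995⟩,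
  ⟨49, 11, 4049902668, 4049902675⟩,
  ⟨5, 1, 4120202297, 4120202304⟩,
  ⟨23, 4, 4195816533, 4195816540⟩,
  ⟨27, 4, 4271153911, 4271153918⟩,
  ⟨57, 7, 4345803465, 4345803472⟩,
  ⟨51, 5, 4419208255, 4419208262⟩,
  ⟨27, 2, 4490571864, 4490571871⟩,
  ⟨41, 2, 4566163423, 4566163430⟩,
  ⟨41, 1, 4639232749, 4639232756⟩]

theorem T0_tail : (T0.tail).all tabChk = true := by decide +kernel

theorem T0_ok : TabOK 3000000000 T0 := by
  intro e he
  rw [show T0 = ⟨0, 1, 0, 0⟩ :: T0.tail from rfl] at he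
  rcases List.mem_cons.1 he with rfl | he
  · norm_num
  · exact tabChk_ok e (List.all_eq_true.1 T0_tail e he)

end AF06.At
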